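import Mathlib

/-!
Basic objects: the sphere `P1`, Hermitian forms as integer vectors, the four generators
`t : z ↦ z + 1`, `s : z ↦ -1/z`, `r : z ↦ i - z`, `σ : z ↦ - conj z` of the extended symmetry group.
-/

namespace Q4.Apo

open OnePoint Complex Matrix

abbrev P1 := OnePoint ℂ
abbrev GLC := Matrix.GeneralLinearGroup (Fin 2) ℂ
abbrev GLZ := Matrix.GeneralLinearGroup (Fin 2) GaussianInt
abbrev ZV := ℤ × ℤ × ℤ × ℤ

/-- The Hermitian form with entries `b, c, x, y`. -/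
noncomputable def Nr (b c x y : ℝ) (p : P1) : ℝ :=
  p.elim b (fun z => b * (z.re ^ 2 + z.im ^ 2) - 2 * (x * z.re + y * z.im) + c)

@[simp] lemma Nr_infty (b c x y : ℝ) : Nr b c x y ∞ = b := rfl
@[simp] lemma Nr_coe (b c x y : ℝ) (z : ℂ) :
    Nr b c x y (z : P1) = b * (z.re ^ 2 + z.im ^ 2) - 2 * (x * z.re + y * z.im) + c := rfl

noncomputable def N (f : ZV) (p : P1) : ℝ := Nr f.1 f.2.1 f.2.2.1 f.2.2.2 p

/-- Twice the Lorentz product. -/
def D (f g : ZV) : ℤ := 2 * (f.2.2.1 * g.2.2.1 + f.2.2.2 * g.2.2.2) - (f.1 * g.2.1 + f.2.1 * g.1)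

abbrev PG := Equiv.Perm P1 × (ZV ≃ₗ[ℤ] ZV)

noncomputable abbrev perm (g : GLC) : Equiv.Perm P1 := MulAction.toPermHom GLC P1 g

lemma perm_apply (g : GLC) (z : P1) : perm g z = g • z := rfl

noncomputable abbrev toC (h : GLZ) : GLC := Matrix.GeneralLinearGroup.map GaussianInt.toComplex h

/-- complex conjugation on the sphere -/
noncomputable def conjP : Equiv.Perm P1 :=
  Function.Involutive.toPerm (OnePoint.map (starRingEnd ℂ)) (by
    intro z
    induction z using OnePoint.rec <;> simp)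

@[simp] lemma conjP_infty : conjP ∞ = ∞ := rfl
@[simp] lemma conjP_coe (z : ℂ) : conjP (z : P1) = ((starRingEnd ℂ z : ℂ) : P1) := rfl

def hT : GLZ := ⟨!![1, 1; 0, 1], !![1, -1; 0, 1], by
  apply Matrix.ext; intro i j; fin_cases i <;> fin_cases j <;>
    simp [Matrix.mul_apply, Fin.sum_univ_two], by
  apply Matrix.ext; intro i j; fin_cases i <;> fin_cases j <;>
    simp [Matrix.mul_apply, Fin.sum_univ_two]⟩

def hS : GLZ := ⟨!![0, -1; 1, 0], !![0, 1; -1, 0], by
  apply Matrix.ext; intro i j; fin_cases i <;> fin_cases j <;>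
    simp [Matrix.mul_apply, Fin.sum_univ_two], by
  apply Matrix.ext; intro i j; fin_cases i <;> fin_cases j <;>
    simp [Matrix.mul_apply, Fin.sum_univ_two]⟩

def hR : GLZ := ⟨!![-1, ⟨0, 1⟩; 0, 1], !![-1, ⟨0, 1⟩; 0, 1], by
  apply Matrix.ext; intro i j; fin_cases i <;> fin_cases j <;>
    simp [Matrix.mul_apply, Fin.sum_univ_two], by
  apply Matrix.ext; intro i j; fin_cases i <;> fin_cases j <;>
    simp [Matrix.mul_apply, Fin.sum_univ_two]⟩

def hN : GLZ := ⟨!![-1, 0; 0, 1], !![-1, 0; 0, 1], by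
  apply Matrix.ext; intro i j; fin_cases i <;> fin_cases j <;>
    simp [Matrix.mul_apply, Fin.sum_univ_two], by
  apply Matrix.ext; intro i j; fin_cases i <;> fin_cases j <;>
    simp [Matrix.mul_apply, Fin.sum_univ_two]⟩

lemma toC_apply (h : GLZ) (i j : Fin 2) : (toC h) i j = GaussianInt.toComplex (h i j) := rfl

@[simp] lemma hT_coe (z : ℂ) : toC hT • (z : P1) = ((z + 1 : ℂ) : P1) := by
  rw [OnePoint.smul_some_eq_ite]
  simp [hT]
@[simp] lemma hT_infty : toC hT • (∞ : P1) = ∞ := by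
  rw [OnePoint.smul_infty_eq_ite]
  simp [hT]
@[simp] lemma hR_coe (z : ℂ) : toC hR • (z : P1) = ((I - z : ℂ) : P1) := by
  rw [OnePoint.smul_some_eq_ite]
  simp [hR, GaussianInt.toComplex_def]
  ring
@[simp] lemma hR_infty : toC hR • (∞ : P1) = ∞ := by
  rw [OnePoint.smul_infty_eq_ite]
  simp [hR]
@[simp] lemma hN_coe (z : ℂ) : toC hN • (z : P1) = ((-z : ℂ) : P1) := by
  rw [OnePoint.smul_some_eq_ite]
  simp [hN]
@[simp] lemma hN_infty : toC hN • (∞ : P1) = ∞ := by
  rw [OnePoint.smul_infty_eq_ite]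
  simp [hN]
lemma hS_coe (z : ℂ) (hz : z ≠ 0) : toC hS • (z : P1) = ((-z⁻¹ : ℂ) : P1) := by
  rw [OnePoint.smul_some_eq_ite]
  simp [hS, hz]
  rw [neg_div, one_div]
@[simp] lemma hS_zero : toC hS • ((0 : ℂ) : P1) = ∞ := by
  rw [OnePoint.smul_some_eq_ite]
  simp [hS]
@[simp] lemma hS_infty : toC hS • (∞ : P1) = ((0 : ℂ) : P1) := by
  rw [OnePoint.smul_infty_eq_ite]
  simp [hS]

def AT : ZV ≃ₗ[ℤ] ZV where
  toFun f := (f.1, f.2.1 + 2 * f.2.2.1 + f.1, f.2.2.1 + f.1, f.2.2.2)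
  map_add' f g := by ext <;> simp <;> ring
  map_smul' k f := by ext <;> simp <;> ring
  invFun f := (f.1, f.2.1 - 2 * f.2.2.1 + f.1, f.2.2.1 - f.1, f.2.2.2)
  left_inv f := by ext <;> simp <;> ring
  right_inv f := by ext <;> simp <;> ring

def AS : ZV ≃ₗ[ℤ] ZV where
  toFun f := (f.2.1, f.1, -f.2.2.1, f.2.2.2)
  map_add' f g := by ext <;> simp <;> ring
  map_smul' k f := by ext <;> simp
  invFun f := (f.2.1, f.1, -f.2.2.1, f.2.2.2)
  left_inv f := by ext <;> simp
  right_inv f := by ext <;> simp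

def AR : ZV ≃ₗ[ℤ] ZV where
  toFun f := (f.1, f.2.1 + f.1 - 2 * f.2.2.2, -f.2.2.1, f.1 - f.2.2.2)
  map_add' f g := by ext <;> simp <;> ring
  map_smul' k f := by ext <;> simp <;> ring
  invFun f := (f.1, f.2.1 + f.1 - 2 * f.2.2.2, -f.2.2.1, f.1 - f.2.2.2)
  left_inv f := by ext <;> simp <;> ring
  right_inv f := by ext <;> simp <;> ring

def Asig : ZV ≃ₗ[ℤ] ZV where
  toFun f := (f.1, f.2.1, -f.2.2.1, f.2.2.2)
  map_add' f g := by ext <;> simp <;> ring
  map_smul' k f := by ext <;> simp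
  invFun f := (f.1, f.2.1, -f.2.2.1, f.2.2.2)
  left_inv f := by ext <;> simp
  right_inv f := by ext <;> simp

noncomputable def t : PG := (perm (toC hT), AT)
noncomputable def s : PG := (perm (toC hS), AS)
noncomputable def r : PG := (perm (toC hR), AR)
noncomputable def σ : PG := (perm (toC hN) * conjP, Asig)

/-- The extended symmetry group (with its action on vectors). -/
noncomputable def G : Subgroup PG := Subgroup.closure {t, s, r, σ}

lemma t_mem : t ∈ G := Subgroup.subset_closure (by simp)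
lemma s_mem : s ∈ G := Subgroup.subset_closure (by simp)
lemma r_mem : r ∈ G := Subgroup.subset_closure (by simp)
lemma σ_mem : σ ∈ G := Subgroup.subset_closure (by simp)

lemma t_apply (z : P1) : t.1 z = toC hT • z := rfl
lemma s_apply (z : P1) : s.1 z = toC hS • z := rfl
lemma r_apply (z : P1) : r.1 z = toC hR • z := rfl
@[simp] lemma σ_coe (z : ℂ) : σ.1 (z : P1) = ((-(starRingEnd ℂ z) : ℂ) : P1) := by
  change toC hN • (conjP (z : P1)) = _
  simp
@[simp] lemma σ_infty : σ.1 (∞ : P1) = ∞ := by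
  change toC hN • (conjP (∞ : P1)) = _
  simp

lemma mul1 (p q : PG) (z : P1) : (p * q).1 z = p.1 (q.1 z) := rfl
lemma mul2 (p q : PG) (v : ZV) : (p * q).2 v = p.2 (q.2 v) := rfl
lemma inv1 (p : PG) (z : P1) : p⁻¹.1 (p.1 z) = z := p.1.symm_apply_apply z
lemma inv1' (p : PG) (z : P1) : p.1 (p⁻¹.1 z) = z := p.1.apply_symm_apply z
lemma inv2 (p : PG) (v : ZV) : p⁻¹.2 (p.2 v) = v := p.2.symm_apply_apply v
lemma inv2' (p : PG) (v : ZV) : p.2 (p⁻¹.2 v) = v := p.2.apply_symm_apply v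

/-- induction principle for `G` -/
lemma G_ind {Pr : PG → Prop} (h1 : Pr 1) (ht : Pr t) (hs : Pr s) (hr : Pr r) (hσ : Pr σ)
    (hmul : ∀ p q, Pr p → Pr q → Pr (p * q)) (hinv : ∀ p, Pr p → Pr p⁻¹) :
    ∀ p ∈ G, Pr p := by
  intro p hp
  refine Subgroup.closure_induction (p := fun x _ => Pr x) ?_ h1 ?_ ?_ hp
  · intro x hx
    rcases hx with rfl | rfl | rfl | rfl <;> assumption
  · intro x y _ _ hx hy
    exact hmul x y hx hy
  · intro x _ hx
    exact hinv x hx

/-- real version of the transformation rules -/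
lemma Nr_T (b c x y : ℝ) (z : P1) :
    Nr b (c + 2 * x + b) (x + b) y (toC hT • z) = Nr b c x y z := by
  induction z using OnePoint.rec with
  | infty => rw [hT_infty]; simp
  | coe z => rw [hT_coe]; simp; ring
lemma Nr_R (b c x y : ℝ) (z : P1) :
    Nr b (c + b - 2 * y) (-x) (b - y) (toC hR • z) = Nr b c x y z := by
  induction z using OnePoint.rec with
  | infty => rw [hR_infty]; simp
  | coe z => rw [hR_coe]; simp; ring
lemma Nr_σ (b c x y : ℝ) (z : P1) :
    Nr b c (-x) y (σ.1 z) = Nr b c x y z := by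
  induction z using OnePoint.rec with
  | infty => rw [σ_infty]; simp
  | coe z => rw [σ_coe]; simp

lemma Nr_S (z : P1) : ∃ ρ : ℝ, 0 < ρ ∧ ∀ b c x y : ℝ,
    Nr c b (-x) y (toC hS • z) = ρ * Nr b c x y z := by
  induction z using OnePoint.rec with
  | infty => exact ⟨1, one_pos, fun b c x y => by rw [hS_infty]; simp⟩
  | coe z =>
    by_cases hz : z = 0
    · subst hz
      exact ⟨1, one_pos, fun b c x y => by rw [hS_zero]; simp⟩
    · have hz2 : 0 < z.re ^ 2 + z.im ^ 2 := by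
        have := Complex.normSq_pos.mpr hz
        rw [Complex.normSq_apply] at this
        nlinarith
      refine ⟨(z.re ^ 2 + z.im ^ 2)⁻¹, inv_pos.mpr hz2, fun b c x y => ?_⟩
      rw [hS_coe z hz]
      simp only [Nr_coe, Complex.neg_re, Complex.neg_im, Complex.inv_re, Complex.inv_im,
        Complex.normSq_apply]
      have e : z.re * z.re + z.im * z.im = z.re ^ 2 + z.im ^ 2 := by ring
      rw [e]
      field_simp
      ring

lemma N_compat : ∀ p ∈ G, ∀ z : P1, ∃ ρ : ℝ, 0 < ρ ∧ ∀ f : ZV, N (p.2 f) (p.1 z) = ρ * N f z := by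
  apply G_ind
  · intro z; exact ⟨1, one_pos, fun f => by simp⟩
  · intro z
    refine ⟨1, one_pos, fun f => ?_⟩
    rw [one_mul]
    have := Nr_T f.1 f.2.1 f.2.2.1 f.2.2.2 z
    rw [← N] at this
    rw [← this]
    simp [N, t, AT]
  · intro z
    obtain ⟨ρ, h0, h⟩ := Nr_S z
    refine ⟨ρ, h0, fun f => ?_⟩
    have := h f.1 f.2.1 f.2.2.1 f.2.2.2
    rw [← N] at this
    rw [← this]
    simp [N, s, AS]
  · intro z
    refine ⟨1, one_pos, fun f => ?_⟩
    rw [one_mul]
    have := Nr_R f.1 f.2.1 f.2.2.1 f.2.2.2 z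
    rw [← N] at this
    rw [← this]
    simp [N, r, AR]
  · intro z
    refine ⟨1, one_pos, fun f => ?_⟩
    rw [one_mul]
    have := Nr_σ f.1 f.2.1 f.2.2.1 f.2.2.2 z
    rw [← N] at this
    rw [← this]
    simp [N, Asig, σ]
  · intro p q hp hq z
    obtain ⟨ρ, h0, h⟩ := hq z
    obtain ⟨ρ', h0', h'⟩ := hp (q.1 z)
    refine ⟨ρ' * ρ, mul_pos h0' h0, fun f => ?_⟩
    have := h' (q.2 f)
    rw [h f] at this
    rw [mul_assoc, ← this]
    rfl
  · intro p hp z
    obtain ⟨ρ, h0, h⟩ := hp (p.1⁻¹ z)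
    refine ⟨ρ⁻¹, inv_pos.mpr h0, fun f => ?_⟩
    have := h (p.2⁻¹ f)
    have e1 : p.2 (p.2⁻¹ f) = f := p.2.apply_symm_apply f
    have e2 : p.1 (p.1⁻¹ z) = z := p.1.apply_symm_apply z
    rw [e1, e2] at this
    rw [this, inv_mul_cancel_left₀ h0.ne']
    rfl

lemma D_inv : ∀ p ∈ G, ∀ f g : ZV, D (p.2 f) (p.2 g) = D f g := by
  apply G_ind
  · intro f g; simp
  · intro f g; simp [D, t, AT]; ring
  · intro f g; simp [D, s, AS]; ring
  · intro f g; simp [D, r, AR]; ring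
  · intro f g; simp [D, σ, Asig]
  · intro p q hp hq f g
    have := hp (q.2 f) (q.2 g)
    rw [hq] at this
    exact this
  · intro p hp f g
    have := hp (p.2⁻¹ f) (p.2⁻¹ g)
    have e1 : ∀ f, p.2 (p.2⁻¹ f) = f := fun f => p.2.apply_symm_apply f
    rw [e1, e1] at this
    exact this.symm

end Q4.Apo
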