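import Pool.Agent.Q4.Apo.Limit

/-! The circle `Cs`, its images under powers of `g1`, and explicit matrices. -/

namespace Q4.Apo

open OnePoint Complex Matrix Filter Topology

lemma mat_sgn (m : GLC) (z : P1) : ∃ ρ : ℝ, 0 < ρ ∧
    ρ * N e1 (m • z) = Nr (2 * ((m 0 0).im * (m 1 0).re - (m 0 0).re * (m 1 0).im))
      (2 * ((m 0 1).im * (m 1 1).re - (m 0 1).re * (m 1 1).im))
      (-(((m 0 0) * (starRingEnd ℂ) (m 1 1) - (starRingEnd ℂ) (m 0 1) * (m 1 0)).im))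
      (-(((m 0 0) * (starRingEnd ℂ) (m 1 1) - (starRingEnd ℂ) (m 0 1) * (m 1 0)).re)) z := by
  induction z using OnePoint.rec with
  | infty =>
    rw [OnePoint.smul_infty_eq_ite]
    by_cases h : m 1 0 = 0
    · refine ⟨1, one_pos, ?_⟩
      rw [if_pos h, Nr_infty, N_e1_infty, h]; simp
    · refine ⟨Complex.normSq (m 1 0), Complex.normSq_pos.mpr h, ?_⟩
      rw [if_neg h, Nr_infty, N_e1_coe, Complex.div_im]
      have hc : Complex.normSq (m 1 0) ≠ 0 := (Complex.normSq_pos.mpr h).ne'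
      field_simp
  | coe w =>
    rw [OnePoint.smul_some_eq_ite]
    have e : Nr (2 * ((m 0 0).im * (m 1 0).re - (m 0 0).re * (m 1 0).im))
      (2 * ((m 0 1).im * (m 1 1).re - (m 0 1).re * (m 1 1).im))
      (-(((m 0 0) * (starRingEnd ℂ) (m 1 1) - (starRingEnd ℂ) (m 0 1) * (m 1 0)).im))
      (-(((m 0 0) * (starRingEnd ℂ) (m 1 1) - (starRingEnd ℂ) (m 0 1) * (m 1 0)).re)) (w : P1) =
        2 * ((m 0 0 * w + m 0 1).im * (m 1 0 * w + m 1 1).re -
          (m 0 0 * w + m 0 1).re * (m 1 0 * w + m 1 1).im) := by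
      rw [Nr_coe]
      simp only [Complex.sub_re, Complex.sub_im, Complex.mul_re, Complex.mul_im,
          Complex.conj_re, Complex.conj_im, Complex.add_re, Complex.add_im]
      ring
    rw [e]
    by_cases h : m 1 0 * w + m 1 1 = 0
    · refine ⟨1, one_pos, ?_⟩
      rw [if_pos h, N_e1_infty, h]; simp
    · refine ⟨Complex.normSq (m 1 0 * w + m 1 1), Complex.normSq_pos.mpr h, ?_⟩
      rw [if_neg h, N_e1_coe, Complex.div_im]
      have hc : Complex.normSq (m 1 0 * w + m 1 1) ≠ 0 := (Complex.normSq_pos.mpr h).ne'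
      field_simp

noncomputable def Mt (τ : ℝ) : Matrix (Fin 2) (Fin 2) ℂ :=
  !![1 - I * (√2 : ℝ) * τ, 2 * I * τ; -I * τ, 1 + I * (√2 : ℝ) * τ]

lemma sq2 : ((√2 : ℝ) : ℂ) ^ 2 = 2 := by
  rw [← Complex.ofReal_pow, Real.sq_sqrt (by norm_num)]; simp

lemma Mt_mul (τ : ℝ) : Mt τ * Mt (-τ) = 1 := by
  have h := sq2
  have hI := Complex.I_sq
  apply Matrix.ext
  intro i j
  fin_cases i <;> fin_cases j <;>
    simp [Mt, Matrix.mul_apply, Fin.sum_univ_two]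
  · linear_combination (-(√2 : ℝ) ^ 2 * τ ^ 2 + 2 * τ ^ 2) * hI + τ ^ 2 * h
  · linear_combination (0 : ℂ) * hI
  · linear_combination (0 : ℂ) * hI
  · linear_combination (-(√2 : ℝ) ^ 2 * τ ^ 2 + 2 * τ ^ 2) * hI + τ ^ 2 * h

noncomputable def ht (τ : ℝ) : GLC := ⟨Mt τ, Mt (-τ), Mt_mul τ, by
  have := Mt_mul (-τ)
  rwa [neg_neg] at this⟩

lemma ht_inv (τ : ℝ) : (ht τ)⁻¹ = ht (-τ) := by
  apply Units.ext
  rfl

lemma ht_cont : Continuous ht := by
  rw [Units.continuous_iff]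
  have h1 : Continuous Mt := by
    refine continuous_matrix (fun i j => ?_)
    fin_cases i <;> fin_cases j <;> simp [Mt] <;> fun_prop
  exact ⟨h1, h1.comp continuous_neg⟩

lemma ht_zero : ht 0 = 1 := by
  apply Units.ext
  change Mt 0 = 1
  apply Matrix.ext
  intro i j
  fin_cases i <;> fin_cases j <;> simp [Mt]

/-- the circle with parameter `τ` -/
lemma mem_ht (τ : ℝ) (z : P1) : z ∈ (fun w : OnePoint ℂ => ht τ • w) '' Rhat ↔
    N e1 (ht (-τ) • z) = 0 := by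
  rw [← mem_Rhat_iff]
  constructor
  · rintro ⟨w, hw, rfl⟩
    simp only [← ht_inv, inv_smul_smul]
    exact hw
  · intro h
    exact ⟨ht (-τ) • z, h, by simp [← ht_inv]⟩

lemma ht_sgn (τ : ℝ) (w : ℂ) : ∃ ρ : ℝ, 0 < ρ ∧ ρ * N e1 (ht (-τ) • (w : P1)) =
    2 * (w.im - τ * ((w.re - √2) ^ 2 + w.im ^ 2)) := by
  obtain ⟨ρ, h0, h⟩ := mat_sgn (ht (-τ)) (w : P1)
  refine ⟨ρ, h0, ?_⟩
  rw [h, Nr_coe]
  have hs : √2 ^ 2 = 2 := Real.sq_sqrt (by norm_num)
  have e00 : (ht (-τ)) 0 0 = 1 + I * (√2 : ℝ) * τ := by simp [ht, Mt]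
  have e01 : (ht (-τ)) 0 1 = -(2 * I * τ) := by simp [ht, Mt]
  have e10 : (ht (-τ)) 1 0 = I * τ := by simp [ht, Mt]
  have e11 : (ht (-τ)) 1 1 = 1 - I * (√2 : ℝ) * τ := by simp [ht, Mt]; ring
  rw [e00, e01, e10, e11]
  simp
  linear_combination (2 * τ - 2 * τ ^ 2 * w.im) * hs

lemma ht_infty (τ : ℝ) : ∃ ρ : ℝ, 0 < ρ ∧ ρ * N e1 (ht (-τ) • (∞ : P1)) = - 2 * τ := by
  obtain ⟨ρ, h0, h⟩ := mat_sgn (ht (-τ)) (∞ : P1)
  refine ⟨ρ, h0, ?_⟩
  rw [h, Nr_infty]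
  have e00 : (ht (-τ)) 0 0 = 1 + I * (√2 : ℝ) * τ := by simp [ht, Mt]
  have e10 : (ht (-τ)) 1 0 = I * τ := by simp [ht, Mt]
  rw [e00, e10]
  simp

lemma coe_mem_ht {τ : ℝ} (w : ℂ) : (w : P1) ∈ (fun w : OnePoint ℂ => ht τ • w) '' Rhat ↔
    w.im = τ * ((w.re - √2) ^ 2 + w.im ^ 2) := by
  rw [mem_ht]
  obtain ⟨ρ, h0, h⟩ := ht_sgn τ w
  constructor
  · intro h1
    rw [h1, mul_zero] at h
    linarith
  · intro h1
    have : ρ * N e1 (ht (-τ) • (w : P1)) = 0 := by rw [h]; linarith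
    rcases mul_eq_zero.mp this with h2 | h2
    · exact absurd h2 h0.ne'
    · exact h2

lemma infty_notMem_ht {τ : ℝ} (hτ : τ ≠ 0) : (∞ : P1) ∉ (fun w : OnePoint ℂ => ht τ • w) '' Rhat := by
  rw [mem_ht]
  obtain ⟨ρ, h0, h⟩ := ht_infty τ
  intro h1
  rw [h1, mul_zero] at h
  apply hτ
  linarith

lemma Cs_eq : Cs = (fun w : OnePoint ℂ => ht 1 • w) '' Rhat := by
  ext z
  induction z using OnePoint.rec with
  | infty =>
    constructor
    · rintro ⟨w, hw, -⟩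
      exact absurd hw (OnePoint.coe_ne_infty w)
    · intro h
      exact absurd h (infty_notMem_ht one_ne_zero)
  | coe w =>
    rw [coe_mem_ht, one_mul]
    constructor
    · rintro ⟨v, hv, h⟩
      rw [OnePoint.coe_eq_coe] at hv
      rwa [← hv]
    · intro h
      exact ⟨w, rfl, h⟩

/-- description of the circles -/
lemma mem_ht_iff {τ : ℝ} (hτ : 0 < τ) (z : P1) : z ∈ (fun w : OnePoint ℂ => ht τ • w) '' Rhat ↔
    (z ∈ Up ∧ Ff z = τ) ∨ z = (((√2 : ℝ) : ℂ) : P1) := by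
  induction z using OnePoint.rec with
  | infty =>
    constructor
    · intro h; exact absurd h (infty_notMem_ht hτ.ne')
    · rintro (h | h)
      · exact absurd h.1 infty_notMem_Up
      · exact absurd h (OnePoint.infty_ne_coe _)
  | coe w =>
    rw [coe_mem_ht, mem_Up_coe, Ff_coe]
    constructor
    · intro h
      by_cases hw : 0 < w.im
      · left
        refine ⟨hw, ?_⟩
        have hpos : 0 < (w.re - √2) ^ 2 + w.im ^ 2 := by positivity
        rw [div_eq_iff hpos.ne']; exact h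
      · right
        have h1 : 0 ≤ τ * ((w.re - √2) ^ 2 + w.im ^ 2) := by positivity
        have h2 : w.im = 0 := by linarith
        rw [h2] at h
        have h3 : (w.re - √2) ^ 2 = 0 := by
          have : τ * ((w.re - √2) ^ 2) = 0 := by linarith
          rcases mul_eq_zero.mp this with h4 | h4
          · exact absurd h4 hτ.ne'
          · exact h4
        have h4 : w.re - √2 = 0 := (pow_eq_zero_iff two_ne_zero).mp h3
        rw [OnePoint.coe_eq_coe]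
        apply Complex.ext
        · simp; linarith
        · simp [h2]
    · rintro (⟨h1, h2⟩ | h)
      · have hpos : 0 < (w.re - √2) ^ 2 + w.im ^ 2 := by positivity
        rw [div_eq_iff hpos.ne'] at h2; exact h2
      · rw [OnePoint.coe_eq_coe] at h
        rw [h]; simp

lemma g1_sqrt : g1.1 (((√2 : ℝ) : ℂ) : P1) = (((√2 : ℝ) : ℂ) : P1) := by
  change t.1 (s.1 ((t ^ (-2 : ℤ)).1 (s.1 (t.1 (((√2 : ℝ) : ℂ) : P1))))) = _
  have hs : (0 : ℝ) < √2 := Real.sqrt_pos.mpr (by norm_num)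
  have h1 : ((√2 : ℝ) : ℂ) + 1 ≠ 0 := by
    have : (√2 : ℝ) + 1 ≠ 0 := by positivity
    exact_mod_cast this
  have h2 : 2 * ((√2 : ℝ) : ℂ) + 3 ≠ 0 := by
    have : 2 * (√2 : ℝ) + 3 ≠ 0 := by positivity
    exact_mod_cast this
  have h3 : -(((√2 : ℝ) : ℂ) + 1)⁻¹ + ((-2 : ℤ) : ℂ) ≠ 0 := by
    intro h
    apply h2
    push_cast at h
    field_simp at h
    linear_combination -h
  rw [t_apply ((((√2 : ℝ) : ℂ)) : P1), hT_coe, s_apply (((((√2 : ℝ) : ℂ) + 1 : ℂ)) : P1),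
    hS_coe _ h1, (tk _).1, s_apply, hS_coe _ h3, t_apply, hT_coe]
  congr 1
  have h4 : -(((√2 : ℝ) : ℂ) + 1)⁻¹ + ((-2 : ℤ) : ℂ) = -(2 * ((√2 : ℝ) : ℂ) + 3) /
      (((√2 : ℝ) : ℂ) + 1) := by
    push_cast; field_simp; ring
  rw [h4]
  field_simp
  linear_combination (-2) * sq2

lemma g1k_sqrt (n : ℤ) : (g1 ^ n).1 (((√2 : ℝ) : ℂ) : P1) = (((√2 : ℝ) : ℂ) : P1) := by
  induction n using Int.induction_on with
  | zero => rfl
  | succ k ih =>
    rw [_root_.zpow_add, _root_.zpow_one, mul1, g1_sqrt, ih]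
  | pred k ih =>
    rw [sub_eq_add_neg, _root_.zpow_add, _root_.zpow_neg_one, mul1]
    have : g1⁻¹.1 (((√2 : ℝ) : ℂ) : P1) = (((√2 : ℝ) : ℂ) : P1) := by
      have := inv1 g1 (((√2 : ℝ) : ℂ) : P1)
      rwa [g1_sqrt] at this
    rw [this, ih]

lemma img_g1 (n : ℤ) : (g1 ^ n).1 '' Cs = (fun w : OnePoint ℂ => ht (lam ^ n) • w) '' Rhat := by
  ext z
  rw [mem_ht_iff (zpow_pos lam_pos n), Cs_eq]
  constructor
  · rintro ⟨y, hy, rfl⟩
    rw [mem_ht_iff one_pos] at hy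
    rcases hy with ⟨h1, h2⟩ | h
    · left
      refine ⟨(Up_g1z n y).mpr h1, ?_⟩
      rw [Ff_g1z n h1, h2, mul_one]
    · right
      rw [h, g1k_sqrt]
  · intro h
    refine ⟨(g1 ^ (-n)).1 z, ?_, ?_⟩
    · rw [mem_ht_iff one_pos]
      rcases h with ⟨h1, h2⟩ | h
      · left
        refine ⟨(Up_g1z (-n) z).mpr h1, ?_⟩
        rw [Ff_g1z (-n) h1, h2, ← zpow_add₀ lam_pos.ne']
        simp
      · right
        rw [h, g1k_sqrt]
    · rw [← mul1, ← _root_.zpow_add]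
      simp

end Q4.Apo
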