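import Pool.Agent.Q4.Apo.Refl

/-! Continuity of the group elements and their matrix form. -/

namespace Q4.Apo

open OnePoint Complex Matrix Filter Topology

lemma cont_of_homeo (e : ℂ ≃ₜ ℂ) (φ : P1 → P1) (h1 : ∀ z : ℂ, φ z = (e z : ℂ)) (h2 : φ ∞ = ∞) :
    Continuous φ := by
  have : φ = (Homeomorph.onePointCongr e) := by
    ext z
    induction z using OnePoint.rec with
    | infty => rw [h2]; rfl
    | coe z => rw [h1]; rfl
  rw [this]
  exact (Homeomorph.onePointCongr e).continuous

lemma cont_t : Continuous t.1 := by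
  refine cont_of_homeo (Homeomorph.addRight (1 : ℂ)) _ ?_ ?_
  · intro z; rw [t_apply, hT_coe]; rfl
  · rw [t_apply, hT_infty]

lemma cont_r : Continuous r.1 := by
  refine cont_of_homeo ((Homeomorph.subLeft (I : ℂ))) _ ?_ ?_
  · intro z; rw [r_apply, hR_coe]; rfl
  · rw [r_apply, hR_infty]

lemma cont_σ : Continuous σ.1 := by
  refine cont_of_homeo ((Complex.conjCLE.toHomeomorph).trans (Homeomorph.neg ℂ)) _ ?_ ?_
  · intro z; rw [σ_coe]; rfl
  · rw [σ_infty]

lemma cont_s : Continuous s.1 := by
  rw [OnePoint.continuous_iff]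
  constructor
  · rw [Filter.coclosedCompact_eq_cocompact, s_apply, hS_infty]
    have h1 : Tendsto (fun z : ℂ => ((-z⁻¹ : ℂ) : P1)) (cocompact ℂ) (𝓝 ((0 : ℂ) : P1)) := by
      have : Tendsto (fun z : ℂ => -z⁻¹) (cocompact ℂ) (𝓝 0) := by
        have := (tendsto_inv₀_cobounded (α := ℂ)).neg
        rw [neg_zero, Metric.cobounded_eq_cocompact] at this
        exact this
      exact (OnePoint.continuous_coe.tendsto _).comp this
    refine h1.congr' ?_
    have : ∀ᶠ z : ℂ in cocompact ℂ, z ≠ 0 := by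
      have := (isCompact_singleton (x := (0 : ℂ))).compl_mem_cocompact
      filter_upwards [this] with z hz
      simpa using hz
    filter_upwards [this] with z hz
    rw [s_apply, hS_coe z hz]
  · rw [continuous_iff_continuousAt]
    intro z
    by_cases hz : z = 0
    · subst hz
      rw [ContinuousAt, s_apply, hS_zero]
      rw [← nhdsNE_sup_pure, tendsto_sup]
      constructor
      · have h1 : Tendsto (fun z : ℂ => ((-z⁻¹ : ℂ) : P1)) (𝓝[≠] 0) (𝓝 ∞) := by
          have h2 : Tendsto (fun z : ℂ => -z⁻¹) (𝓝[≠] 0) (coclosedCompact ℂ) := by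
            rw [Filter.coclosedCompact_eq_cocompact, ← Metric.cobounded_eq_cocompact]
            have := tendsto_inv₀_nhdsNE_zero (α := ℂ)
            exact (tendsto_neg_cobounded).comp this
          exact OnePoint.tendsto_coe_infty.comp h2
        refine h1.congr' ?_
        filter_upwards [self_mem_nhdsWithin] with z hz
        rw [s_apply, hS_coe z hz]
      · rw [tendsto_pure_left]
        intro U hU
        rw [s_apply, hS_zero]
        exact mem_of_mem_nhds hU
    · have h1 : ContinuousAt (fun z : ℂ => ((-z⁻¹ : ℂ) : P1)) z := by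
        have : ContinuousAt (fun z : ℂ => -z⁻¹) z := (continuousAt_inv₀ hz).neg
        exact OnePoint.continuous_coe.continuousAt.comp this
      refine h1.congr ?_
      filter_upwards [isOpen_ne.mem_nhds hz] with w hw
      rw [s_apply, hS_coe w hw]

lemma cont_G : ∀ p ∈ G, Continuous p.1 := by
  apply G_ind
  · exact continuous_id
  · exact cont_t
  · exact cont_s
  · exact cont_r
  · exact cont_σ
  · intro p q hp hq
    exact hp.comp hq
  · intro p hp
    exact (hp.homeoOfEquivCompactToT2 (f := p.1)).symm.continuous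

/-! matrix form -/

def starG (h : GLZ) : GLZ := Matrix.GeneralLinearGroup.map (starRingEnd GaussianInt) h

lemma conj_toC (h : GLZ) :
    Matrix.GeneralLinearGroup.map (starRingEnd ℂ) (toC h) = toC (starG h) := by
  apply Matrix.GeneralLinearGroup.ext
  intro i j
  simp only [Matrix.GeneralLinearGroup.map_apply, starG]
  rw [starRingEnd_apply, starRingEnd_apply, GaussianInt.toComplex_star]
  rfl

lemma conjP_smul (g : GLC) (z : P1) :
    conjP (g • z) = Matrix.GeneralLinearGroup.map (starRingEnd ℂ) g • conjP z :=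
  OnePoint.map_smul (starRingEnd ℂ) g z

lemma conjP_sq : conjP * conjP = 1 := by
  ext z
  induction z using OnePoint.rec with
  | infty => rfl
  | coe z => simp

lemma conjP_mul (h : GLZ) : conjP * perm (toC h) = perm (toC (starG h)) * conjP := by
  ext z
  change conjP (toC h • z) = toC (starG h) • conjP z
  rw [conjP_smul, conj_toC]

def Ext (φ : Equiv.Perm P1) : Prop := ∃ h : GLZ, φ = perm (toC h) ∨ φ = perm (toC h) * conjP

lemma perm_mul (h k : GLZ) : perm (toC h) * perm (toC k) = perm (toC (h * k)) := by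
  rw [toC, toC, toC, map_mul, perm, perm, perm, map_mul]

lemma perm_inv (h : GLZ) : (perm (toC h))⁻¹ = perm (toC h⁻¹) := by
  rw [toC, toC, map_inv, perm, perm, map_inv]

lemma Ext_G : ∀ p ∈ G, Ext p.1 := by
  apply G_ind
  · refine ⟨1, Or.inl ?_⟩
    rw [toC, map_one, perm, map_one]
    rfl
  · exact ⟨hT, Or.inl rfl⟩
  · exact ⟨hS, Or.inl rfl⟩
  · exact ⟨hR, Or.inl rfl⟩
  · exact ⟨hN, Or.inr rfl⟩
  · rintro p q ⟨h, hp⟩ ⟨k, hq⟩
    change Ext (p.1 * q.1)
    rcases hp with hp | hp <;> rcases hq with hq | hq <;> rw [hp, hq]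
    · exact ⟨h * k, Or.inl (perm_mul h k)⟩
    · exact ⟨h * k, Or.inr (by rw [← mul_assoc, perm_mul])⟩
    · refine ⟨h * starG k, Or.inr ?_⟩
      rw [mul_assoc, conjP_mul, ← mul_assoc, perm_mul]
    · refine ⟨h * starG k, Or.inl ?_⟩
      rw [mul_assoc, ← mul_assoc conjP, conjP_mul, mul_assoc, conjP_sq, mul_one, perm_mul]
  · rintro p ⟨h, hp⟩
    change Ext (p.1)⁻¹
    rcases hp with hp | hp <;> rw [hp]
    · exact ⟨h⁻¹, Or.inl (perm_inv h)⟩
    · refine ⟨starG h⁻¹, Or.inr ?_⟩
      rw [_root_.mul_inv_rev, perm_inv, ← conjP_mul, inv_eq_of_mul_eq_one_left conjP_sq]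

end Q4.Apo
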