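import Pool.Agent.Q4.Apo.Pack
import Pool.Agent.Q4.Apo.Top

/-! Cusps, the hyperbolic element `g1`, and the invariant set `K`. -/

namespace Q4.Apo

open OnePoint Complex Matrix Filter Topology

lemma tinv_coe (z : ℂ) : t⁻¹.1 (z : P1) = ((z - 1 : ℂ) : P1) := by
  have : t.1 ((z - 1 : ℂ) : P1) = (z : P1) := by
    rw [t_apply, hT_coe]; simp
  exact (t.1.symm_apply_eq.mpr this.symm)

lemma tinv_infty : t⁻¹.1 (∞ : P1) = ∞ := by
  have : t.1 (∞ : P1) = ∞ := by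
    rw [t_apply, hT_infty]
  exact (t.1.symm_apply_eq.mpr this.symm)

lemma tk (k : ℤ) : (∀ z : ℂ, (t ^ k).1 (z : P1) = ((z + k : ℂ) : P1)) ∧ (t ^ k).1 (∞ : P1) = ∞ ∧
    (∀ v : ZV, (t ^ k).2 v =
      (v.1, v.2.1 + 2 * k * v.2.2.1 + k ^ 2 * v.1, v.2.2.1 + k * v.1, v.2.2.2)) := by
  induction k using Int.induction_on with
  | zero =>
    refine ⟨fun z => ?_, ?_, fun v => ?_⟩
    · simp
    · simp
    · simp
  | succ k ih =>
    obtain ⟨h1, h2, h3⟩ := ih
    rw [add_comm (k : ℤ) 1, _root_.zpow_one_add]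
    refine ⟨fun z => ?_, ?_, fun v => ?_⟩
    · change t.1 ((t ^ (k : ℤ)).1 (z : P1)) = _
      rw [h1, t_apply, hT_coe]
      congr 1
      push_cast; ring
    · change t.1 ((t ^ (k : ℤ)).1 ∞) = _
      rw [h2, t_apply, hT_infty]
    · change AT ((t ^ (k : ℤ)).2 v) = _
      rw [h3]
      simp only [AT, LinearEquiv.coe_mk, LinearMap.coe_mk, AddHom.coe_mk]
      ext <;> simp <;> ring
  | pred k ih =>
    obtain ⟨h1, h2, h3⟩ := ih
    have e : (-(k : ℤ) - 1) = -1 + -(k : ℤ) := by ring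
    rw [e, _root_.zpow_add, _root_.zpow_neg_one]
    refine ⟨fun z => ?_, ?_, fun v => ?_⟩
    · change t⁻¹.1 ((t ^ (-(k : ℤ))).1 (z : P1)) = _
      rw [h1, tinv_coe]
      congr 1
      push_cast; ring
    · change t⁻¹.1 ((t ^ (-(k : ℤ))).1 ∞) = _
      rw [h2, tinv_infty]
    · change AT.symm ((t ^ (-(k : ℤ))).2 v) = _
      rw [h3]
      simp only [AT, LinearEquiv.coe_symm_mk]
      ext <;> simp <;> ring

lemma tk_mem (k : ℤ) : t ^ k ∈ G := G.zpow_mem t_mem k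

lemma tk_e1 (k : ℤ) : (t ^ k).2 e1 = e1 := by
  rw [(tk k).2.2]; simp [e1]

lemma s_e1 : s.2 e1 = e1 := by
  simp [s, AS, e1]

/-- every rational number is a cusp, through an element fixing the real circle -/
lemma rat_cusp : ∀ n : ℕ, 0 < n → ∀ m : ℤ, ∃ p ∈ G,
    p.1 (∞ : P1) = (((m : ℂ) / (n : ℂ) : ℂ) : P1) ∧ p.2 e1 = e1 := by
  intro n
  induction n using Nat.strong_induction_on with
  | _ n ih =>
    intro hn m
    by_cases h0 : m % n = 0
    · refine ⟨t ^ (m / n) * s, G.mul_mem (tk_mem _) s_mem, ?_, ?_⟩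
      · change (t ^ (m / n)).1 (s.1 ∞) = _
        rw [s_apply, hS_infty, (tk _).1]
        congr 1
        have : m = (m / n) * n := by
          have := Int.mul_ediv_add_emod m n
          rw [h0] at this
          linarith
        have h2 : (m : ℂ) = ((m / n : ℤ) : ℂ) * (n : ℂ) := by
          exact_mod_cast congrArg (fun k : ℤ => (k : ℂ)) this
        have hn' : (n : ℂ) ≠ 0 := by exact_mod_cast hn.ne'
        rw [zero_add, eq_div_iff hn', ← h2]
      · change (t ^ (m / n)).2 (s.2 e1) = _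
        rw [s_e1, tk_e1]
    · have hr0 : 0 ≤ m % n := Int.emod_nonneg _ (by omega)
      have hr1 : m % n < n := Int.emod_lt_of_pos _ (by omega)
      obtain ⟨k, hk⟩ : ∃ k : ℕ, m % n = k := ⟨(m % n).toNat, by omega⟩
      have hk0 : 0 < k := by omega
      have hkn : k < n := by omega
      obtain ⟨p, hp, h1, h2⟩ := ih k hkn hk0 (-(n : ℤ))
      refine ⟨t ^ (m / n) * s * p, G.mul_mem (G.mul_mem (tk_mem _) s_mem) hp, ?_, ?_⟩
      · change (t ^ (m / n)).1 (s.1 (p.1 ∞)) = _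
        have hn' : (n : ℂ) ≠ 0 := by exact_mod_cast hn.ne'
        have hk' : (k : ℂ) ≠ 0 := by exact_mod_cast hk0.ne'
        rw [h1, s_apply, hS_coe _ (by push_cast; exact div_ne_zero (neg_ne_zero.mpr hn') hk'),
          (tk _).1]
        congr 1
        have h3 : m = n * (m / n) + k := by
          rw [← hk]; exact (Int.mul_ediv_add_emod m n).symm
        have h4 : (m : ℂ) = (n : ℂ) * ((m / n : ℤ) : ℂ) + (k : ℂ) := by
          exact_mod_cast congrArg (fun k : ℤ => (k : ℂ)) h3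
        push_cast
        rw [h4]
        field_simp
        ring
      · change (t ^ (m / n)).2 (s.2 (p.2 e1)) = _
        rw [h2, s_e1, tk_e1]

lemma near_infty {U : Set P1} (hU : IsOpen U) (h : (∞ : P1) ∈ U) :
    ∃ n : ℕ, ∀ w : ℂ, (n : ℝ) ≤ ‖w‖ → (w : P1) ∈ U := by
  have h1 : ∀ᶠ w : ℂ in coclosedCompact ℂ, (w : P1) ∈ U :=
    OnePoint.tendsto_coe_infty.eventually (hU.mem_nhds h)
  rw [Filter.coclosedCompact_eq_cocompact, ← Metric.cobounded_eq_cocompact] at h1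
  rw [← comap_norm_atTop, eventually_comap, eventually_atTop] at h1
  obtain ⟨a, ha⟩ := h1
  obtain ⟨n, hn⟩ := exists_nat_ge a
  exact ⟨n, fun w hw => ha ‖w‖ (hn.trans hw) w rfl⟩

lemma rf4 : r.2 f4 = (0, 0, 1, 0) := by
  simp [r, AR, f4]

/-- small walls near a cusp -/
lemma small_wall {p : PG} (hp : p ∈ G) {U : Set P1} (hU : IsOpen U) (h : p.1 ∞ ∈ U) :
    ∃ f ∈ HH, ∀ z : P1, N f z ≤ 0 → z ∈ U := by
  obtain ⟨n, hn⟩ := near_infty (hU.preimage (cont_G p hp)) h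
  refine ⟨(p * t ^ (n : ℤ) * r).2 f4, ⟨_, G.mul_mem (G.mul_mem hp (tk_mem _)) r_mem, rfl⟩, ?_⟩
  intro z hz
  have e : (p * t ^ (n : ℤ) * r).2 f4 = p.2 (0, 2 * (n : ℤ), 1, 0) := by
    change p.2 ((t ^ (n : ℤ)).2 (r.2 f4)) = _
    rw [rf4, (tk _).2.2]
    simp
  rw [e] at hz
  obtain ⟨w, hw⟩ : ∃ w, p.1 w = z := p.1.surjective z
  rw [← hw, (N_sgn hp _ w).2.1] at hz
  rw [← hw]
  induction w using OnePoint.rec with
  | infty => exact h
  | coe w =>
    apply hn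
    simp [N] at hz
    have : (n : ℝ) ≤ w.re := by linarith
    exact this.trans (Complex.re_le_norm w)

/-! the hyperbolic element -/

noncomputable def g1 : PG := t * s * t ^ (-2 : ℤ) * s * t

lemma g1_mem : g1 ∈ G :=
  G.mul_mem (G.mul_mem (G.mul_mem (G.mul_mem t_mem s_mem) (tk_mem _)) s_mem) t_mem

lemma g1_e1 : g1.2 e1 = e1 := by
  change t.2 (s.2 ((t ^ (-2 : ℤ)).2 (s.2 (t.2 e1)))) = e1
  have ht : t.2 e1 = e1 := by simpa using tk_e1 1
  rw [ht, s_e1, tk_e1, s_e1, ht]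

lemma N_e1_coe (w : ℂ) : N e1 (w : P1) = 2 * w.im := by
  simp [N, e1]

lemma N_e1_infty : N e1 (∞ : P1) = 0 := by
  simp [N, e1]

lemma mem_Up_iff (z : P1) : z ∈ Up ↔ 0 < N e1 z := by
  induction z using OnePoint.rec with
  | infty => rw [N_e1_infty]; simp [infty_notMem_Up]
  | coe w => rw [mem_Up_coe, N_e1_coe]; constructor <;> intro h <;> linarith

lemma mem_Lo_iff (z : P1) : z ∈ Lo ↔ N e1 z < 0 := by
  induction z using OnePoint.rec with
  | infty => rw [N_e1_infty]; simp [infty_notMem_Lo]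
  | coe w => rw [mem_Lo_coe, N_e1_coe]; constructor <;> intro h <;> linarith

lemma Up_g1 (z : P1) : g1.1 z ∈ Up ↔ z ∈ Up := by
  rw [mem_Up_iff, mem_Up_iff]
  have := (N_sgn g1_mem e1 z).2.2.1
  rwa [g1_e1] at this

lemma g1_formula (w : ℂ) (hw : 0 < w.im) :
    g1.1 (w : P1) = (((3 * w + 4) / (2 * w + 3) : ℂ) : P1) := by
  change t.1 (s.1 ((t ^ (-2 : ℤ)).1 (s.1 (t.1 (w : P1))))) = _
  have h1 : w + 1 ≠ 0 := by
    intro h
    have := congrArg Complex.im h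
    simp at this; linarith
  have h2 : 2 * w + 3 ≠ 0 := by
    intro h
    have := congrArg Complex.im h
    simp at this; linarith
  have h3 : -(w + 1)⁻¹ + ((-2 : ℤ) : ℂ) ≠ 0 := by
    intro h
    apply h2
    push_cast at h
    field_simp at h
    linear_combination -h
  rw [t_apply (w : P1), hT_coe, s_apply (((w + 1 : ℂ)) : P1), hS_coe _ h1, (tk _).1, s_apply,
    hS_coe _ h3, t_apply, hT_coe]
  congr 1
  have h4 : -(w + 1)⁻¹ + ((-2 : ℤ) : ℂ) = -(2 * w + 3) / (w + 1) := by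
    push_cast; field_simp; ring
  rw [h4]
  field_simp
  ring

noncomputable def lam : ℝ := (3 + 2 * √2) ^ 2

lemma lam_gt : 1 < lam := by
  have : 0 ≤ √2 := Real.sqrt_nonneg 2
  unfold lam; nlinarith

lemma lam_pos : 0 < lam := lt_trans one_pos lam_gt

/-- the horofunction at `√2` -/
noncomputable def Ff (z : P1) : ℝ :=
  z.elim 0 (fun w => w.im / ((w.re - √2) ^ 2 + w.im ^ 2))

lemma Ff_coe (w : ℂ) : Ff (w : P1) = w.im / ((w.re - √2) ^ 2 + w.im ^ 2) := rfl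

lemma Ff_pos {z : P1} (hz : z ∈ Up) : 0 < Ff z := by
  obtain ⟨w, rfl, hw⟩ := hz
  rw [Ff_coe]
  positivity

lemma Ff_g1 {z : P1} (hz : z ∈ Up) : Ff (g1.1 z) = lam * Ff z := by
  obtain ⟨w, rfl, hw⟩ := hz
  rw [g1_formula w hw, Ff_coe, Ff_coe]
  have hs : √2 ^ 2 = 2 := Real.sq_sqrt (by norm_num)
  have h2 : 2 * w + 3 ≠ 0 := by
    intro h
    have := congrArg Complex.im h
    simp at this; linarith
  set d : ℝ := (2 * w.re + 3) ^ 2 + (2 * w.im) ^ 2 with hd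
  have hdpos : 0 < d := by positivity
  have hre : ((3 * w + 4) / (2 * w + 3)).re =
      ((3 * w.re + 4) * (2 * w.re + 3) + 6 * w.im ^ 2) / d := by
    rw [Complex.div_re, Complex.normSq_apply]
    simp
    have : (2 * w.re + 3) * (2 * w.re + 3) + 2 * w.im * (2 * w.im) = d := by rw [hd]; ring
    rw [this]
    field_simp
    ring
  have him : ((3 * w + 4) / (2 * w + 3)).im = w.im / d := by
    rw [Complex.div_im, Complex.normSq_apply]
    simp
    have : (2 * w.re + 3) * (2 * w.re + 3) + 2 * w.im * (2 * w.im) = d := by rw [hd]; ring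
    rw [this]
    field_simp
    ring
  rw [hre, him]
  have hq : 0 < (w.re - √2) ^ 2 + w.im ^ 2 := by positivity
  have key : (((3 * w.re + 4) * (2 * w.re + 3) + 6 * w.im ^ 2) / d - √2) ^ 2 + (w.im / d) ^ 2 =
      (3 - 2 * √2) ^ 2 * ((w.re - √2) ^ 2 + w.im ^ 2) / d := by
    have hA : (3 * w.re + 4) * (2 * w.re + 3) + 6 * w.im ^ 2 - √2 * d =
        (3 - 2 * √2) * ((w.re - √2) * (2 * w.re + 3) + 2 * w.im ^ 2) := by
      rw [hd]
      linear_combination (-(4 * w.re + 6)) * hs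
    have e1 : ((3 * w.re + 4) * (2 * w.re + 3) + 6 * w.im ^ 2) / d - √2 =
      (3 - 2 * √2) * ((w.re - √2) * (2 * w.re + 3) + 2 * w.im ^ 2) / d := by
      rw [← hA]
      field_simp
    have e3 : w.im ^ 2 = (3 - 2 * √2) ^ 2 * ((3 + 2 * √2) ^ 2 * w.im ^ 2) := by
      have : (3 - 2 * √2) * (3 + 2 * √2) = 1 := by nlinarith
      rw [← mul_assoc, ← mul_pow, this]; ring
    have e4 : ((w.re - √2) * (2 * w.re + 3) + 2 * w.im ^ 2) ^ 2 + (3 + 2 * √2) ^ 2 * w.im ^ 2 =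
      ((w.re - √2) ^ 2 + w.im ^ 2) * ((2 * w.re + 3) ^ 2 + (2 * w.im) ^ 2) := by ring
    have e7 : ((3 - 2 * √2) * ((w.re - √2) * (2 * w.re + 3) + 2 * w.im ^ 2)) ^ 2 + w.im ^ 2 =
        (3 - 2 * √2) ^ 2 * ((w.re - √2) ^ 2 + w.im ^ 2) * d := by
      calc _ = (3 - 2 * √2) ^ 2 * ((w.re - √2) * (2 * w.re + 3) + 2 * w.im ^ 2) ^ 2 +
            (3 - 2 * √2) ^ 2 * ((3 + 2 * √2) ^ 2 * w.im ^ 2) := by rw [← e3]; ring
        _ = (3 - 2 * √2) ^ 2 * (((w.re - √2) * (2 * w.re + 3) + 2 * w.im ^ 2) ^ 2 +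
              (3 + 2 * √2) ^ 2 * w.im ^ 2) := by ring
        _ = _ := by rw [e4, hd]; ring
    rw [e1, div_pow, div_pow, ← add_div, e7]
    field_simp
  rw [key]
  have hm : (3 - 2 * √2) ^ 2 * lam = 1 := by
    unfold lam
    have : (3 - 2 * √2) * (3 + 2 * √2) = 1 := by nlinarith
    rw [← mul_pow, this]; norm_num
  have hm0 : (3 - 2 * √2) ^ 2 ≠ 0 := by
    intro h; rw [h] at hm; simp at hm
  have hl : lam = 1 / (3 - 2 * √2) ^ 2 := by
    rw [eq_div_iff hm0, mul_comm]; exact hm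
  rw [hl]
  field_simp

end Q4.Apo
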