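import Pool.Agent.Q4.Apo.Limit

/-! Orbits accumulate only on the closure of the packing. -/

namespace Q4.Apo

open OnePoint Complex Matrix Filter Topology

lemma det_norm (h : GLZ) : ‖(toC h) 0 0 * (toC h) 1 1 - (toC h) 0 1 * (toC h) 1 0‖ = 1 := by
  have h1 : (toC h) 0 0 * (toC h) 1 1 - (toC h) 0 1 * (toC h) 1 0 =
      GaussianInt.toComplex (h.val.det) := by
    rw [Matrix.det_fin_two, map_sub, map_mul, map_mul]
    rfl
  rw [h1]
  have hu : IsUnit (h.val.det) := by
    have := h.isUnit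
    rwa [Matrix.isUnit_iff_isUnit_det] at this
  obtain ⟨u, hu⟩ := hu
  have h2 : (u : GaussianInt) * ((u⁻¹ : GaussianIntˣ) : GaussianInt) = 1 := u.mul_inv
  have h3 : Zsqrtd.norm (u : GaussianInt) * Zsqrtd.norm ((u⁻¹ : GaussianIntˣ) : GaussianInt) = 1 := by
    rw [← Zsqrtd.norm_mul, h2]; rfl
  have h4 : 0 ≤ Zsqrtd.norm (u : GaussianInt) := GaussianInt.norm_nonneg _
  have h5 : Zsqrtd.norm (u : GaussianInt) = 1 := by
    rcases Int.eq_one_or_neg_one_of_mul_eq_one h3 with h | h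
    · exact h
    · omega
  rw [← hu]
  have h6 : Complex.normSq (GaussianInt.toComplex (u : GaussianInt)) = 1 := by
    rw [← GaussianInt.intCast_real_norm, h5]; simp
  rw [Complex.normSq_eq_norm_sq] at h6
  have h7 := norm_nonneg (GaussianInt.toComplex (u : GaussianInt))
  nlinarith

lemma one_le_norm {x : GaussianInt} (hx : GaussianInt.toComplex x ≠ 0) :
    1 ≤ ‖GaussianInt.toComplex x‖ := by
  have h0 : x ≠ 0 := by rintro rfl; simp at hx
  have h1 : 0 < Zsqrtd.norm x := GaussianInt.norm_pos.mpr h0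
  have h2 : (1 : ℝ) ≤ ((Zsqrtd.norm x : ℤ) : ℝ) := by exact_mod_cast h1
  rw [GaussianInt.intCast_real_norm, Complex.normSq_eq_norm_sq] at h2
  have h3 := norm_nonneg (GaussianInt.toComplex x)
  nlinarith

lemma finite_gauss (R : ℝ) : {x : GaussianInt | ‖GaussianInt.toComplex x‖ ≤ R}.Finite := by
  have hsub : {x : GaussianInt | ‖GaussianInt.toComplex x‖ ≤ R} ⊆
      (fun p : ℤ × ℤ => (⟨p.1, p.2⟩ : GaussianInt)) ''
        (Set.Icc (-⌈R⌉) ⌈R⌉ ×ˢ Set.Icc (-⌈R⌉) ⌈R⌉) := by
    intro x hx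
    refine ⟨(x.re, x.im), ⟨?_, ?_⟩, rfl⟩
    · have h1 : |(GaussianInt.toComplex x).re| ≤ R := (Complex.abs_re_le_norm _).trans hx
      rw [← GaussianInt.intCast_re, abs_le] at h1
      have h2 := Int.le_ceil R
      constructor
      · have : (-(⌈R⌉ : ℝ)) ≤ (x.re : ℝ) := by linarith [h1.1]
        exact_mod_cast this
      · have : (x.re : ℝ) ≤ (⌈R⌉ : ℝ) := by linarith [h1.2]
        exact_mod_cast this
    · have h1 : |(GaussianInt.toComplex x).im| ≤ R := (Complex.abs_im_le_norm _).trans hx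
      rw [← GaussianInt.intCast_im, abs_le] at h1
      have h2 := Int.le_ceil R
      constructor
      · have : (-(⌈R⌉ : ℝ)) ≤ (x.im : ℝ) := by linarith [h1.1]
        exact_mod_cast this
      · have : (x.im : ℝ) ≤ (⌈R⌉ : ℝ) := by linarith [h1.2]
        exact_mod_cast this
  exact (((Set.finite_Icc _ _).prod (Set.finite_Icc _ _)).image _).subset hsub

lemma infty_mem_PP : (∞ : P1) ∈ ⋃₀ PP :=
  ⟨circ e1, PP_e1, by change N e1 ∞ = 0; rw [N_e1_infty]⟩

/-- entries bounded -/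
lemma bound {z x : ℂ} {ε δ : ℝ} (hε : 0 < ε) (hδ : 0 < δ)
    (hz : ∀ w : ℂ, (w : P1) ∈ ⋃₀ PP → ε ≤ ‖w - z‖)
    (hx : ∀ w : ℂ, (w : P1) ∈ ⋃₀ PP → 2 * δ ≤ ‖w - x‖) :
    ∃ R : ℝ, ∀ h : GLZ, toC h ∈ Gam → ∀ v : ℂ, toC h • (z : P1) = (v : P1) → ‖v - x‖ < δ →
      ‖(toC h) 0 0‖ ≤ R ∧ ‖(toC h) 0 1‖ ≤ R ∧ ‖(toC h) 1 0‖ ≤ R ∧ ‖(toC h) 1 1‖ ≤ R := by
  set C0 : ℝ := 1 / (δ * ε) with hC0
  have hC0p : 0 < C0 := by positivity
  set X : ℝ := ‖x‖ + δ with hX
  have hXp : 0 ≤ X := by positivity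
  set Z : ℝ := ‖z‖ with hZ
  have hZp : 0 ≤ Z := norm_nonneg _
  set A : ℝ := C0 * (X + 1 / ε) with hA
  have hAp : 0 ≤ A := by positivity
  set B : ℝ := X / δ + A * Z with hB
  have hBp : 0 ≤ B := by positivity
  set Dd : ℝ := 1 / δ + C0 * Z with hDd
  have hDp : 0 ≤ Dd := by positivity
  refine ⟨1 + C0 + A + B + Dd + (X + Z), ?_⟩
  intro h hG v hv hvx
  have hdet := det_norm h
  set a : ℂ := (toC h) 0 0 with ha
  set b : ℂ := (toC h) 0 1 with hb
  set c : ℂ := (toC h) 1 0 with hc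
  set d : ℂ := (toC h) 1 1 with hd
  have hvX : ‖v‖ ≤ X := by
    have : v = x + (v - x) := by ring
    rw [this]
    exact (norm_add_le _ _).trans (by rw [hX]; linarith)
  have hs := OnePoint.smul_some_eq_ite (g := toC h) (k := z)
  rw [hv] at hs
  have hden : c * z + d ≠ 0 := by
    intro h0
    rw [if_pos h0] at hs
    exact OnePoint.coe_ne_infty _ hs
  rw [if_neg hden] at hs
  have hveq : v = (a * z + b) / (c * z + d) := OnePoint.coe_injective hs
  have hveq' : v * (c * z + d) = a * z + b := by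
    rw [hveq, div_mul_cancel₀ _ hden]
  by_cases hc0 : c = 0
  · have had : ‖a‖ * ‖d‖ = 1 := by
      rw [hc0, mul_zero, sub_zero, norm_mul] at hdet
      exact hdet
    have ha0 : a ≠ 0 := by rintro h0; rw [h0] at had; simp at had
    have hd0 : d ≠ 0 := by rintro h0; rw [h0] at had; simp at had
    have ha1 : 1 ≤ ‖a‖ := one_le_norm ha0
    have hd1 : 1 ≤ ‖d‖ := one_le_norm hd0
    have ha2 : ‖a‖ = 1 := by nlinarith
    have hd2 : ‖d‖ = 1 := by nlinarith
    have hbb : ‖b‖ ≤ X + Z := by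
      have : b = v * d - a * z := by
        rw [hc0, zero_mul, zero_add] at hveq'
        rw [hveq']; ring
      rw [this]
      refine (norm_sub_le _ _).trans ?_
      rw [norm_mul, norm_mul, ha2, hd2]
      linarith
    refine ⟨?_, ?_, ?_, ?_⟩
    · rw [ha2]; linarith
    · linarith
    · rw [hc0, norm_zero]; linarith
    · rw [hd2]; linarith
  · have hc1 : 1 ≤ ‖c‖ := one_le_norm hc0
    -- `a / c` and `- d / c` lie in the packing
    have hP1 : ((a / c : ℂ) : P1) ∈ ⋃₀ PP := by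
      have := (Gam_union hG ∞).mp infty_mem_PP
      rw [OnePoint.smul_infty_eq_ite, if_neg hc0] at this
      exact this
    have hP2 : ((-d / c : ℂ) : P1) ∈ ⋃₀ PP := by
      rw [Gam_union hG, OnePoint.smul_some_eq_ite, if_pos]
      · exact infty_mem_PP
      · change c * (-d / c) + d = 0
        field_simp
        ring
    have h1 := hx _ hP1
    have h2 := hz _ hP2
    have h3 : δ ≤ ‖a / c - v‖ := by
      have : a / c - x = (a / c - v) + (v - x) := by ring
      rw [this] at h1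
      have := norm_add_le (a / c - v) (v - x)
      linarith
    have e1 : (a / c - v) * (c * (c * z + d)) = a * d - b * c := by
      have : (a / c - v) * (c * (c * z + d)) = a * (c * z + d) - c * (v * (c * z + d)) := by
        field_simp
      rw [this, hveq']; ring
    have e2 : ‖a / c - v‖ * (‖c‖ * ‖c * z + d‖) = 1 := by
      rw [← norm_mul, ← norm_mul, e1]; exact hdet
    have e3 : ‖c * z + d‖ = ‖c‖ * ‖-d / c - z‖ := by
      rw [← norm_mul, ← norm_neg]
      congr 1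
      field_simp
      ring
    have h4 : ε * ‖c‖ ≤ ‖c * z + d‖ := by
      rw [e3]; nlinarith
    have hcp : 0 < ‖c‖ := lt_of_lt_of_le one_pos hc1
    have hqp : 0 < ‖c * z + d‖ := norm_pos_iff.mpr hden
    have h5 : δ * (‖c‖ * ‖c * z + d‖) ≤ 1 := by
      rw [← e2]
      exact mul_le_mul_of_nonneg_right h3 (by positivity)
    have h6 : ‖c‖ ≤ C0 := by
      rw [hC0, le_div_iff₀ (by positivity)]
      have : ‖c‖ * (δ * ε) ≤ δ * (‖c‖ * ‖c * z + d‖) := by
        have h7 : ‖c‖ * ε ≤ ‖c‖ * ‖c * z + d‖ := by nlinarith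
        nlinarith
      linarith
    have h7 : ‖c * z + d‖ ≤ 1 / δ := by
      rw [le_div_iff₀ hδ]
      have : ‖c * z + d‖ * δ ≤ δ * (‖c‖ * ‖c * z + d‖) := by
        have := mul_nonneg (mul_nonneg hδ.le hqp.le) (sub_nonneg.mpr hc1)
        nlinarith
      linarith
    have h8 : ‖a / c - v‖ ≤ 1 / ε := by
      rw [le_div_iff₀ hε, ← e2]
      apply mul_le_mul_of_nonneg_left _ (norm_nonneg _)
      nlinarith
    have h9 : ‖a‖ ≤ A := by
      have : a = c * (v + (a / c - v)) := by field_simp; ring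
      rw [this, norm_mul, hA]
      apply mul_le_mul h6 _ (norm_nonneg _) hC0p.le
      exact (norm_add_le _ _).trans (add_le_add hvX h8)
    have h10 : ‖d‖ ≤ Dd := by
      have : d = (c * z + d) - c * z := by ring
      rw [this]
      refine (norm_sub_le _ _).trans ?_
      rw [norm_mul, hDd]
      exact add_le_add h7 (mul_le_mul_of_nonneg_right h6 hZp)
    have h11 : ‖b‖ ≤ B := by
      have : b = v * (c * z + d) - a * z := by rw [hveq']; ring
      rw [this]
      refine (norm_sub_le _ _).trans ?_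
      rw [norm_mul, norm_mul, hB]
      refine add_le_add ?_ (mul_le_mul_of_nonneg_right h9 hZp)
      rw [div_eq_mul_one_div]
      exact mul_le_mul hvX h7 (norm_nonneg _) hXp
    refine ⟨?_, ?_, ?_, ?_⟩ <;> linarith

theorem der_sub {x : P1} (z : P1) (hx : x ∈ derivedSet {w : P1 | ∃ g ∈ Gam, w = g • z}) :
    x ∈ closure (⋃₀ PP) := by
  by_cases hz : z ∈ closure (⋃₀ PP)
  · have hsub : {w : P1 | ∃ g ∈ Gam, w = g • z} ⊆ closure (⋃₀ PP) := by
      rintro w ⟨g, hg, rfl⟩
      have h1 : (fun z : P1 => g • z) '' closure (⋃₀ PP) ⊆ closure (⋃₀ PP) := by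
        refine (image_closure_subset_closure_image (Gam_cont hg)).trans (closure_mono ?_)
        rintro _ ⟨y, hy, rfl⟩
        exact (Gam_union hg y).mp hy
      exact h1 ⟨z, hz, rfl⟩
    have h2 := derivedSet_subset_closure _ hx
    exact (closure_minimal hsub isClosed_closure) h2
  · by_contra hxn
    have hinf : (∞ : P1) ∈ closure (⋃₀ PP) := subset_closure infty_mem_PP
    have hop : IsOpen ((closure (⋃₀ PP))ᶜ : Set P1) := isClosed_closure.isOpen_compl
    obtain ⟨z, rfl⟩ : ∃ z' : ℂ, (z' : P1) = z := by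
      induction z using OnePoint.rec with
      | infty => exact absurd hinf hz
      | coe z => exact ⟨z, rfl⟩
    obtain ⟨x, rfl⟩ : ∃ x' : ℂ, (x' : P1) = x := by
      induction x using OnePoint.rec with
      | infty => exact absurd hinf hxn
      | coe z => exact ⟨z, rfl⟩
    have hop2 : IsOpen ((fun w : ℂ => (w : P1)) ⁻¹' (closure (⋃₀ PP))ᶜ) :=
      hop.preimage OnePoint.continuous_coe
    obtain ⟨ε, hε, hzb⟩ := Metric.isOpen_iff.mp hop2 z hz
    obtain ⟨δ', hδ', hxb⟩ := Metric.isOpen_iff.mp hop2 x hxn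
    have hz' : ∀ w : ℂ, (w : P1) ∈ ⋃₀ PP → ε ≤ ‖w - z‖ := by
      intro w hw
      by_contra hcon
      push Not at hcon
      exact hzb (by rwa [Metric.mem_ball, dist_eq_norm]) (subset_closure hw)
    have hx' : ∀ w : ℂ, (w : P1) ∈ ⋃₀ PP → 2 * (δ' / 2) ≤ ‖w - x‖ := by
      intro w hw
      by_contra hcon
      push Not at hcon
      exact hxb (by rw [Metric.mem_ball, dist_eq_norm]; linarith) (subset_closure hw)
    obtain ⟨R, hR⟩ := bound hε (half_pos hδ') hz' hx'
    set F : Set P1 := {w | (∃ g ∈ Gam, w = g • (z : P1)) ∧ ∃ v : ℂ, (v : P1) = w ∧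
      ‖v - x‖ < δ' / 2} with hF
    have hfin : F.Finite := by
      set Sg := {x : GaussianInt | ‖GaussianInt.toComplex x‖ ≤ R} with hSg
      have hS := finite_gauss R
      have hsub : F ⊆ (fun q : (GaussianInt × GaussianInt) × (GaussianInt × GaussianInt) =>
          (((GaussianInt.toComplex q.1.1 * z + GaussianInt.toComplex q.1.2) /
            (GaussianInt.toComplex q.2.1 * z + GaussianInt.toComplex q.2.2) : ℂ) : P1)) ''
          ((Sg ×ˢ Sg) ×ˢ (Sg ×ˢ Sg)) := by
        rintro w ⟨⟨g, hg, rfl⟩, v, hv, hvx⟩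
        obtain ⟨⟨h, rfl⟩, -⟩ := mem_Gam.mp hg
        obtain ⟨b1, b2, b3, b4⟩ := hR h hg v hv.symm hvx
        refine ⟨((h 0 0, h 0 1), (h 1 0, h 1 1)), ⟨⟨b1, b2⟩, ⟨b3, b4⟩⟩, ?_⟩
        have hs := OnePoint.smul_some_eq_ite (g := toC h) (k := z)
        rw [← hv] at hs ⊢
        split_ifs at hs with h0
        · exact absurd hs (OnePoint.coe_ne_infty v)
        · exact hs.symm
      exact (((hS.prod hS).prod (hS.prod hS)).image _).subset hsub
    rw [mem_derivedSet, accPt_iff_nhds] at hx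
    have hU : ((fun w : ℂ => (w : P1)) '' Metric.ball x (δ' / 2)) ∩ (F \ {(x : P1)})ᶜ ∈
        𝓝 (x : P1) := by
      apply Filter.inter_mem
      · apply IsOpen.mem_nhds
        · exact OnePoint.isOpenEmbedding_coe.isOpenMap _ Metric.isOpen_ball
        · exact ⟨x, Metric.mem_ball_self (half_pos hδ'), rfl⟩
      · apply IsOpen.mem_nhds
        · exact (hfin.subset Set.sdiff_subset).isClosed.isOpen_compl
        · intro h; exact h.2 rfl
    obtain ⟨y, ⟨⟨⟨v, hv, hvy⟩, hy2⟩, hy3⟩, hyx⟩ := hx _ hU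
    apply hy2
    refine ⟨⟨hy3, v, hvy, ?_⟩, hyx⟩
    rwa [Metric.mem_ball, dist_eq_norm] at hv

end Q4.Apo
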