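import Pool.Agent.Q4.Apo.Circ
import Pool.Agent.Q4.Apo.Disc

/-! The orbit of `Cs` is neither closed nor dense; `Cs` separates the limit set. -/

namespace Q4.Apo

open OnePoint Complex Matrix Filter Topology

lemma Gam_Cs {g : GLC} (hg : g ∈ Gam) {z : P1} (hz : z ∈ Cs) : g • z ∉ Lo := by
  obtain ⟨-, w, hw, h⟩ := mem_Gam.mp hg
  have := W_Cs hw hz
  rw [h] at this
  exact this

lemma infty_notMem_img {g : GLC} (hg : g ∈ Gam) : (∞ : P1) ∉ (fun w : OnePoint ℂ => g • w) '' Cs := by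
  rintro ⟨c, hc, h⟩
  obtain ⟨-, w, hw, hwg⟩ := mem_Gam.mp (Gam.inv_mem hg)
  have h1 := cusp_notMem_C (W_le hw)
  apply h1
  rw [hwg]
  change g⁻¹ • (∞ : P1) ∈ Cs
  rw [← h]
  simpa using hc

theorem not_closed : ¬ IsClosed {h : Matrix.GeneralLinearGroup (Fin 2) ℂ | ∃ γ ∈ Gam,
      (fun w : OnePoint ℂ => h • w) '' (insert (OnePoint.infty : OnePoint ℂ) (Set.range (fun x : ℝ => OnePoint.some (x : ℂ)))) = (fun w : OnePoint ℂ => γ • w) '' Cs} := by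
  intro hcl
  have hlim : Tendsto (fun n : ℕ => ht (lam ^ (-(n : ℤ)))) atTop (𝓝 (ht 0)) := by
    apply (ht_cont.tendsto 0).comp
    have := tendsto_pow_atTop_nhds_zero_of_lt_one (inv_nonneg.mpr lam_pos.le)
        (inv_lt_one_of_one_lt₀ lam_gt)
    refine this.congr (fun n => ?_)
    rw [_root_.zpow_neg, zpow_natCast, inv_pow]
  rw [ht_zero] at hlim
  have hmem := hcl.mem_of_tendsto hlim (Eventually.of_forall (fun n => by
    obtain ⟨g, hg, hgw⟩ := conj_mem_Gam W.one_mem (-(n : ℤ))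
    refine ⟨g, hg, ?_⟩
    rw [← img_g1]
    have e : (1 * g1 ^ (-(n : ℤ)) * 1⁻¹ : PG).1 = (g1 ^ (-(n : ℤ))).1 := by
      rw [one_mul, inv_one, mul_one]
    rw [e] at hgw
    rw [← hgw]
    rfl))
  obtain ⟨γ, hγ, h⟩ := hmem
  apply infty_notMem_img hγ
  rw [← h]
  exact ⟨∞, Or.inl rfl, by simp⟩

noncomputable def hI : GLC := ⟨!![I, 0; 0, 1], !![-I, 0; 0, 1], by
  apply Matrix.ext; intro i j; fin_cases i <;> fin_cases j <;>
    simp [Matrix.mul_apply, Fin.sum_univ_two], by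
  apply Matrix.ext; intro i j; fin_cases i <;> fin_cases j <;>
    simp [Matrix.mul_apply, Fin.sum_univ_two]⟩

theorem not_dense : ¬ (∀ h : Matrix.GeneralLinearGroup (Fin 2) ℂ,
     ((fun w : OnePoint ℂ => h • w) '' (insert (OnePoint.infty : OnePoint ℂ) (Set.range (fun x : ℝ => OnePoint.some (x : ℂ)))) ∩ closure (⋃₀ PP)).Nonempty →
     h ∈ closure {h' : Matrix.GeneralLinearGroup (Fin 2) ℂ | ∃ γ ∈ Gam,
       (fun w : OnePoint ℂ => h' • w) '' (insert (OnePoint.infty : OnePoint ℂ) (Set.range (fun x : ℝ => OnePoint.some (x : ℂ)))) = (fun w : OnePoint ℂ => γ • w) '' Cs}) := by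
  intro hd
  have h0 : hI • (∞ : P1) = ∞ := by
    rw [OnePoint.smul_infty_eq_ite, if_pos]
    simp [hI]
  have h1 := hd hI ⟨∞, ⟨∞, Or.inl rfl, h0⟩, subset_closure infty_mem_PP⟩
  set O : Set GLC := {m | ((m 0 1 - m 0 0) * (starRingEnd ℂ) (m 1 1 - m 1 0)).im < 0} with hO
  have hOo : IsOpen O := by
    have hc : ∀ i j : Fin 2, Continuous (fun m : GLC => m i j) := by
      intro i j
      exact (Units.continuous_val (M := Matrix (Fin 2) (Fin 2) ℂ)).matrix_elem i j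
    apply isOpen_lt _ continuous_const
    apply Complex.continuous_im.comp
    apply Continuous.mul ((hc 0 1).sub (hc 0 0))
    exact Complex.continuous_conj.comp ((hc 1 1).sub (hc 1 0))
  have hIO : hI ∈ O := by
    simp [hO, hI]
  obtain ⟨m, hmO, γ, hγ, hm⟩ := mem_closure_iff.mp h1 O hOo hIO
  have hpt : m • ((((-1 : ℝ) : ℂ)) : P1) ∈ (fun w : OnePoint ℂ => m • w) '' Rhat :=
    ⟨_, Or.inr ⟨-1, rfl⟩, rfl⟩
  rw [hm] at hpt
  obtain ⟨c, hc, hcm⟩ := hpt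
  apply Gam_Cs hγ hc
  have hcm' : γ • c = m • ((((-1 : ℝ) : ℂ)) : P1) := hcm
  rw [hcm', OnePoint.smul_some_eq_ite]
  have hmO' : ((m 0 1 - m 0 0) * (starRingEnd ℂ) (m 1 1 - m 1 0)).im < 0 := hmO
  have hne : m 1 0 * ((-1 : ℝ) : ℂ) + m 1 1 ≠ 0 := by
    intro h
    have : m 1 1 - m 1 0 = 0 := by
      rw [← h]; push_cast; ring
    rw [this] at hmO'
    simp at hmO'
  rw [if_neg hne, mem_Lo_coe]
  have e1 : m 1 0 * ((-1 : ℝ) : ℂ) + m 1 1 = m 1 1 - m 1 0 := by push_cast; ring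
  have e2 : m 0 0 * ((-1 : ℝ) : ℂ) + m 0 1 = m 0 1 - m 0 0 := by push_cast; ring
  rw [e1] at hne
  rw [e1, e2, Complex.div_im]
  have hc : 0 < Complex.normSq (m 1 1 - m 1 0) := Complex.normSq_pos.mpr hne
  rw [← sub_div]
  apply div_neg_of_neg_of_pos _ hc
  rw [Complex.mul_im, Complex.conj_re, Complex.conj_im] at hmO'
  linarith

lemma half_up (z : P1) (hz : 0 < N e1 z) : z ∈ OnePoint.some '' {z : ℂ | 0 < z.im} := by
  obtain ⟨w, rfl, hw⟩ := (mem_Up_iff z).mpr hz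
  exact ⟨w, hw, rfl⟩

lemma half_low (z : P1) (hz : N e1 z < 0) : z ∈ OnePoint.some '' {z : ℂ | z.im < 0} := by
  obtain ⟨w, rfl, hw⟩ := (mem_Lo_iff z).mpr hz
  exact ⟨w, hw, rfl⟩

theorem sep_up : ((fun w : OnePoint ℂ => ht 1 • w) '' (OnePoint.some '' {z : ℂ | 0 < z.im}) ∩
    closure (⋃₀ PP)).Nonempty := by
  set P : P1 := (((⟨3 / 2, 1 / 2⟩ : ℂ)) : P1) with hP
  refine ⟨P, ⟨ht (-1) • P, half_up _ ?_, ?_⟩, subset_closure ⟨circ e4, PP_e4, ?_⟩⟩
  · obtain ⟨ρ, h0, h⟩ := ht_sgn 1 (⟨3 / 2, 1 / 2⟩ : ℂ)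
    have hs : √2 ^ 2 = 2 := Real.sq_sqrt (by norm_num)
    have hs0 : 0 ≤ √2 := Real.sqrt_nonneg 2
    have : 0 < ρ * N e1 (ht (-1) • P) := by
      rw [hP, h]
      simp only
      nlinarith
    by_contra hcon
    push Not at hcon
    nlinarith
  · simp [← ht_inv]
  · change N e4 P = 0
    rw [hP]
    simp [N, e4]
    norm_num

theorem sep_low : ((fun w : OnePoint ℂ => ht 1 • w) '' (OnePoint.some '' {z : ℂ | z.im < 0}) ∩
    closure (⋃₀ PP)).Nonempty := by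
  set P : P1 := ((0 : ℂ) : P1) with hP
  refine ⟨P, ⟨ht (-1) • P, half_low _ ?_, ?_⟩, subset_closure ⟨circ e1, PP_e1, ?_⟩⟩
  · obtain ⟨ρ, h0, h⟩ := ht_sgn 1 (0 : ℂ)
    have hs : √2 ^ 2 = 2 := Real.sq_sqrt (by norm_num)
    have : ρ * N e1 (ht (-1) • P) < 0 := by
      rw [hP, h]
      simp
    by_contra hcon
    push Not at hcon
    nlinarith
  · simp [← ht_inv]
  · change N e1 P = 0
    rw [hP, N_e1_coe]; simp

end Q4.Apo
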