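import Pool.Agent.Q4.Apo.PP

/-! Every wall disk contains an image of `K` under the group `W`. -/

namespace Q4.Apo

open OnePoint Complex Matrix Filter Topology

lemma KD_b {f : ZV} (hf : f ∈ HH) (h : KD f) : 1 ≤ f.1 := by
  have h0 : 0 ≤ f.1 := by
    have := h ∞ infty_mem_K
    rw [N_inf] at this
    exact_mod_cast this
  by_contra hc
  have hb : f.1 = 0 := by omega
  obtain ⟨-, -, -, hy, hn⟩ := HH_wall hf
  simp only [D, hb] at hn
  have hxy : f.2.2.1 ^ 2 + f.2.2.2 ^ 2 = 1 := by nlinarith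
  have hy0 : f.2.2.2 = 0 := by
    obtain ⟨k, hk⟩ := hy
    by_contra hne
    have : k ≠ 0 := by rintro rfl; simp at hk; exact hne hk
    have h1 : 1 ≤ k ^ 2 := by
      rcases lt_or_gt_of_ne this with h | h <;> nlinarith
    rw [hk] at hxy
    nlinarith [sq_nonneg f.2.2.1]
  rw [hy0] at hxy
  have hx2 : f.2.2.1 ^ 2 = 1 := by linarith
  have hw := h (((⟨f.2.2.1 * (|(f.2.1 : ℝ)| + 1), -1⟩ : ℂ)) : P1)
    (Lo_sub_K ((mem_Lo_coe _).mpr (by simp)))
  simp only [N, Nr_coe, hb, hy0] at hw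
  push_cast at hw
  have hx2' : (f.2.2.1 : ℝ) ^ 2 = 1 := by exact_mod_cast hx2
  have e : (f.2.2.1 : ℝ) * ((f.2.2.1 : ℝ) * (|(f.2.1 : ℝ)| + 1)) = |(f.2.1 : ℝ)| + 1 := by
    rw [← mul_assoc, ← pow_two, hx2', one_mul]
  rw [e] at hw
  have := le_abs_self (f.2.1 : ℝ)
  have := abs_nonneg (f.2.1 : ℝ)
  linarith

lemma sub_b {f g : ZV} (hf : f ∈ HH) (hg : g ∈ HH) (bf : 1 ≤ f.1) (bg : 1 ≤ g.1)
    (h : ∀ z, N f z < 0 → N g z < 0) : g.1 ≤ f.1 ∧ (g.1 = f.1 → g = f) := by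
  have nf := norm_real (HH_wall hf).2.2.2.2
  have ng := norm_real (HH_wall hg).2.2.2.2
  have bf' : (1 : ℝ) ≤ (f.1 : ℝ) := by exact_mod_cast bf
  have bg' : (1 : ℝ) ≤ (g.1 : ℝ) := by exact_mod_cast bg
  obtain ⟨b, hb⟩ : ∃ b : ℝ, b = (f.1 : ℝ) := ⟨_, rfl⟩
  obtain ⟨c, hc⟩ : ∃ b : ℝ, b = (f.2.1 : ℝ) := ⟨_, rfl⟩
  obtain ⟨x, hx⟩ : ∃ b : ℝ, b = (f.2.2.1 : ℝ) := ⟨_, rfl⟩
  obtain ⟨y, hy⟩ : ∃ b : ℝ, b = (f.2.2.2 : ℝ) := ⟨_, rfl⟩
  obtain ⟨b', hb'⟩ : ∃ b : ℝ, b = (g.1 : ℝ) := ⟨_, rfl⟩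
  obtain ⟨c', hc'⟩ : ∃ b : ℝ, b = (g.2.1 : ℝ) := ⟨_, rfl⟩
  obtain ⟨x', hx'⟩ : ∃ b : ℝ, b = (g.2.2.1 : ℝ) := ⟨_, rfl⟩
  obtain ⟨y', hy'⟩ : ∃ b : ℝ, b = (g.2.2.2 : ℝ) := ⟨_, rfl⟩
  rw [← hb, ← hc, ← hx, ← hy] at nf
  rw [← hb', ← hc', ← hx', ← hy'] at ng
  rw [← hb] at bf'
  rw [← hb'] at bg'
  have hpt : ∀ τ : ℝ, τ ^ 2 < 1 →
      (b' * x - x' * b + b' * τ) ^ 2 + (b' * y - y' * b) ^ 2 < b ^ 2 := by
    intro τ hτ
    have h1 := h (((⟨(x + τ) / b, y / b⟩ : ℂ)) : P1)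
    simp only [N, Nr_coe, ← hb, ← hc, ← hx, ← hy, ← hb', ← hc', ← hx', ← hy'] at h1
    have e1 : b * (((x + τ) / b) ^ 2 + (y / b) ^ 2) - 2 * (x * ((x + τ) / b) + y * (y / b)) + c =
        (τ ^ 2 - 1) / b := by
      field_simp
      linear_combination -nf
    have e2 : b' * (((x + τ) / b) ^ 2 + (y / b) ^ 2) - 2 * (x' * ((x + τ) / b) + y' * (y / b)) + c' =
        ((b' * x - x' * b + b' * τ) ^ 2 + (b' * y - y' * b) ^ 2 - b ^ 2) / (b' * b ^ 2) := by
      field_simp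
      linear_combination (-b ^ 2) * ng
    rw [e1, e2] at h1
    have h2 := h1 (div_neg_of_neg_of_pos (by linarith) (by linarith))
    have h3 : 0 < b' * b ^ 2 := by positivity
    rw [div_neg_iff] at h2
    rcases h2 with h2 | h2
    · linarith [h2.2]
    · linarith [h2.1]
  have hsum : ∀ τ : ℝ, τ ^ 2 < 1 →
      (b' * x - x' * b) ^ 2 + (b' * y - y' * b) ^ 2 + b' ^ 2 * τ ^ 2 < b ^ 2 := by
    intro τ hτ
    have h1 := hpt τ hτ
    have h2 := hpt (-τ) (by rwa [neg_sq])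
    nlinarith
  have hlim : (b' * x - x' * b) ^ 2 + (b' * y - y' * b) ^ 2 + b' ^ 2 ≤ b ^ 2 := by
    by_contra hcon
    push Not at hcon
    set P := (b' * x - x' * b) ^ 2 + (b' * y - y' * b) ^ 2 with hP
    have hP0 : 0 ≤ P := by positivity
    -- pick τ with b'^2 τ^2 = max 0 (b^2 - P) 
    have h0 := hsum 0 (by norm_num)
    have hτ2 : (b ^ 2 - P) / b' ^ 2 < 1 := by
      rw [div_lt_one (by positivity)]; linarith
    have hτ0 : 0 ≤ (b ^ 2 - P) / b' ^ 2 := div_nonneg (by nlinarith) (by positivity)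
    have h1 := hsum (Real.sqrt ((b ^ 2 - P) / b' ^ 2)) (by rwa [Real.sq_sqrt hτ0])
    rw [Real.sq_sqrt hτ0] at h1
    have e : b' ^ 2 * ((b ^ 2 - P) / b' ^ 2) = b ^ 2 - P := by field_simp
    rw [e] at h1
    linarith
  have hle : b' ≤ b := by
    nlinarith [sq_nonneg (b' * x - x' * b), sq_nonneg (b' * y - y' * b)]
  constructor
  · rw [hb, hb'] at hle
    exact_mod_cast hle
  · intro heq
    have heq' : b' = b := by rw [hb, hb', heq]
    rw [heq'] at hlim ng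
    have hx0 : (b * x - x' * b) ^ 2 + (b * y - y' * b) ^ 2 ≤ 0 := by linarith
    have h1 : b * x - x' * b = 0 := by
      nlinarith [sq_nonneg (b * x - x' * b), sq_nonneg (b * y - y' * b)]
    have h2 : b * y - y' * b = 0 := by
      nlinarith [sq_nonneg (b * x - x' * b), sq_nonneg (b * y - y' * b)]
    have hb0 : b ≠ 0 := by linarith
    have h3 : x' = x := by
      have : b * (x' - x) = 0 := by linarith
      rcases mul_eq_zero.mp this with h | h
      · exact absurd h hb0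
      · linarith
    have h4 : y' = y := by
      have : b * (y' - y) = 0 := by linarith
      rcases mul_eq_zero.mp this with h | h
      · exact absurd h hb0
      · linarith
    have h5 : c' = c := by
      rw [h3, h4] at ng
      have : b * (c' - c) = 0 := by linarith
      rcases mul_eq_zero.mp this with h | h
      · exact absurd h hb0
      · linarith
    rw [hx, hx'] at h3
    rw [hy, hy'] at h4
    rw [hc, hc'] at h5
    have h3' : g.2.2.1 = f.2.2.1 := by exact_mod_cast h3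
    have h4' : g.2.2.2 = f.2.2.2 := by exact_mod_cast h4
    have h5' : g.2.1 = f.2.1 := by exact_mod_cast h5
    exact Prod.ext heq (Prod.ext h5' (Prod.ext h3' h4'))

/-- maximal walls missing `K` exist. -/
lemma cover {f : ZV} (hf : f ∈ HH) (h : KD f) : ∃ g ∈ EE, ∀ z, N f z < 0 → N g z < 0 := by
  classical
  have hex : ∃ n : ℕ, ∃ g ∈ HH, KD g ∧ (∀ z, N f z < 0 → N g z < 0) ∧ g.1 = n :=
    ⟨f.1.toNat, f, hf, h, fun _ h => h, by have := KD_b hf h; omega⟩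
  obtain ⟨g, hg, hgK, hsub, hn⟩ := Nat.find_spec hex
  refine ⟨g, ⟨hg, hgK, ?_⟩, hsub⟩
  intro g' hg' hgK' hsub'
  have b1 := KD_b hg hgK
  have b2 := KD_b hg' hgK'
  obtain ⟨h1, h2⟩ := sub_b hg hg' b1 b2 hsub'
  apply h2
  have h3 : Nat.find hex ≤ g'.1.toNat :=
    Nat.find_min' hex ⟨g', hg', hgK', fun z hz => hsub' z (hsub z hz), by omega⟩
  omega

lemma f4_pt (w : ℂ) : N f4 (w : P1) = 2 * w.re := by
  simp [N, f4]

lemma HH_ne {f : ZV} (hf : f ∈ HH) : ∃ z, N f z < 0 := by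
  obtain ⟨p, hp, rfl⟩ := hf
  refine ⟨p.1 (((-1 : ℂ)) : P1), (N_sgn hp f4 _).1.mpr ?_⟩
  rw [f4_pt]; simp

lemma HH_open {f : ZV} (hf : f ∈ HH) : IsOpen {z | N f z < 0} := by
  obtain ⟨p, hp, rfl⟩ := hf
  have h0 : IsOpen {z | N f4 z < 0} := by
    have : {z | N f4 z < 0} = (fun w : ℂ => (w : P1)) '' {w | w.re < 0} := by
      ext z
      constructor
      · intro hz
        induction z using OnePoint.rec with
        | infty =>
          have h : N f4 (∞ : P1) < 0 := hz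
          rw [N_inf] at h
          simp [f4] at h
        | coe w =>
          have h : N f4 (w : P1) < 0 := hz
          rw [f4_pt] at h
          exact ⟨w, by change w.re < 0; linarith, rfl⟩
      · rintro ⟨w, hw, rfl⟩
        change N f4 (w : P1) < 0
        rw [f4_pt]
        have : w.re < 0 := hw
        linarith
    rw [this]
    exact OnePoint.isOpenEmbedding_coe.isOpenMap _ (isOpen_lt Complex.continuous_re continuous_const)
  have h1 : {z | N (p.2 f4) z < 0} = (p⁻¹).1 ⁻¹' {z | N f4 z < 0} := by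
    ext z
    change N (p.2 f4) z < 0 ↔ N f4 (p⁻¹.1 z) < 0
    have := (N_sgn hp f4 (p⁻¹.1 z)).1
    rwa [inv1'] at this
  rw [h1]
  exact h0.preimage (cont_G _ (G.inv_mem hp))

lemma cuspA (k : ℤ) : (t ^ (-k) * s).1 ∞ = (((-k : ℂ)) : P1) := by
  rw [mul1, s_apply, hS_infty, (tk _).1]
  congr 1
  push_cast; ring

lemma cuspB (k : ℤ) : (r * (t ^ k * s)).1 ∞ = (((I - k : ℂ)) : P1) := by
  rw [mul1, mul1, s_apply, hS_infty, (tk _).1, r_apply, hR_coe]
  congr 1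
  ring

/-- every wall disk contains a cusp in the upper half plane -/
lemma cusp_in {f : ZV} (hf : f ∈ HH) : ∃ q ∈ G, N f (q.1 ∞) < 0 ∧ q.1 ∞ ∈ Up := by
  obtain ⟨p, hp, rfl⟩ := hf
  by_contra hcon
  push Not at hcon
  have key : ∀ q ∈ G, N f4 (q.1 ∞) < 0 → N (p⁻¹.2 e1) (q.1 ∞) = 0 := by
    intro q hq h
    have h1 := hcon (p * q) (G.mul_mem hp hq) (by rw [mul1]; exact (N_sgn hp f4 _).1.mpr h)
    have h2 := cusp_notMem_Lo (G.mul_mem hp hq)
    rw [mem_Up_iff] at h1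
    rw [mem_Lo_iff] at h2
    have h3 : N e1 ((p * q).1 ∞) = 0 := le_antisymm (not_lt.mp h1) (not_lt.mp h2)
    have h4 := (N_sgn (G.inv_mem hp) e1 ((p * q).1 ∞)).2.2.2.2.mpr h3
    rwa [mul1, inv1] at h4
  have kA : ∀ k : ℤ, 1 ≤ k → N (p⁻¹.2 e1) (((-k : ℂ)) : P1) = 0 := by
    intro k hk
    rw [← cuspA k]
    apply key _ (G.mul_mem (tk_mem _) s_mem)
    rw [cuspA, f4_pt]
    simp
    exact_mod_cast (by omega : 0 < k)
  have kB : ∀ k : ℤ, 1 ≤ k → N (p⁻¹.2 e1) (((I - k : ℂ)) : P1) = 0 := by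
    intro k hk
    rw [← cuspB k]
    apply key _ (G.mul_mem r_mem (G.mul_mem (tk_mem _) s_mem))
    rw [cuspB, f4_pt]
    simp
    exact_mod_cast (by omega : 0 < k)
  have hn := norm_real (f := p⁻¹.2 e1) (by rw [D_inv _ (G.inv_mem hp), D_e1])
  obtain ⟨b, hb⟩ : ∃ b : ℝ, b = ((p⁻¹.2 e1).1 : ℝ) := ⟨_, rfl⟩
  obtain ⟨c, hc⟩ : ∃ b : ℝ, b = ((p⁻¹.2 e1).2.1 : ℝ) := ⟨_, rfl⟩
  obtain ⟨x, hx⟩ : ∃ b : ℝ, b = ((p⁻¹.2 e1).2.2.1 : ℝ) := ⟨_, rfl⟩
  obtain ⟨y, hy⟩ : ∃ b : ℝ, b = ((p⁻¹.2 e1).2.2.2 : ℝ) := ⟨_, rfl⟩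
  rw [← hb, ← hc, ← hx, ← hy] at hn
  have a1 := kA 1 (by norm_num)
  have a2 := kA 2 (by norm_num)
  have a3 := kA 3 (by norm_num)
  have b1 := kB 1 (by norm_num)
  simp only [N, Nr_coe, ← hb, ← hc, ← hx, ← hy] at a1 a2 a3 b1
  simp at a1 a2 a3 b1
  have hb0 : b = 0 := by linarith
  have hx0 : x = 0 := by rw [hb0] at a1 a2; linarith
  have hc0 : c = 0 := by rw [hb0, hx0] at a1; linarith
  have hy0 : y = 0 := by rw [hb0, hx0, hc0] at b1; linarith
  rw [hb0, hx0, hc0, hy0] at hn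
  norm_num at hn

lemma dense_free {f : ZV} (hf : f ∈ HH) :
    ∃ g ∈ HH, ∀ z, N g z ≤ 0 → N f z < 0 ∧ z ∉ K := by
  obtain ⟨q, hq, h1, h2⟩ := cusp_in hf
  have h3 := cusp_notMem_K hq h2
  obtain ⟨g, hg, h⟩ := small_wall hq (U := {z | N f z < 0} ∩ Kᶜ)
    ((HH_open hf).inter K_closed.isOpen_compl) ⟨h1, h3⟩
  exact ⟨g, hg, fun z hz => h z hz⟩

lemma full1 {f : ZV} (hf : f ∈ HH) (hK : ¬ KD f) : ∃ w ∈ W, ∀ z ∈ K, N f (w.1 z) ≤ 0 := by
  obtain ⟨f', hf', h⟩ := dense_free hf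
  have hKD' : KD f' := by
    intro z hz
    by_contra hc
    push Not at hc
    exact (h z hc.le).2 hz
  obtain ⟨g, hg, hsub⟩ := cover hf' hKD'
  obtain ⟨z0, hz0⟩ := HH_ne hf'
  have hz1 := (h z0 hz0.le).1
  have hz2 := hsub z0 hz0
  have wf := HH_wall hf
  have wg := HH_wall hg.1
  rcases D_odd wf wg with hD | hD
  · have hD' : (2 : ℝ) ≤ (D f g : ℝ) := by exact_mod_cast hD
    rcases tri wf wg with ht | ht
    · refine ⟨Rf g, Rf_mem_W hg, fun z hz => ?_⟩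
      have h1 := Rf_disk hg.1 (hg.2.1 z hz)
      have h2 := ht ((Rf g).1 z)
      by_contra hc
      push Not at hc
      nlinarith
    · exfalso
      apply hK
      intro z hz
      have h1 := hg.2.1 z hz
      have h2 := ht z
      by_contra hc
      push Not at hc
      nlinarith
  · have hD' : (D f g : ℝ) ≤ -2 := by exact_mod_cast hD
    rcases tri wf wg with ht | ht
    · exfalso
      have h2 := ht z0
      nlinarith
    · refine ⟨1, W.one_mem, fun z hz => ?_⟩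
      have h1 := hg.2.1 z hz
      have h2 := ht z
      change N f z ≤ 0
      by_contra hc
      push Not at hc
      nlinarith

lemma full2 : ∀ n : ℕ, ∀ f ∈ HH, KD f → f.1.toNat = n → ∃ w ∈ W, ∀ z ∈ K, N f (w.1 z) ≤ 0 := by
  intro n
  induction n using Nat.strong_induction_on with
  | _ n ih =>
    intro f hf hK hn
    obtain ⟨g, hg, hsub⟩ := cover hf hK
    by_cases hfg : f = g
    · subst hfg
      exact ⟨Rf f, Rf_mem_W hg, fun z hz => Rf_disk hf (hK z hz)⟩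
    · have wf := HH_wall hf
      have wg := HH_wall hg.1
      have hD : 2 ≤ D f g := by
        rcases D_odd wf wg with hD | hD
        · exact hD
        · exfalso
          have hD' : (D f g : ℝ) ≤ -2 := by exact_mod_cast hD
          rcases tri wf wg with ht | ht
          · obtain ⟨z0, hz0⟩ := HH_ne hf
            have h1 := hsub z0 hz0
            have h2 := ht z0
            nlinarith
          · obtain ⟨z, hz⟩ := low_pt
            have h1 := KD_Lo hf hK z hz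
            have h2 := hg.2.1 z (Lo_sub_K hz)
            have := ht z
            nlinarith
      have bg := KD_b hg.1 hg.2.1
      have bf := KD_b hf hK
      set f1 := (Rf g).2 f with hf1
      have e1 : f1.1 = f.1 - D f g * g.1 := by
        rw [hf1, Rf_eq hg.1]; simp
      have hlt : f1.1 < f.1 := by rw [e1]; nlinarith
      have hf1H : f1 ∈ HH := HH_act (Rf_mem g) hf
      have hw1 : ∃ w ∈ W, ∀ z ∈ K, N f1 (w.1 z) ≤ 0 := by
        by_cases hK1 : KD f1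
        · have b1 := KD_b hf1H hK1
          exact ih f1.1.toNat (by omega) f1 hf1H hK1 rfl
        · exact full1 hf1H hK1
      obtain ⟨w, hw, hwK⟩ := hw1
      refine ⟨Rf g * w, W.mul_mem (Rf_mem_W hg) hw, fun z hz => ?_⟩
      have e2 : (Rf g).2 f1 = f := by
        rw [hf1, ← mul2, Rf_sq hg.1]; rfl
      rw [mul1]
      have := (N_sgn (Rf_mem g) f1 (w.1 z)).2.1
      rw [e2] at this
      exact this.mpr (hwK z hz)

/-- every wall disk contains an image of `K`. -/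
theorem full {f : ZV} (hf : f ∈ HH) : ∃ w ∈ W, ∀ z ∈ K, N f (w.1 z) ≤ 0 := by
  by_cases h : KD f
  · exact full2 _ f hf h rfl
  · exact full1 hf h

end Q4.Apo
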