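import Pool.Agent.Q4.Apo.Basic

/-! Walls: parity, the trichotomy for two walls, reflections, and canonicity. -/

namespace Q4.Apo

open OnePoint Complex Matrix

/-- integer vectors of the parity type of the dual circles -/
def Wall (f : ZV) : Prop :=
  (2 : ℤ) ∣ f.1 ∧ (2 : ℤ) ∣ f.2.1 ∧ ¬ (2 : ℤ) ∣ f.2.2.1 ∧ (2 : ℤ) ∣ f.2.2.2 ∧ D f f = 2

lemma Wall_T (f : ZV) : Wall (AT f) ↔ Wall f := by
  obtain ⟨b, c, x, y⟩ := f
  simp only [Wall, AT, D, LinearEquiv.coe_mk, LinearMap.coe_mk, AddHom.coe_mk]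
  constructor
  · rintro ⟨h1, h2, h3, h4, h5⟩
    exact ⟨h1, by omega, by omega, h4, by linarith [h5]⟩
  · rintro ⟨h1, h2, h3, h4, h5⟩
    exact ⟨h1, by omega, by omega, h4, by linarith [h5]⟩

lemma Wall_S (f : ZV) : Wall (AS f) ↔ Wall f := by
  obtain ⟨b, c, x, y⟩ := f
  simp only [Wall, AS, D, LinearEquiv.coe_mk, LinearMap.coe_mk, AddHom.coe_mk]
  constructor
  · rintro ⟨h1, h2, h3, h4, h5⟩
    exact ⟨h2, h1, by omega, h4, by linarith [h5]⟩
  · rintro ⟨h1, h2, h3, h4, h5⟩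
    exact ⟨h2, h1, by omega, h4, by linarith [h5]⟩

lemma Wall_R (f : ZV) : Wall (AR f) ↔ Wall f := by
  obtain ⟨b, c, x, y⟩ := f
  simp only [Wall, AR, D, LinearEquiv.coe_mk, LinearMap.coe_mk, AddHom.coe_mk]
  constructor
  · rintro ⟨h1, h2, h3, h4, h5⟩
    exact ⟨h1, by omega, by omega, by omega, by linarith [h5]⟩
  · rintro ⟨h1, h2, h3, h4, h5⟩
    exact ⟨h1, by omega, by omega, by omega, by linarith [h5]⟩

lemma Wall_sig (f : ZV) : Wall (Asig f) ↔ Wall f := by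
  obtain ⟨b, c, x, y⟩ := f
  simp only [Wall, Asig, D, LinearEquiv.coe_mk, LinearMap.coe_mk, AddHom.coe_mk]
  constructor
  · rintro ⟨h1, h2, h3, h4, h5⟩
    exact ⟨h1, h2, by omega, h4, by linarith [h5]⟩
  · rintro ⟨h1, h2, h3, h4, h5⟩
    exact ⟨h1, h2, by omega, h4, by linarith [h5]⟩

lemma Wall_inv : ∀ p ∈ G, ∀ f : ZV, Wall (p.2 f) ↔ Wall f := by
  apply G_ind
  · intro f; rfl
  · exact Wall_T
  · exact Wall_S
  · exact Wall_R
  · exact Wall_sig
  · intro p q hp hq f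
    exact (hp (q.2 f)).trans (hq f)
  · intro p hp f
    have := hp (p.2⁻¹ f)
    have e1 : ∀ f, p.2 (p.2⁻¹ f) = f := fun f => p.2.apply_symm_apply f
    rw [e1] at this
    exact this.symm

def f4 : ZV := (0, 0, -1, 0)

/-- the walls of the packing -/
def HH : Set ZV := {f | ∃ p ∈ G, p.2 f4 = f}

lemma f4_wall : Wall f4 := by
  refine ⟨by simp [f4], by simp [f4], by simp [f4], by simp [f4], by simp [f4, D]⟩

lemma HH_wall {f : ZV} (hf : f ∈ HH) : Wall f := by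
  obtain ⟨p, hp, rfl⟩ := hf
  exact (Wall_inv p hp f4).mpr f4_wall

lemma HH_act {p : PG} (hp : p ∈ G) {f : ZV} (hf : f ∈ HH) : p.2 f ∈ HH := by
  obtain ⟨q, hq, rfl⟩ := hf
  exact ⟨p * q, G.mul_mem hp hq, rfl⟩

lemma D_comm (f g : ZV) : D f g = D g f := by
  simp only [D]; ring

lemma D_odd {f g : ZV} (hf : Wall f) (hg : Wall g) : 2 ≤ D f g ∨ D f g ≤ -2 := by
  obtain ⟨⟨b, hb⟩, ⟨c, hc⟩, hx, ⟨y, hy⟩, -⟩ := hf
  obtain ⟨⟨b', hb'⟩, ⟨c', hc'⟩, hx', ⟨y', hy'⟩, -⟩ := hg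
  have ox : ∃ x, f.2.2.1 = 2 * x + 1 := ⟨f.2.2.1 / 2, by omega⟩
  have ox' : ∃ x, g.2.2.1 = 2 * x + 1 := ⟨g.2.2.1 / 2, by omega⟩
  obtain ⟨x, hx⟩ := ox
  obtain ⟨x', hx'⟩ := ox'
  have : D f g = 4 * (2 * x * x' + x + x' + 2 * y * y' - b * c' - c * b') + 2 := by
    simp only [D, hb, hc, hx, hy, hb', hc', hx', hy']
    ring
  omega

lemma semidef {b c x y : ℝ} (h : x ^ 2 + y ^ 2 ≤ b * c) :
    (∀ z : P1, 0 ≤ Nr b c x y z) ∨ (∀ z : P1, Nr b c x y z ≤ 0) := by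
  rcases lt_trichotomy b 0 with hb | hb | hb
  · right
    intro z
    induction z using OnePoint.rec with
    | infty => simpa using hb.le
    | coe z =>
      rw [Nr_coe]
      by_contra hcon
      push Not at hcon
      have : 0 < (-b) * (b * (z.re ^ 2 + z.im ^ 2) - 2 * (x * z.re + y * z.im) + c) :=
        mul_pos (by linarith) hcon
      nlinarith [sq_nonneg (b * z.re - x), sq_nonneg (b * z.im - y)]
  · subst hb
    have hx : x = 0 := by nlinarith [sq_nonneg x, sq_nonneg y]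
    have hy : y = 0 := by nlinarith [sq_nonneg x, sq_nonneg y]
    subst hx; subst hy
    rcases le_total 0 c with hc | hc
    · left
      intro z
      induction z using OnePoint.rec with
      | infty => simp
      | coe z => simpa using hc
    · right
      intro z
      induction z using OnePoint.rec with
      | infty => simp
      | coe z => simpa using hc
  · left
    intro z
    induction z using OnePoint.rec with
    | infty => simpa using hb.le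
    | coe z =>
      rw [Nr_coe]
      by_contra hcon
      push Not at hcon
      have : b * (b * (z.re ^ 2 + z.im ^ 2) - 2 * (x * z.re + y * z.im) + c) < 0 :=
        mul_neg_of_pos_of_neg hb hcon
      nlinarith [sq_nonneg (b * z.re - x), sq_nonneg (b * z.im - y)]

lemma Nr_lin (b c x y b' c' x' y' k l : ℝ) (z : P1) :
    Nr (k * b + l * b') (k * c + l * c') (k * x + l * x') (k * y + l * y') z =
      k * Nr b c x y z + l * Nr b' c' x' y' z := by
  induction z using OnePoint.rec with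
  | infty => simp
  | coe z => simp; ring

lemma tri {f g : ZV} (hf : Wall f) (hg : Wall g) :
    (∀ z : P1, (D f g : ℝ) * N f z ≤ 2 * N g z) ∨ (∀ z : P1, 2 * N g z ≤ (D f g : ℝ) * N f z) := by
  have hd : 4 ≤ (D f g) ^ 2 := by
    rcases D_odd hf hg with h | h <;> nlinarith
  have h1 := hf.2.2.2.2
  have h2 := hg.2.2.2.2
  set d := D f g with hdd
  have key : (2 * (g.2.2.1 : ℝ) + (-(d : ℝ)) * f.2.2.1) ^ 2 +
      (2 * (g.2.2.2 : ℝ) + (-(d : ℝ)) * f.2.2.2) ^ 2 ≤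
      (2 * (g.1 : ℝ) + (-(d : ℝ)) * f.1) * (2 * (g.2.1 : ℝ) + (-(d : ℝ)) * f.2.1) := by
    have : (2 * g.2.2.1 + (-d) * f.2.2.1) ^ 2 +
      (2 * g.2.2.2 + (-d) * f.2.2.2) ^ 2 ≤
      (2 * g.1 + (-d) * f.1) * (2 * g.2.1 + (-d) * f.2.1) := by
      simp only [D] at h1 h2 hdd
      have e : 2 * ((2 * g.2.2.1 + (-d) * f.2.2.1) ^ 2 + (2 * g.2.2.2 + (-d) * f.2.2.2) ^ 2
         - (2 * g.1 + (-d) * f.1) * (2 * g.2.1 + (-d) * f.2.1)) = 
        4 * (2 * (g.2.2.1 * g.2.2.1 + g.2.2.2 * g.2.2.2) - (g.1 * g.2.1 + g.2.1 * g.1))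
        - 4 * d * (2 * (f.2.2.1 * g.2.2.1 + f.2.2.2 * g.2.2.2) - (f.1 * g.2.1 + f.2.1 * g.1))
        + d ^ 2 * (2 * (f.2.2.1 * f.2.2.1 + f.2.2.2 * f.2.2.2) - (f.1 * f.2.1 + f.2.1 * f.1)) := by
        ring
      rw [h1, h2, ← hdd] at e
      nlinarith
    exact_mod_cast this
  rcases semidef key with h | h
  · left
    intro z
    have := h z
    rw [Nr_lin] at this
    simp only [N]
    linarith
  · right
    intro z
    have := h z
    rw [Nr_lin] at this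
    simp only [N]
    linarith

/-- the lower half plane -/
def Lo : Set P1 := {z | ∃ w : ℂ, (w : P1) = z ∧ w.im < 0}
/-- the upper half plane -/
def Up : Set P1 := {z | ∃ w : ℂ, (w : P1) = z ∧ 0 < w.im}

lemma mem_Lo_coe (w : ℂ) : (w : P1) ∈ Lo ↔ w.im < 0 := by
  constructor
  · rintro ⟨v, hv, h⟩
    rw [OnePoint.coe_eq_coe] at hv
    rwa [← hv]
  · intro h; exact ⟨w, rfl, h⟩
lemma mem_Up_coe (w : ℂ) : (w : P1) ∈ Up ↔ 0 < w.im := by
  constructor
  · rintro ⟨v, hv, h⟩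
    rw [OnePoint.coe_eq_coe] at hv
    rwa [← hv]
  · intro h; exact ⟨w, rfl, h⟩
lemma infty_notMem_Up : (∞ : P1) ∉ Up := by
  rintro ⟨v, hv, h⟩
  exact OnePoint.coe_ne_infty v hv
lemma infty_notMem_Lo : (∞ : P1) ∉ Lo := by
  rintro ⟨v, hv, h⟩
  exact OnePoint.coe_ne_infty v hv
lemma Lo_disj_Up {z : P1} (h : z ∈ Lo) : z ∉ Up := by
  obtain ⟨w, rfl, h⟩ := h
  rw [mem_Up_coe]; linarith

lemma norm_real {f : ZV} (h : D f f = 2) :
    (f.2.2.1 : ℝ) ^ 2 + (f.2.2.2 : ℝ) ^ 2 - (f.1 : ℝ) * f.2.1 = 1 := by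
  have : f.2.2.1 ^ 2 + f.2.2.2 ^ 2 - f.1 * f.2.1 = 1 := by
    simp only [D] at h
    linarith [h]
  exact_mod_cast this

/-- if a disk is disjoint from the lower half plane, then so is its closure -/
lemma Lo_pos {f : ZV} (h : D f f = 2) (hd : ∀ z ∈ Lo, 0 ≤ N f z) : ∀ z ∈ Lo, 0 < N f z := by
  intro z hz
  refine lt_of_le_of_ne (hd z hz) ?_
  intro h0
  obtain ⟨w, rfl, hw⟩ := hz
  have hn := norm_real h
  simp only [N, Nr_coe] at h0
  set b : ℝ := ((f.1 : ℤ) : ℝ)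
  set c : ℝ := ((f.2.1 : ℤ) : ℝ)
  set x : ℝ := ((f.2.2.1 : ℤ) : ℝ)
  set y : ℝ := ((f.2.2.2 : ℤ) : ℝ)
  -- unit vector
  have hu : (b * w.re - x) ^ 2 + (b * w.im - y) ^ 2 = 1 := by
    have e : (b * w.re - x) ^ 2 + (b * w.im - y) ^ 2 =
      b * (b * (w.re ^ 2 + w.im ^ 2) - 2 * (x * w.re + y * w.im) + c) + (x ^ 2 + y ^ 2 - b * c) := by
      ring
    rw [e, ← h0, hn]; ring
  obtain ⟨ε, hε, hε1, hε2⟩ : ∃ ε : ℝ, 0 < ε ∧ ε < -w.im ∧ ε * b < 1 := by
    refine ⟨min (-w.im / 2) (1 / (2 * (|b| + 1))), lt_min (by linarith) (by positivity), ?_, ?_⟩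
    · exact lt_of_le_of_lt (min_le_left _ _) (by linarith)
    · have h1 : min (-w.im / 2) (1 / (2 * (|b| + 1))) ≤ 1 / (2 * (|b| + 1)) := min_le_right _ _
      have h2 : 0 < min (-w.im / 2) (1 / (2 * (|b| + 1))) := lt_min (by linarith) (by positivity)
      calc min (-w.im / 2) (1 / (2 * (|b| + 1))) * b 
          ≤ min (-w.im / 2) (1 / (2 * (|b| + 1))) * |b| :=
            mul_le_mul_of_nonneg_left (le_abs_self b) h2.le
        _ ≤ 1 / (2 * (|b| + 1)) * |b| := mul_le_mul_of_nonneg_right h1 (abs_nonneg b)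
        _ < 1 := by
          rw [div_mul_eq_mul_div, one_mul, div_lt_one (by positivity)]
          nlinarith [abs_nonneg b]
  have hbim : (b * w.im - y) ^ 2 ≤ 1 := by nlinarith [sq_nonneg (b * w.re - x)]
  have hlow : -1 ≤ b * w.im - y := by nlinarith
  let w' : ℂ := ⟨w.re - ε * (b * w.re - x), w.im - ε * (b * w.im - y)⟩
  have hw' : (w' : P1) ∈ Lo := by
    rw [mem_Lo_coe]
    change w.im - ε * (b * w.im - y) < 0
    nlinarith
  have h1 := hd _ hw'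
  simp only [N, Nr_coe] at h1
  have e : b * (w'.re ^ 2 + w'.im ^ 2) - 2 * (x * w'.re + y * w'.im) + c
      = (b * (w.re ^ 2 + w.im ^ 2) - 2 * (x * w.re + y * w.im) + c)
        + (-2 * ε + ε ^ 2 * b) * ((b * w.re - x) ^ 2 + (b * w.im - y) ^ 2) := by
    change b * ((w.re - ε * (b * w.re - x)) ^ 2 + (w.im - ε * (b * w.im - y)) ^ 2)
      - 2 * (x * (w.re - ε * (b * w.re - x)) + y * (w.im - ε * (b * w.im - y))) + c = _
    ring
  have h2 : 0 ≤ b * (w'.re ^ 2 + w'.im ^ 2) - 2 * (x * w'.re + y * w'.im) + c := h1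
  rw [e, ← h0, hu] at h2
  nlinarith

end Q4.Apo
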