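import Pool.Agent.Q4.Apo.Cusp

/-! The invariant set `K` and its basic properties. -/

namespace Q4.Apo

open OnePoint Complex Matrix Filter Topology

lemma Up_g1z (n : ℤ) (z : P1) : (g1 ^ n).1 z ∈ Up ↔ z ∈ Up := by
  rw [mem_Up_iff, mem_Up_iff]
  have h : (g1 ^ n).2 e1 = e1 := by
    induction n using Int.induction_on with
    | zero => rfl
    | succ k ih =>
      rw [_root_.zpow_add, _root_.zpow_one, mul2, g1_e1, ih]
    | pred k ih =>
      rw [sub_eq_add_neg, _root_.zpow_add, _root_.zpow_neg_one, mul2]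
      have : g1⁻¹.2 e1 = e1 := by
        have := inv2 g1 e1
        rw [g1_e1] at this
        exact this
      rw [this, ih]
  have := (N_sgn (G.zpow_mem g1_mem n) e1 z).2.2.1
  rwa [h] at this

lemma Ff_g1z (n : ℤ) {z : P1} (hz : z ∈ Up) : Ff ((g1 ^ n).1 z) = lam ^ n * Ff z := by
  induction n using Int.induction_on with
  | zero => simp
  | succ k ih =>
    rw [add_comm, _root_.zpow_add, _root_.zpow_one, mul1]
    rw [Ff_g1 ((Up_g1z _ z).mpr hz), ih, zpow_add₀ lam_pos.ne', zpow_one]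
    ring
  | pred k ih =>
    have h1 : g1 ^ (-(k : ℤ)) = g1 * g1 ^ (-(k : ℤ) - 1) := by
      rw [← _root_.zpow_one_add]; congr 1; ring
    have h2 : Ff (g1.1 ((g1 ^ (-(k : ℤ) - 1)).1 z)) = lam ^ (-(k : ℤ)) * Ff z := by
      rw [← ih, ← mul1, ← h1]
    rw [Ff_g1 ((Up_g1z _ z).mpr hz)] at h2
    have h3 : lam ^ (-(k : ℤ) - 1) = lam⁻¹ * lam ^ (-(k : ℤ)) := by
      rw [zpow_sub_one₀ lam_pos.ne']; ring
    rw [h3, mul_assoc, ← h2, inv_mul_cancel_left₀ lam_pos.ne']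

/-- the circle tangent to the real line at `√2` -/
def Cs : Set P1 := {z | ∃ w : ℂ, (w : P1) = z ∧ w.im = (w.re - √2) ^ 2 + w.im ^ 2}

/-- the invariant closed set -/
def K : Set P1 := {z | z ∉ Up ∨ ∃ n : ℤ, Ff z = lam ^ n}

lemma Cs_sub_K : Cs ⊆ K := by
  rintro z ⟨w, rfl, hw⟩
  by_cases h : 0 < w.im
  · right
    refine ⟨0, ?_⟩
    rw [Ff_coe, ← hw, zpow_zero, div_self h.ne']
  · left
    rw [mem_Up_coe]; exact h

lemma K_g1 (n : ℤ) (z : P1) : (g1 ^ n).1 z ∈ K ↔ z ∈ K := by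
  by_cases hz : z ∈ Up
  · have hz' := (Up_g1z n z).mpr hz
    constructor
    · rintro (h | ⟨m, h⟩)
      · exact absurd hz' h
      · right
        refine ⟨m - n, ?_⟩
        rw [Ff_g1z n hz] at h
        rw [zpow_sub₀ lam_pos.ne', eq_div_iff (zpow_ne_zero _ lam_pos.ne'), ← h]
        ring
    · rintro (h | ⟨m, h⟩)
      · exact absurd hz h
      · right
        refine ⟨n + m, ?_⟩
        rw [Ff_g1z n hz, h, zpow_add₀ lam_pos.ne']
  · constructor
    · intro _; exact Or.inl hz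
    · intro _; exact Or.inl (fun h => hz ((Up_g1z n z).mp h))

lemma Lo_sub_K : Lo ⊆ K := fun _ hz => Or.inl (Lo_disj_Up hz)

lemma infty_mem_K : (∞ : P1) ∈ K := Or.inl infty_notMem_Up

lemma Ff_contOn : ContinuousOn (fun w : ℂ => w.im / ((w.re - √2) ^ 2 + w.im ^ 2)) {w | 0 < w.im} := by
  apply ContinuousOn.div
  · fun_prop
  · fun_prop
  · intro w hw
    have : 0 < w.im := hw
    positivity

lemma open_pow : IsOpen {x : ℝ | 0 < x ∧ ∀ n : ℤ, x ≠ lam ^ n} := by
  have h1 : {x : ℝ | 0 < x ∧ ∀ n : ℤ, x ≠ lam ^ n} =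
      Set.Ioi 0 ∩ (fun x => Real.log x / Real.log lam) ⁻¹' (Set.range ((↑) : ℤ → ℝ))ᶜ := by
    ext x
    simp only [Set.mem_ofPred_eq, Set.mem_inter_iff, Set.mem_Ioi, Set.mem_preimage,
      Set.mem_compl_iff, Set.mem_range, not_exists]
    have hl : 0 < Real.log lam := Real.log_pos lam_gt
    refine and_congr_right (fun hx => forall_congr' (fun n => not_congr ?_))
    constructor
    · intro h
      rw [h, Real.log_zpow]
      field_simp
    · intro h
      rw [eq_div_iff hl.ne', ← Real.log_zpow] at h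
      exact (Real.log_injOn_pos (Set.mem_Ioi.mpr (zpow_pos lam_pos n)) (Set.mem_Ioi.mpr hx) h).symm
  rw [h1]
  apply ContinuousOn.isOpen_inter_preimage
  · apply ContinuousOn.div_const
    exact Real.continuousOn_log.mono (fun x hx => ne_of_gt hx)
  · exact isOpen_Ioi
  · exact Int.isClosedEmbedding_coe_real.isClosed_range.isOpen_compl

lemma K_compl : Kᶜ = (fun w : ℂ => (w : P1)) '' ({w | 0 < w.im} ∩
    (fun w : ℂ => w.im / ((w.re - √2) ^ 2 + w.im ^ 2)) ⁻¹' {x : ℝ | 0 < x ∧ ∀ n : ℤ, x ≠ lam ^ n}) := by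
  ext z
  constructor
  · intro hz
    simp only [K, Set.mem_compl_iff, Set.mem_ofPred_eq, not_or, not_not, not_exists] at hz
    obtain ⟨h1, h2⟩ := hz
    have h3 := Ff_pos h1
    obtain ⟨w, rfl, hw⟩ := h1
    exact ⟨w, ⟨hw, h3, h2⟩, rfl⟩
  · rintro ⟨w, ⟨hw, h1, h2⟩, rfl⟩
    simp only [K, Set.mem_compl_iff, Set.mem_ofPred_eq, not_or, not_not, not_exists]
    exact ⟨(mem_Up_coe w).mpr hw, h2⟩

lemma K_closed : IsClosed K := by
  rw [← isOpen_compl_iff, K_compl]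
  apply OnePoint.isOpenEmbedding_coe.isOpenMap
  apply ContinuousOn.isOpen_inter_preimage Ff_contOn
  · exact isOpen_lt continuous_const Complex.continuous_im
  · exact open_pow

/-! cusps -/

lemma cusp_rat {p : PG} (hp : p ∈ G) {w : ℂ} (hw : p.1 ∞ = (w : P1)) :
    ∃ u v : ℚ, w.re = u ∧ w.im = v := by
  obtain ⟨h, hh⟩ := Ext_G p hp
  have h1 : toC h • (∞ : P1) = (w : P1) := by
    rw [← hw]
    rcases hh with hh | hh <;> rw [hh] <;> rfl
  rw [OnePoint.smul_infty_eq_ite] at h1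
  split_ifs at h1 with h0
  · exact absurd h1.symm (OnePoint.coe_ne_infty w)
  · rw [OnePoint.coe_eq_coe] at h1
    rw [toC_apply, toC_apply] at h1
    set a := h 0 0
    set c := h 1 0
    refine ⟨(a.re * c.re + a.im * c.im) / (c.re * c.re + c.im * c.im),
      (a.im * c.re - a.re * c.im) / (c.re * c.re + c.im * c.im), ?_, ?_⟩
    · rw [← h1, Complex.div_re, Complex.normSq_apply]
      simp only [← GaussianInt.intCast_re, ← GaussianInt.intCast_im]
      push_cast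
      ring
    · rw [← h1, Complex.div_im, Complex.normSq_apply]
      simp only [← GaussianInt.intCast_re, ← GaussianInt.intCast_im]
      push_cast
      ring

lemma no_rat_on_C {w : ℂ} {u v : ℚ} (h1 : w.re = u) (h2 : w.im = v)
    (h : w.im = (w.re - √2) ^ 2 + w.im ^ 2) : False := by
  rw [h1, h2] at h
  have hs : √2 ^ 2 = 2 := Real.sq_sqrt (by norm_num)
  by_cases hu : u = 0
  · subst hu
    have : (v : ℝ) = 2 + (v : ℝ) ^ 2 := by
      push_cast at h
      linarith [h, hs]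
    nlinarith [sq_nonneg ((v : ℝ) - 1 / 2)]
  · have hu' : (u : ℝ) ≠ 0 := by exact_mod_cast hu
    have : √2 = (((u ^ 2 + 2 + v ^ 2 - v) / (2 * u) : ℚ) : ℝ) := by
      push_cast
      rw [eq_div_iff (by simpa using hu')]
      nlinarith
    exact irrational_sqrt_two ⟨_, this.symm⟩

/-- cusps in the upper half plane are not in `K`. -/
lemma cusp_notMem_K {p : PG} (hp : p ∈ G) (h : p.1 ∞ ∈ Up) : p.1 ∞ ∉ K := by
  rintro (h1 | ⟨n, h1⟩)
  · exact h1 h
  · have h2 : (g1 ^ (-n)).1 (p.1 ∞) ∈ Up := (Up_g1z _ _).mpr h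
    have h3 := Ff_g1z (-n) h
    rw [h1, ← zpow_add₀ lam_pos.ne'] at h3
    simp only [neg_add_cancel, zpow_zero] at h3
    obtain ⟨w, hw, hw0⟩ := h2
    rw [← hw, Ff_coe] at h3
    have hpos : 0 < (w.re - √2) ^ 2 + w.im ^ 2 := by positivity
    rw [div_eq_one_iff_eq hpos.ne'] at h3
    obtain ⟨u, v, hu, hv⟩ := cusp_rat (G.mul_mem (G.zpow_mem g1_mem (-n)) hp) (w := w) hw.symm
    exact no_rat_on_C hu hv h3

lemma cusp_notMem_C {p : PG} (hp : p ∈ G) : p.1 ∞ ∉ Cs := by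
  rintro ⟨w, hw, h⟩
  obtain ⟨u, v, hu, hv⟩ := cusp_rat hp hw.symm
  exact no_rat_on_C hu hv h

/-- cusps are not in the lower half plane -/
lemma cusp_notMem_Lo {p : PG} (hp : p ∈ G) : p.1 ∞ ∉ Lo := by
  apply pk_Lo hp
  rw [(N_sgn hp e1 ∞).2.2.2.2, N_e1_infty]

end Q4.Apo
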