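import Pool.Agent.Q4.Apo.Packing

/-! The packing is contained in the set of `G`-images of the real line. -/

namespace Q4.Apo

open OnePoint Complex Matrix Filter Topology

/-- every circle is given by a real vector of norm one -/
lemma circ_vec {V : Set P1} (hV : IsCirc V) : ∃ b c x y : ℝ, x ^ 2 + y ^ 2 - b * c = 1 ∧
    V = {z | Nr b c x y z = 0} := by
  obtain ⟨g, rfl⟩ := hV
  set m : GLC := g⁻¹ with hm
  have hmem : ∀ z, z ∈ (fun w : OnePoint ℂ => g • w) '' Rhat ↔ N e1 (m • z) = 0 := by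
    intro z
    rw [← mem_Rhat_iff]
    constructor
    · rintro ⟨w, hw, rfl⟩
      simp only [hm, inv_smul_smul]
      exact hw
    · intro h
      exact ⟨m • z, h, by simp [hm]⟩
  set a : ℂ := m 0 0
  set b : ℂ := m 0 1
  set c : ℂ := m 1 0
  set d : ℂ := m 1 1
  have hdet : a * d - b * c ≠ 0 := by
    have := m.det_ne_zero
    rwa [Matrix.det_fin_two] at this
  set δ : ℝ := ‖a * d - b * c‖ with hδ
  have hδ0 : 0 < δ := norm_pos_iff.mpr hdet
  have hδ2 : δ ^ 2 = (a * d - b * c).re ^ 2 + (a * d - b * c).im ^ 2 := by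
    rw [hδ, ← Complex.normSq_eq_norm_sq, Complex.normSq_apply]; ring
  refine ⟨2 * (a.im * c.re - a.re * c.im) / δ, 2 * (b.im * d.re - b.re * d.im) / δ,
    -((a * (starRingEnd ℂ) d - (starRingEnd ℂ) b * c).im) / δ,
    -((a * (starRingEnd ℂ) d - (starRingEnd ℂ) b * c).re) / δ, ?_, ?_⟩
  · rw [div_pow, div_pow, ← add_div, div_mul_div_comm, ← pow_two δ, ← sub_div,
      div_eq_one_iff_eq (by positivity), hδ2]
    simp only [Complex.sub_re, Complex.sub_im, Complex.mul_re, Complex.mul_im, Complex.conj_re,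
      Complex.conj_im]
    ring
  · ext z
    rw [hmem]
    induction z using OnePoint.rec with
    | infty =>
      rw [OnePoint.smul_infty_eq_ite]
      change N e1 (if c = 0 then ∞ else ((a / c : ℂ) : P1)) = 0 ↔ Nr _ _ _ _ ∞ = 0
      rw [Nr_infty]
      split_ifs with h
      · rw [N_e1_infty, h]; simp
      · rw [N_e1_coe, Complex.div_im]
        have hc : 0 < Complex.normSq c := Complex.normSq_pos.mpr h
        rw [← sub_div]
        constructor
        · intro h1
          have h2 : (a.im * c.re - a.re * c.im) / normSq c = 0 := by linarith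
          rw [div_eq_zero_iff] at h2
          rcases h2 with h2 | h2
          · rw [h2]; simp
          · exact absurd h2 hc.ne'
        · intro h1
          rw [div_eq_zero_iff] at h1
          rcases h1 with h1 | h1
          · have h2 : a.im * c.re - a.re * c.im = 0 := by linarith
            rw [h2]; simp
          · exact absurd h1 hδ0.ne'
    | coe w =>
      rw [OnePoint.smul_some_eq_ite]
      change N e1 (if c * w + d = 0 then ∞ else (((a * w + b) / (c * w + d) : ℂ) : P1)) = 0 ↔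
        Nr _ _ _ _ (w : P1) = 0
      rw [Nr_coe]
      have e : 2 * (a.im * c.re - a.re * c.im) / δ * (w.re ^ 2 + w.im ^ 2) -
          2 * (-((a * (starRingEnd ℂ) d - (starRingEnd ℂ) b * c).im) / δ * w.re +
            -((a * (starRingEnd ℂ) d - (starRingEnd ℂ) b * c).re) / δ * w.im) +
          2 * (b.im * d.re - b.re * d.im) / δ =
          2 * ((a * w + b).im * (c * w + d).re - (a * w + b).re * (c * w + d).im) / δ := by
        simp only [Complex.sub_re, Complex.sub_im, Complex.mul_re, Complex.mul_im,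
          Complex.conj_re, Complex.conj_im, Complex.add_re, Complex.add_im]
        field_simp
        ring
      rw [e]
      split_ifs with h
      · rw [N_e1_infty, h]; simp
      · rw [N_e1_coe, Complex.div_im]
        have hc : 0 < Complex.normSq (c * w + d) := Complex.normSq_pos.mpr h
        rw [← sub_div]
        constructor
        · intro h1
          have h2 : ((a * w + b).im * (c * w + d).re - (a * w + b).re * (c * w + d).im) /
            normSq (c * w + d) = 0 := by linarith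
          rw [div_eq_zero_iff] at h2
          rcases h2 with h2 | h2
          · rw [h2]; simp
          · exact absurd h2 hc.ne'
        · intro h1
          rw [div_eq_zero_iff] at h1
          rcases h1 with h1 | h1
          · have h2 : (a * w + b).im * (c * w + d).re - (a * w + b).re * (c * w + d).im = 0 := by
              linarith
            rw [h2]; simp
          · exact absurd h1 hδ0.ne'

lemma Nr_neg (b c x y : ℝ) (z : P1) : Nr (-b) (-c) (-x) (-y) z = - Nr b c x y z := by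
  induction z using OnePoint.rec with
  | infty => simp
  | coe z => simp; ring

lemma not_Tg_e2 : ¬ Tg (circ e2) (circ e2) := by
  rw [← r_e1]; exact not_Tg_self r_mem

lemma not_Tg_e3 : ¬ Tg (circ e3) (circ e3) := by
  have : e3 = (s * r).2 e1 := by rw [mul2, r_e1, s_e2]
  rw [this]; exact not_Tg_self (G.mul_mem s_mem r_mem)

lemma L3a {b c x y : ℝ} (hn : x ^ 2 + y ^ 2 - b * c = 1) (hy : y = 1)
    (h2 : Tg {z | Nr b c x y z = 0} (circ e2))
    (h1 : Tg {z | Nr b c x y z = 0} (circ e1))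
    (h3 : Tg {z | Nr b c x y z = 0} (circ e3)) :
    {z | Nr b c x y z = 0} = circ e4 ∨ {z | Nr b c x y z = 0} = circ e0 := by
  have hb := Tg_e2_conv hn h2
  have hc := Tg_e3_conv hn h3
  subst hy
  have hb' : b = 0 ∨ b = 2 := by
    have : b * (b - 2) = 0 := by linarith
    rcases mul_eq_zero.mp this with h | h
    · left; exact h
    · right; linarith
  have hc' : c = 0 ∨ c = 2 := by
    have : c * (c - 2) = 0 := by linarith
    rcases mul_eq_zero.mp this with h | h
    · left; exact h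
    · right; linarith
  rcases hb' with rfl | rfl <;> rcases hc' with rfl | rfl
  · exfalso
    have hx : x = 0 := by nlinarith
    subst hx
    have e : {z | Nr 0 0 0 1 z = 0} = circ e1 := by
      ext z
      have := Nr_neg 0 0 0 1 z
      change Nr 0 0 0 1 z = 0 ↔ N e1 z = 0
      have h4 : N e1 z = Nr (-0) (-0) (-0) (-1) z := by simp [N, e1]
      rw [h4, this, neg_eq_zero]
    rw [e] at h1
    exact not_Tg_self_e1 h1
  · exfalso
    have hx : x = 0 := by nlinarith
    subst hx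
    have e : {z | Nr 0 2 0 1 z = 0} = circ e2 := by
      ext z; simp [circ, N, e2]
    rw [e] at h2
    exact not_Tg_e2 h2
  · exfalso
    have hx : x = 0 := by nlinarith
    subst hx
    have e : {z | Nr 2 0 0 1 z = 0} = circ e3 := by
      ext z; simp [circ, N, e3]
    rw [e] at h3
    exact not_Tg_e3 h3
  · have hx : x = 2 ∨ x = -2 := by
      have : (x - 2) * (x + 2) = 0 := by linarith
      rcases mul_eq_zero.mp this with h | h
      · left; linarith
      · right; linarith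
    rcases hx with rfl | rfl
    · left; ext z; simp [circ, N, e4]
    · right; ext z; simp [circ, N, e0]

lemma L3 {V : Set P1} (hV : IsCirc V) (h1 : Tg V (circ e1)) (h2 : Tg V (circ e2))
    (h3 : Tg V (circ e3)) : V = circ e4 ∨ V = circ e0 := by
  obtain ⟨b, c, x, y, hn, rfl⟩ := circ_vec hV
  have hy := Tg_e1_conv hn h1
  have hy' : y = 1 ∨ y = -1 := by
    have : (y - 1) * (y + 1) = 0 := by linarith
    rcases mul_eq_zero.mp this with h | h
    · left; linarith
    · right; linarith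
  rcases hy' with hy' | hy'
  · exact L3a hn hy' h2 h1 h3
  · have e : {z | Nr b c x y z = 0} = {z | Nr (-b) (-c) (-x) (-y) z = 0} := by
      ext z
      change Nr b c x y z = 0 ↔ Nr (-b) (-c) (-x) (-y) z = 0
      rw [Nr_neg, neg_eq_zero]
    rw [e] at h1 h2 h3 ⊢
    exact L3a (by linear_combination hn) (by linarith) h2 h1 h3

lemma e4_orb : e4 = (t * s * r).2 e1 := by
  rw [mul2, mul2, r_e1, s_e2, t_e3]

lemma t_e0 : t.2 e0 = e3 := by simp [t, AT, e0, e3]

lemma e0_orb : e0 = (t⁻¹ * s * r).2 e1 := by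
  rw [mul2, mul2, r_e1, s_e2, ← t_e0, inv2]

/-- the set of `G`-images of the real line. -/
def FF : Set (Set P1) := {S | ∃ p ∈ G, S = circ (p.2 e1)}

lemma img_img_inv (p : PG) (A : Set P1) : p.1 '' (p⁻¹.1 '' A) = A := by
  rw [Set.image_image]
  simp only [inv1', Set.image_id']

lemma FF_closed : Closed3 FF := by
  rintro S ⟨p, hp, rfl⟩ T ⟨q, hq, rfl⟩ U ⟨q', hq', rfl⟩ V hV hST hTU hSU - hVS hVT hVU
  change Tg _ _ at hST hTU hSU hVS hVT hVU
  -- normalise the first circle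
  have a1 : Tg (circ ((p⁻¹ * q).2 e1)) (circ e1) := by
    rw [← Tg_circ hp, mul2, inv2']; exact Tg_comm.mp hST
  obtain ⟨q1, hq1, f1, f2⟩ := L1 (G.mul_mem (G.inv_mem hp) hq) a1
  obtain ⟨P1', hP1⟩ : ∃ P1' : PG, P1' = p * q1 := ⟨_, rfl⟩
  have hP1m : P1' ∈ G := by rw [hP1]; exact G.mul_mem hp hq1
  have g1' : p.2 e1 = P1'.2 e1 := by rw [hP1, mul2, f1]
  have g2' : q.2 e1 = P1'.2 e2 := by rw [hP1, mul2, ← f2, mul2, inv2']
  have a2 : Tg (circ ((P1'⁻¹ * q').2 e1)) (circ e1) := by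
    rw [← Tg_circ hP1m, mul2, inv2', ← g1']; exact Tg_comm.mp hSU
  have a3 : Tg (circ ((P1'⁻¹ * q').2 e1)) (circ e2) := by
    rw [← Tg_circ hP1m, mul2, inv2', ← g2']; exact Tg_comm.mp hTU
  obtain ⟨k, hk⟩ := L2 (G.mul_mem (G.inv_mem hP1m) hq') a2 a3
  obtain ⟨Q, hQ⟩ : ∃ Q : PG, Q = P1' * t ^ k := ⟨_, rfl⟩
  have hQm : Q ∈ G := by rw [hQ]; exact G.mul_mem hP1m (tk_mem k)
  have c1 : p.2 e1 = Q.2 e1 := by rw [hQ, mul2, tk_e1, g1']
  have c2 : q.2 e1 = Q.2 e2 := by rw [hQ, mul2, tk_e2, g2']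
  have c3 : q'.2 e1 = Q.2 e3 := by rw [hQ, mul2, ← hk, mul2, inv2']
  set V' := Q⁻¹.1 '' V with hV'
  have hVV : V = Q.1 '' V' := by rw [hV', img_img_inv]
  have hV'c : IsCirc V' := IsCirc_img (G.inv_mem hQm) hV
  have d1 : Tg V' (circ e1) := by
    rw [← Tg_img Q.1, ← hVV, img_circ hQm, ← c1]; exact hVS
  have d2 : Tg V' (circ e2) := by
    rw [← Tg_img Q.1, ← hVV, img_circ hQm, ← c2]; exact hVT
  have d3 : Tg V' (circ e3) := by
    rw [← Tg_img Q.1, ← hVV, img_circ hQm, ← c3]; exact hVU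
  rcases L3 hV'c d1 d2 d3 with h | h
  · refine ⟨Q * (t * s * r), G.mul_mem hQm (G.mul_mem (G.mul_mem t_mem s_mem) r_mem), ?_⟩
    rw [hVV, h, img_circ hQm, mul2 Q, ← e4_orb]
  · refine ⟨Q * (t⁻¹ * s * r), G.mul_mem hQm (G.mul_mem (G.mul_mem (G.inv_mem t_mem) s_mem) r_mem), ?_⟩
    rw [hVV, h, img_circ hQm, mul2 Q, ← e0_orb]

theorem PP_sub : PP ⊆ FF := by
  intro S hS
  apply hS
  refine ⟨⟨1, G.one_mem, rfl⟩, ⟨r, r_mem, by rw [r_e1]⟩, ⟨s * r, G.mul_mem s_mem r_mem, ?_⟩,
    ⟨t * s * r, G.mul_mem (G.mul_mem t_mem s_mem) r_mem, ?_⟩, FF_closed⟩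
  · rw [mul2, r_e1, s_e2]
  · rw [← e4_orb]

/-! Tangencies of the base circles and invariance of `PP` -/

lemma TgE {v w : ZV} : Tg (circ v) (circ w) ↔ Tg (circ w) (circ v) := Tg_comm

lemma T21 : Tg (circ e2) (circ e1) := Tg_e1 (by simp [D, e2]) rfl (by simp [e2])
lemma T31 : Tg (circ e3) (circ e1) := Tg_e1 (by simp [D, e3]) rfl (by simp [e3])
lemma T41 : Tg (circ e4) (circ e1) := Tg_e1 (by simp [D, e4]) rfl (by simp [e4])
lemma T01 : Tg (circ e0) (circ e1) := Tg_e1 (by simp [D, e0]) rfl (by simp [e0])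
lemma T51 : Tg (circ e5) (circ e1) := Tg_e1 (by simp [D, e5]) rfl (by simp [e5])
lemma r_e3 : r.2 e3 = e3 := by simp [r, AR, e3]
lemma r_e4 : r.2 e4 = e0 := by simp [r, AR, e0, e4]
lemma r_e0 : r.2 e0 = e4 := by simp [r, AR, e0, e4]
lemma s_e4 : s.2 e4 = e0 := by simp [s, AS, e0, e4]
lemma t_e4 : t.2 e4 = e5 := by simp [t, AT, e5, e4]
lemma T32 : Tg (circ e3) (circ e2) := by
  rw [← Tg_circ r_mem, r_e3, r_e2]; exact T31
lemma T42 : Tg (circ e4) (circ e2) := by
  rw [← Tg_circ r_mem, r_e4, r_e2]; exact T01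
lemma T02 : Tg (circ e0) (circ e2) := by
  rw [← Tg_circ r_mem, r_e0, r_e2]; exact T41
lemma T43 : Tg (circ e4) (circ e3) := by
  rw [← Tg_circ s_mem, s_e4, s_e3]; exact T02
lemma T03 : Tg (circ e0) (circ e3) := by
  rw [← Tg_circ t_mem, t_e0, t_e3]; exact TgE.mp T43
lemma T54 : Tg (circ e5) (circ e4) := by
  have h : Tg (circ (t.2 e4)) (circ (t.2 e3)) := (Tg_circ t_mem _ _).mpr T43
  rw [t_e4, t_e3] at h
  exact h
lemma T52 : Tg (circ e5) (circ e2) := by
  rw [← Tg_circ r_mem, r_e2]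
  refine Tg_e1 ?_ ?_ ?_
  · rw [D_inv r r_mem]; simp [D, e5]
  · simp [r, AR, e5]
  · simp [r, AR, e5]

lemma trip123 : circ e1 ∩ circ e2 ∩ circ e3 = ∅ := by
  ext z
  simp only [Set.mem_inter_iff, Set.mem_empty_iff_false, iff_false]
  rintro ⟨⟨h1, h2⟩, h3⟩
  have h1 : N e1 z = 0 := h1
  have h2 : N e2 z = 0 := h2
  have h3 : N e3 z = 0 := h3
  induction z using OnePoint.rec with
  | infty => simp [N, e3] at h3
  | coe w => simp [N, e1, e2] at h1 h2; rw [h1] at h2; norm_num at h2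

lemma trip124 : circ e1 ∩ circ e2 ∩ circ e4 = ∅ := by
  ext z
  simp only [Set.mem_inter_iff, Set.mem_empty_iff_false, iff_false]
  rintro ⟨⟨h1, h2⟩, h3⟩
  have h1 : N e1 z = 0 := h1
  have h2 : N e2 z = 0 := h2
  have h3 : N e4 z = 0 := h3
  induction z using OnePoint.rec with
  | infty => simp [N, e4] at h3
  | coe w => simp [N, e1, e2] at h1 h2; rw [h1] at h2; norm_num at h2

lemma trip134 : circ e1 ∩ circ e3 ∩ circ e4 = ∅ := by
  ext z
  simp only [Set.mem_inter_iff, Set.mem_empty_iff_false, iff_false]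
  rintro ⟨⟨h1, h2⟩, h3⟩
  have h1 : N e1 z = 0 := h1
  have h2 : N e3 z = 0 := h2
  have h3 : N e4 z = 0 := h3
  induction z using OnePoint.rec with
  | infty => simp [N, e4] at h3
  | coe w =>
    simp [N, e1, e3, e4] at h1 h2 h3
    rw [h1] at h2 h3
    have : w.re = 0 := by nlinarith
    rw [this] at h3
    norm_num at h3

lemma trip234 : circ e2 ∩ circ e3 ∩ circ e4 = ∅ := by
  ext z
  simp only [Set.mem_inter_iff, Set.mem_empty_iff_false, iff_false]
  rintro ⟨⟨h1, h2⟩, h3⟩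
  have h1 : N e2 z = 0 := h1
  have h2 : N e3 z = 0 := h2
  have h3 : N e4 z = 0 := h3
  induction z using OnePoint.rec with
  | infty => simp [N, e4] at h3
  | coe w =>
    simp [N, e2, e3, e4] at h1 h2 h3
    have hw : w.im = 1 := by linarith
    rw [hw] at h2 h3
    have : w.re = 0 := by nlinarith
    rw [this] at h3
    norm_num at h3

lemma IsCirc_orb {p : PG} (hp : p ∈ G) : IsCirc (circ (p.2 e1)) := by
  rw [← img_circ hp, circ_e1]
  exact IsCirc_img hp ⟨1, by simp⟩

lemma PP_e0 : circ e0 ∈ PP := by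
  refine PP_closed _ PP_e1 _ PP_e2 _ PP_e3 _ ?_ (Tg_comm.mp T21) (Tg_comm.mp T32) (Tg_comm.mp T31)
    trip123 T01 T02 T03
  rw [e0_orb]
  exact IsCirc_orb (G.mul_mem (G.mul_mem (G.inv_mem t_mem) s_mem) r_mem)

lemma PP_e5 : circ e5 ∈ PP := by
  refine PP_closed _ PP_e1 _ PP_e2 _ PP_e4 _ ?_ (Tg_comm.mp T21) (Tg_comm.mp T42) (Tg_comm.mp T41)
    trip124 T51 T52 T54
  have : e5 = (t * (t * s * r)).2 e1 := by rw [mul2, ← e4_orb, t_e4]
  rw [this]
  exact IsCirc_orb (G.mul_mem t_mem (G.mul_mem (G.mul_mem t_mem s_mem) r_mem))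

lemma gen_inv {p : PG} (hp : p ∈ G) (h1 : circ (p.2 e1) ∈ PP) (h2 : circ (p.2 e2) ∈ PP)
    (h3 : circ (p.2 e3) ∈ PP) (h4 : circ (p.2 e4) ∈ PP) : ∀ S ∈ PP, p.1 '' S ∈ PP := by
  intro S hS
  change S ∈ {S | p.1 '' S ∈ PP}
  apply hS
  refine ⟨?_, ?_, ?_, ?_, ?_⟩
  · change p.1 '' _ ∈ PP; rw [img_circ hp]; exact h1
  · change p.1 '' _ ∈ PP; rw [img_circ hp]; exact h2
  · change p.1 '' _ ∈ PP; rw [img_circ hp]; exact h3
  · change p.1 '' _ ∈ PP; rw [img_circ hp]; exact h4
  · intro S hS T hT U hU V hV a1 a2 a3 a4 a5 a6 a7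
    refine PP_closed _ hS _ hT _ hU _ (IsCirc_img hp hV) ?_ ?_ ?_ ?_ ?_ ?_ ?_
    · exact (Tg_img p.1 _ _).mpr a1
    · exact (Tg_img p.1 _ _).mpr a2
    · exact (Tg_img p.1 _ _).mpr a3
    · rw [← Set.image_inter p.1.injective, ← Set.image_inter p.1.injective, a4, Set.image_empty]
    · exact (Tg_img p.1 _ _).mpr a5
    · exact (Tg_img p.1 _ _).mpr a6
    · exact (Tg_img p.1 _ _).mpr a7

lemma iff_of {p : PG} (h1 : ∀ S ∈ PP, p.1 '' S ∈ PP) (h2 : ∀ S ∈ PP, p⁻¹.1 '' S ∈ PP) :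
    ∀ S, S ∈ PP ↔ p.1 '' S ∈ PP := by
  intro S
  constructor
  · exact h1 S
  · intro h
    have := h2 _ h
    have e : p⁻¹.1 '' (p.1 '' S) = S := by
      rw [Set.image_image]; simp only [inv1, Set.image_id']
    rwa [e] at this

lemma tinv_e (v w : ZV) (h : t.2 v = w) : t⁻¹.2 w = v := by rw [← h, inv2]

lemma t_e1 : t.2 e1 = e1 := by simp [t, AT, e1]
lemma t_e2 : t.2 e2 = e2 := by simp [t, AT, e2]
lemma σ_e1 : σ.2 e1 = e1 := by simp [σ, Asig, e1]
lemma σ_e2 : σ.2 e2 = e2 := by simp [σ, Asig, e2]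
lemma σ_e3 : σ.2 e3 = e3 := by simp [σ, Asig, e3]
lemma σ_e4 : σ.2 e4 = e0 := by simp [σ, Asig, e4, e0]

lemma s_inv : s⁻¹ = s := by
  have : s * s = 1 := by
    apply canon (G.mul_mem s_mem s_mem)
    apply LinearEquiv.ext
    intro v
    change s.2 (s.2 v) = v
    simp [s, AS]
  rw [inv_eq_iff_mul_eq_one]; exact this
lemma r_inv : r⁻¹ = r := by
  have : r * r = 1 := by
    apply canon (G.mul_mem r_mem r_mem)
    apply LinearEquiv.ext
    intro v
    change r.2 (r.2 v) = v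
    simp [r, AR]
    obtain ⟨b, c, x, y⟩ := v
    ext <;> simp
    ring
  rw [inv_eq_iff_mul_eq_one]; exact this
lemma σ_inv : σ⁻¹ = σ := by
  have : σ * σ = 1 := by
    apply canon (G.mul_mem σ_mem σ_mem)
    apply LinearEquiv.ext
    intro v
    change σ.2 (σ.2 v) = v
    simp [σ, Asig]
  rw [inv_eq_iff_mul_eq_one]; exact this

theorem PP_inv : ∀ p ∈ G, ∀ S, S ∈ PP ↔ p.1 '' S ∈ PP := by
  apply G_ind
  · intro S; simp
  · apply iff_of
    · apply gen_inv t_mem
      · rw [t_e1]; exact PP_e1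
      · rw [t_e2]; exact PP_e2
      · rw [t_e3]; exact PP_e4
      · rw [t_e4]; exact PP_e5
    · apply gen_inv (G.inv_mem t_mem)
      · rw [tinv_e _ _ t_e1]; exact PP_e1
      · rw [tinv_e _ _ t_e2]; exact PP_e2
      · rw [tinv_e _ _ t_e0]; exact PP_e0
      · rw [tinv_e _ _ t_e3]; exact PP_e3
  · have h : ∀ S ∈ PP, s.1 '' S ∈ PP := by
      apply gen_inv s_mem
      · rw [s_e1]; exact PP_e1
      · rw [s_e2]; exact PP_e3
      · rw [s_e3]; exact PP_e2
      · rw [s_e4]; exact PP_e0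
    exact iff_of h (by rw [s_inv]; exact h)
  · have h : ∀ S ∈ PP, r.1 '' S ∈ PP := by
      apply gen_inv r_mem
      · rw [r_e1]; exact PP_e2
      · rw [r_e2]; exact PP_e1
      · rw [r_e3]; exact PP_e3
      · rw [r_e4]; exact PP_e0
    exact iff_of h (by rw [r_inv]; exact h)
  · have h : ∀ S ∈ PP, σ.1 '' S ∈ PP := by
      apply gen_inv σ_mem
      · rw [σ_e1]; exact PP_e1
      · rw [σ_e2]; exact PP_e2
      · rw [σ_e3]; exact PP_e3
      · rw [σ_e4]; exact PP_e0
    exact iff_of h (by rw [σ_inv]; exact h)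
  · intro p q hp hq S
    rw [hq S, hp (q.1 '' S)]
    have : p.1 '' (q.1 '' S) = (p * q).1 '' S := by
      rw [Set.image_image]; rfl
    rw [this]
  · intro p hp S
    have := hp (p⁻¹.1 '' S)
    rw [img_img_inv] at this
    exact this.symm

end Q4.Apo
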