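import Pool.Agent.Q4.Apo.Full
import Pool.Agent.Q4.Apo.Packing2

/-! The group `Gam` of Möbius maps and one half of the limit set computation. -/

namespace Q4.Apo

open OnePoint Complex Matrix Filter Topology

/-- The symmetry group. -/
noncomputable def Gam : Subgroup GLC :=
  (Matrix.GeneralLinearGroup.map (n := Fin 2) GaussianInt.toComplex).range ⊓
    (W.map (MonoidHom.fst (Equiv.Perm P1) (ZV ≃ₗ[ℤ] ZV))).comap (MulAction.toPermHom GLC P1)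

lemma mem_Gam {g : GLC} : g ∈ Gam ↔ (∃ h : GLZ, toC h = g) ∧ ∃ w ∈ W, w.1 = perm g := by
  simp only [Gam, Subgroup.mem_inf, MonoidHom.mem_range, Subgroup.mem_comap, Subgroup.mem_map]
  rfl

lemma Gam_PP {g : GLC} (hg : g ∈ Gam) (S : Set P1) :
    S ∈ PP ↔ (fun w : OnePoint ℂ => g • w) '' S ∈ PP := by
  obtain ⟨-, w, hw, h⟩ := mem_Gam.mp hg
  have := PP_inv w (W_le hw) S
  rw [h] at this
  exact this

lemma Gam_union {g : GLC} (hg : g ∈ Gam) (z : P1) : z ∈ ⋃₀ PP ↔ g • z ∈ ⋃₀ PP := by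
  constructor
  · rintro ⟨S, hS, hz⟩
    exact ⟨_, (Gam_PP hg S).mp hS, z, hz, rfl⟩
  · rintro ⟨S, hS, hz⟩
    refine ⟨(fun w : OnePoint ℂ => g⁻¹ • w) '' S, (Gam_PP (Gam.inv_mem hg) S).mp hS, g • z, hz, ?_⟩
    simp

lemma Gam_cont {g : GLC} (hg : g ∈ Gam) : Continuous (fun z : P1 => g • z) := by
  obtain ⟨-, w, hw, h⟩ := mem_Gam.mp hg
  have := cont_G w (W_le hw)
  rw [h] at this
  exact this

def hG : GLZ := hT * hS * hT ^ (-2 : ℤ) * hS * hT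

lemma tk_perm (k : ℤ) : (t ^ k).1 = perm (toC (hT ^ k)) := by
  have h1 : (t ^ k).1 = (t.1) ^ k := map_zpow (MonoidHom.fst (Equiv.Perm P1) (ZV ≃ₗ[ℤ] ZV)) t k
  rw [h1]
  have h2 : toC (hT ^ k) = (toC hT) ^ k := map_zpow _ _ _
  rw [h2]
  have h3 : perm ((toC hT) ^ k) = (perm (toC hT)) ^ k := map_zpow _ _ _
  rw [h3]
  rfl

lemma g1_perm : g1.1 = perm (toC hG) := by
  have h : g1.1 = t.1 * s.1 * (t ^ (-2 : ℤ)).1 * s.1 * t.1 := rfl
  rw [h, tk_perm]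
  change perm (toC hT) * perm (toC hS) * perm (toC (hT ^ (-2 : ℤ))) * perm (toC hS) *
    perm (toC hT) = _
  rw [perm_mul, perm_mul, perm_mul, perm_mul]
  rfl

lemma g1k_perm (k : ℤ) : (g1 ^ k).1 = perm (toC (hG ^ k)) := by
  have h1 : (g1 ^ k).1 = (g1.1) ^ k := map_zpow (MonoidHom.fst (Equiv.Perm P1) (ZV ≃ₗ[ℤ] ZV)) g1 k
  rw [h1]
  have h2 : toC (hG ^ k) = (toC hG) ^ k := map_zpow _ _ _
  rw [h2]
  have h3 : perm ((toC hG) ^ k) = (perm (toC hG)) ^ k := map_zpow _ _ _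
  rw [h3, g1_perm]

lemma starG_mul (a b : GLZ) : starG (a * b) = starG a * starG b := map_mul _ _ _
lemma starG_zpow (a : GLZ) (k : ℤ) : starG (a ^ k) = starG a ^ k := map_zpow _ _ _
lemma starG_hT : starG hT = hT := by
  apply Matrix.GeneralLinearGroup.ext
  intro i j
  rw [starG, Matrix.GeneralLinearGroup.map_apply]
  fin_cases i <;> fin_cases j <;> simp [hT]
lemma starG_hS : starG hS = hS := by
  apply Matrix.GeneralLinearGroup.ext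
  intro i j
  rw [starG, Matrix.GeneralLinearGroup.map_apply]
  fin_cases i <;> fin_cases j <;> simp [hS]
lemma starG_hG : starG hG = hG := by
  simp only [hG, starG_mul, starG_zpow, starG_hT, starG_hS]

lemma conj_g1 (k : ℤ) : conjP * (g1 ^ k).1 = (g1 ^ k).1 * conjP := by
  rw [g1k_perm, conjP_mul, starG_zpow, starG_hG]

lemma conj_mem_Gam {w : PG} (hw : w ∈ W) (k : ℤ) : ∃ g ∈ Gam, perm g = (w * g1 ^ k * w⁻¹).1 := by
  have hmem : w * g1 ^ k * w⁻¹ ∈ W :=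
    W.mul_mem (W.mul_mem hw (W.zpow_mem g1_mem_W k)) (W.inv_mem hw)
  obtain ⟨h, hh⟩ := Ext_G w (W_le hw)
  have e : (w * g1 ^ k * w⁻¹).1 = perm (toC (h * hG ^ k * h⁻¹)) := by
    have h1 : (w * g1 ^ k * w⁻¹).1 = w.1 * (g1 ^ k).1 * (w.1)⁻¹ := rfl
    rw [h1]
    rcases hh with hh | hh
    · rw [hh, perm_inv, g1k_perm, perm_mul, perm_mul]
    · have h2 : w.1 * (g1 ^ k).1 * (w.1)⁻¹ = perm (toC h) * (g1 ^ k).1 * (perm (toC h))⁻¹ := by
        rw [hh, _root_.mul_inv_rev, mul_assoc (perm (toC h)), conj_g1]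
        group
      rw [h2, perm_inv, g1k_perm, perm_mul, perm_mul]
  refine ⟨toC (h * hG ^ k * h⁻¹), mem_Gam.mpr ⟨⟨_, rfl⟩, _, hmem, e⟩, e.symm⟩

/-- small walls near every point of the packing, avoiding a given point -/
lemma near {U : Set P1} (hU : IsOpen U) {x : P1} (hx : x ∈ U) (hxP : x ∈ ⋃₀ PP) (z0 : P1) :
    ∃ f ∈ HH, ∀ z, N f z ≤ 0 → z ∈ U ∧ z ≠ z0 := by
  obtain ⟨S, hS, hxS⟩ := hxP
  obtain ⟨p, hp, rfl⟩ := PP_sub hS
  have hV : IsOpen (p.1 ⁻¹' U) := hU.preimage (cont_G p hp)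
  have hy : N e1 (p⁻¹.1 x) = 0 := by
    have := (N_sgn hp e1 (p⁻¹.1 x)).2.2.2.2
    rw [inv1'] at this
    exact this.mp hxS
  have hyV : p⁻¹.1 x ∈ p.1 ⁻¹' U := by
    change p.1 (p⁻¹.1 x) ∈ U
    rw [inv1']; exact hx
  obtain ⟨u, hu⟩ : ∃ u : ℝ, (((u : ℂ)) : P1) ∈ p.1 ⁻¹' U := by
    generalize p⁻¹.1 x = y at hy hyV
    induction y using OnePoint.rec with
    | infty =>
      obtain ⟨n, hn⟩ := near_infty hV hyV
      refine ⟨n, hn _ ?_⟩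
      simp
    | coe w =>
      rw [N_e1_coe] at hy
      refine ⟨w.re, ?_⟩
      have e : ((w.re : ℝ) : ℂ) = w := by
        apply Complex.ext
        · simp
        · simp; linarith
      rw [e]; exact hyV
  have hV2 : IsOpen ((fun w : ℂ => (w : P1)) ⁻¹' (p.1 ⁻¹' U)) := hV.preimage OnePoint.continuous_coe
  obtain ⟨ε, hε, hball⟩ := Metric.isOpen_iff.mp hV2 (u : ℂ) hu
  have hin : ∀ q : ℚ, u < q → (q : ℝ) < u + ε → ((((q : ℝ)) : ℂ) : P1) ∈ p.1 ⁻¹' U := by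
    intro q h1 h2
    apply hball
    rw [Metric.mem_ball, dist_eq_norm, ← Complex.ofReal_sub, Complex.norm_real, Real.norm_eq_abs,
      abs_lt]
    constructor <;> linarith
  obtain ⟨q1, h1, h2⟩ := exists_rat_btwn (show u < u + ε by linarith)
  obtain ⟨q2, h3, h4⟩ := exists_rat_btwn h2
  have hq1 := hin q1 h1 h2
  have hq2 := hin q2 (h1.trans h3) h4
  obtain ⟨q, hq, hqz⟩ : ∃ q : ℚ, ((((q : ℝ)) : ℂ) : P1) ∈ p.1 ⁻¹' U ∧
      p.1 ((((q : ℝ)) : ℂ) : P1) ≠ z0 := by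
    by_cases hz : p.1 ((((q1 : ℝ)) : ℂ) : P1) = z0
    · refine ⟨q2, hq2, ?_⟩
      intro h
      rw [← hz] at h
      have h5 := OnePoint.coe_injective (p.1.injective h)
      have h6 : (q2 : ℝ) = q1 := by exact_mod_cast h5
      linarith
    · exact ⟨q1, hq1, hz⟩
  obtain ⟨p', hp', h5, -⟩ := rat_cusp q.den q.den_pos q.num
  have e : ((q.num : ℂ) / (q.den : ℂ)) = (((q : ℝ)) : ℂ) := by
    have := Rat.num_div_den q
    have h6 : (((q.num : ℚ) / (q.den : ℚ) : ℚ) : ℂ) = ((q : ℚ) : ℂ) := by rw [this]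
    push_cast at h6
    rw [h6]; simp
  rw [e] at h5
  obtain ⟨f, hf, hfz⟩ := small_wall (G.mul_mem hp hp') (U := U ∩ {z0}ᶜ)
    (hU.inter isOpen_compl_singleton) (by
      rw [mul1, h5]
      exact ⟨hq, hqz⟩)
  exact ⟨f, hf, fun z hz => ⟨(hfz z hz).1, (hfz z hz).2⟩⟩

lemma s2_mem_K : (((√2 : ℝ) : ℂ) : P1) ∈ K := by
  left
  rw [mem_Up_coe]
  simp

/-- points of the upper half plane are attracted to `√2`. -/
lemma attract {z : P1} (hz : z ∈ Up) :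
    Tendsto (fun n : ℕ => (g1 ^ (n : ℤ)).1 z) atTop (𝓝 (((√2 : ℝ) : ℂ) : P1)) := by
  have h1 : ∀ n : ℕ, ∃ w : ℂ, (w : P1) = (g1 ^ (n : ℤ)).1 z ∧ 0 < w.im := by
    intro n
    exact (Up_g1z n z).mpr hz
  choose v hv hv0 using h1
  have h2 : Tendsto v atTop (𝓝 ((√2 : ℝ) : ℂ)) := by
    rw [tendsto_iff_norm_sub_tendsto_zero]
    have hF := Ff_pos hz
    have hbound : ∀ n : ℕ, ‖v n - ((√2 : ℝ) : ℂ)‖ ≤ (Ff z)⁻¹ * (lam⁻¹) ^ n := by
      intro n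
      have h3 := Ff_g1z (n : ℤ) hz
      rw [← hv n, Ff_coe] at h3
      have h4 : ‖v n - ((√2 : ℝ) : ℂ)‖ ^ 2 = ((v n).re - √2) ^ 2 + (v n).im ^ 2 := by
        rw [← Complex.normSq_eq_norm_sq, Complex.normSq_apply]
        simp; ring
      rw [← h4] at h3
      have h5 : (v n).im ≤ ‖v n - ((√2 : ℝ) : ℂ)‖ := by
        have := Complex.abs_im_le_norm (v n - ((√2 : ℝ) : ℂ))
        simp at this
        exact (le_abs_self _).trans this
      have h6 : 0 < ‖v n - ((√2 : ℝ) : ℂ)‖ := lt_of_lt_of_le (hv0 n) h5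
      have h7 : 0 < lam ^ (n : ℤ) * Ff z := mul_pos (zpow_pos lam_pos _) hF
      have h8 : lam ^ (n : ℤ) * Ff z * ‖v n - ((√2 : ℝ) : ℂ)‖ ≤ 1 := by
        rw [← h3, div_mul_eq_mul_div, div_le_one (by positivity), pow_two]
        exact mul_le_mul_of_nonneg_right h5 h6.le
      have h9 : (Ff z)⁻¹ * (lam⁻¹) ^ n = (lam ^ (n : ℤ) * Ff z)⁻¹ := by
        rw [_root_.mul_inv_rev, zpow_natCast, inv_pow]
      rw [h9, ← one_div, le_div_iff₀ h7, mul_comm]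
      exact h8
    have hlim : Tendsto (fun n : ℕ => (Ff z)⁻¹ * (lam⁻¹) ^ n) atTop (𝓝 0) := by
      have := (tendsto_pow_atTop_nhds_zero_of_lt_one (inv_nonneg.mpr lam_pos.le)
        (inv_lt_one_of_one_lt₀ lam_gt)).const_mul (Ff z)⁻¹
      rwa [mul_zero] at this
    exact squeeze_zero (fun n => norm_nonneg _) hbound hlim
  have h3 := (OnePoint.continuous_coe.tendsto _).comp h2
  refine h3.congr (fun n => ?_)
  exact hv n

theorem der_sup {x : P1} (hx : x ∈ closure (⋃₀ PP)) (z : P1) :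
    x ∈ derivedSet {w : P1 | ∃ g ∈ Gam, w = g • z} := by
  rw [mem_derivedSet, accPt_iff_nhds]
  intro U hU
  obtain ⟨U', hU'U, hU', hxU'⟩ := mem_nhds_iff.mp hU
  obtain ⟨x', hx'U, hx'P⟩ := mem_closure_iff.mp hx U' hU' hxU'
  obtain ⟨f, hf, hfz⟩ := near hU' hx'U hx'P z
  obtain ⟨w, hw, hwK⟩ := full hf
  have hz' : w⁻¹.1 z ∉ K := by
    intro h
    have h1 := hwK _ h
    rw [inv1'] at h1
    exact (hfz z h1).2 rfl
  have hUp : w⁻¹.1 z ∈ Up := by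
    by_contra h
    exact hz' (Or.inl h)
  have hlim := attract hUp
  have hlim2 : Tendsto (fun n : ℕ => w.1 ((g1 ^ (n : ℤ)).1 (w⁻¹.1 z))) atTop
      (𝓝 (w.1 (((√2 : ℝ) : ℂ) : P1))) :=
    ((cont_G w (W_le hw)).tendsto _).comp hlim
  have hmem : w.1 (((√2 : ℝ) : ℂ) : P1) ∈ U' := (hfz _ (hwK _ s2_mem_K)).1
  have hev := hlim2.eventually (hU'.mem_nhds hmem)
  rw [eventually_atTop] at hev
  obtain ⟨n, hn⟩ := hev
  have horb : ∀ m : ℕ, w.1 ((g1 ^ (m : ℤ)).1 (w⁻¹.1 z)) ∈ {w : P1 | ∃ g ∈ Gam, w = g • z} := by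
    intro m
    obtain ⟨g, hg, hgw⟩ := conj_mem_Gam hw (m : ℤ)
    refine ⟨g, hg, ?_⟩
    rw [← perm_apply, hgw]
    rfl
  have hne : w.1 ((g1 ^ (n : ℤ)).1 (w⁻¹.1 z)) ≠ w.1 ((g1 ^ ((n + 1 : ℕ) : ℤ)).1 (w⁻¹.1 z)) := by
    intro h
    have h1 := w.1.injective h
    have h2 := congrArg Ff h1
    rw [Ff_g1z _ hUp, Ff_g1z _ hUp] at h2
    have h3 := mul_right_cancel₀ (Ff_pos hUp).ne' h2
    rw [zpow_natCast, zpow_natCast, pow_succ] at h3
    have h4 : 0 < lam ^ n := pow_pos lam_pos n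
    have h5 := lam_gt
    nlinarith
  by_cases hxe : w.1 ((g1 ^ (n : ℤ)).1 (w⁻¹.1 z)) = x
  · refine ⟨_, ⟨hU'U (hn (n + 1) (by omega)), horb (n + 1)⟩, ?_⟩
    rw [← hxe]
    exact hne.symm
  · exact ⟨_, ⟨hU'U (hn n le_rfl), horb n⟩, hxe⟩

end Q4.Apo
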