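import Pool.Agent.Q4.Apo.KSet

/-! The group `W` generated by `g1` and the reflections in the maximal walls missing `K`, and
the ping-pong argument. -/

namespace Q4.Apo

open OnePoint Complex Matrix Filter Topology

/-- the open disk of `f` misses `K` -/
def KD (f : ZV) : Prop := ∀ z ∈ K, 0 ≤ N f z

/-- the maximal walls missing `K` -/
def EE : Set ZV := {f | f ∈ HH ∧ KD f ∧ ∀ g ∈ HH, KD g → (∀ z, N f z < 0 → N g z < 0) → g = f}

lemma low_pt : ∃ z : P1, z ∈ Lo := ⟨((-I : ℂ) : P1), by rw [mem_Lo_coe]; simp⟩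

lemma KD_Lo {f : ZV} (hf : f ∈ HH) (h : KD f) : ∀ z ∈ Lo, 0 < N f z :=
  Lo_pos (HH_wall hf).2.2.2.2 (fun z hz => h z (Lo_sub_K hz))

lemma EE_disj {f g : ZV} (hf : f ∈ EE) (hg : g ∈ EE) (hne : f ≠ g) :
    ∀ z, N g z ≤ 0 → 0 ≤ N f z := by
  have wf := HH_wall hf.1
  have wg := HH_wall hg.1
  rcases D_odd wf wg with hD | hD
  · have hD' : (2 : ℝ) ≤ (D f g : ℝ) := by exact_mod_cast hD
    exfalso
    rcases tri wf wg with h | h
    · apply hne
      refine hg.2.2 f hf.1 hf.2.1 (fun z hz => ?_)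
      have := h z
      by_contra hc
      push Not at hc
      nlinarith
    · apply hne
      refine (hf.2.2 g hg.1 hg.2.1 (fun z hz => ?_)).symm
      have := h z
      by_contra hc
      push Not at hc
      nlinarith
  · have hD' : (D f g : ℝ) ≤ -2 := by exact_mod_cast hD
    rcases tri wf wg with h | h
    · intro z hz
      have := h z
      by_contra hc
      push Not at hc
      nlinarith
    · exfalso
      obtain ⟨z, hz⟩ := low_pt
      have h1 := KD_Lo hf.1 hf.2.1 z hz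
      have h2 := hg.2.1 z (Lo_sub_K hz)
      have := h z
      nlinarith

noncomputable def W : Subgroup PG := Subgroup.closure ({g1} ∪ {p | ∃ f ∈ EE, p = Rf f})

lemma g1_mem_W : g1 ∈ W := Subgroup.subset_closure (Or.inl rfl)
lemma Rf_mem_W {f : ZV} (hf : f ∈ EE) : Rf f ∈ W := Subgroup.subset_closure (Or.inr ⟨f, hf, rfl⟩)

lemma W_le : W ≤ G := by
  rw [W, Subgroup.closure_le]
  rintro p (rfl | ⟨f, hf, rfl⟩)
  · exact g1_mem
  · exact Rf_mem f

lemma KD_act {p : PG} (hp : p ∈ G) (hK : ∀ z, p.1 z ∈ K ↔ z ∈ K) (f : ZV) :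
    KD (p.2 f) ↔ KD f := by
  constructor
  · intro h z hz
    exact (N_sgn hp f z).2.2.2.1.mp (h _ ((hK z).mpr hz))
  · intro h z hz
    have e := inv1' p z
    rw [← e]
    apply (N_sgn hp f _).2.2.2.1.mpr
    apply h
    rw [← hK, e]
    exact hz

lemma EE_act {p : PG} (hp : p ∈ G) (hK : ∀ z, p.1 z ∈ K ↔ z ∈ K) {f : ZV} (hf : f ∈ EE) :
    p.2 f ∈ EE := by
  refine ⟨HH_act hp hf.1, (KD_act hp hK f).mpr hf.2.1, ?_⟩
  intro g hg hgK hsub
  have h1 : p⁻¹.2 g = f := by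
    apply hf.2.2 _ (HH_act (G.inv_mem hp) hg)
    · rw [← KD_act hp hK, inv2']
      exact hgK
    · intro z hz
      have h2 := hsub (p.1 z) ((N_sgn hp f z).1.mpr hz)
      have h3 := (N_sgn hp (p⁻¹.2 g) z).1
      rw [inv2'] at h3
      exact h3.mp h2
  rw [← h1, inv2']

lemma g1z_mem (n : ℤ) : g1 ^ n ∈ G := G.zpow_mem g1_mem n

inductive B : ZV → PG → Prop
  | base (f : ZV) (n : ℤ) (hf : f ∈ EE) : B f (Rf f * g1 ^ n)
  | step (f g : ZV) (w : PG) (hf : f ∈ EE) (hne : f ≠ g) (hw : B g w) : B f (Rf f * w)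

lemma B_EE {f : ZV} {w : PG} (h : B f w) : f ∈ EE := by
  cases h <;> assumption

lemma B_K {f : ZV} {w : PG} (h : B f w) : ∀ z ∈ K, N f (w.1 z) ≤ 0 := by
  induction h with
  | base f n hf =>
    intro z hz
    rw [mul1]
    apply Rf_disk hf.1
    exact hf.2.1 _ ((K_g1 n z).mpr hz)
  | step f g w hf hne hw ih =>
    intro z hz
    rw [mul1]
    apply Rf_disk hf.1
    exact EE_disj hf (B_EE hw) hne _ (ih z hz)

lemma comm_Rf (k : ℤ) {f : ZV} (hf : f ∈ EE) :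
    g1 ^ k * Rf f = Rf ((g1 ^ k).2 f) * g1 ^ k := by
  rw [← Rf_conj hf.1 (g1z_mem k), inv_mul_cancel_right]

lemma B_g1 (k : ℤ) {f : ZV} {w : PG} (h : B f w) : B ((g1 ^ k).2 f) (g1 ^ k * w) := by
  induction h with
  | base f n hf =>
    rw [← mul_assoc, comm_Rf k hf, mul_assoc, ← _root_.zpow_add]
    exact B.base _ _ (EE_act (g1z_mem k) (K_g1 k) hf)
  | step f g w hf hne hw ih =>
    rw [← mul_assoc, comm_Rf k hf, mul_assoc]
    exact B.step _ _ _ (EE_act (g1z_mem k) (K_g1 k) hf) (fun h => hne ((g1 ^ k).2.injective h)) ih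

def Good (w : PG) : Prop := (∃ n : ℤ, w = g1 ^ n) ∨ ∃ f, B f w

lemma Good_g1 (k : ℤ) {w : PG} (h : Good w) : Good (g1 ^ k * w) := by
  rcases h with ⟨n, rfl⟩ | ⟨f, hf⟩
  · exact Or.inl ⟨k + n, (_root_.zpow_add _ _ _).symm⟩
  · exact Or.inr ⟨_, B_g1 k hf⟩

lemma Good_Rf {f : ZV} (hf : f ∈ EE) {w : PG} (h : Good w) : Good (Rf f * w) := by
  rcases h with ⟨n, rfl⟩ | ⟨g, hg⟩
  · exact Or.inr ⟨_, B.base f n hf⟩
  · by_cases hne : f = g
    · subst hne
      cases hg with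
      | base _ n _ =>
        rw [← mul_assoc, Rf_sq hf.1, one_mul]
        exact Or.inl ⟨n, rfl⟩
      | step _ g' w' _ _ hw' =>
        rw [← mul_assoc, Rf_sq hf.1, one_mul]
        exact Or.inr ⟨g', hw'⟩
    · exact Or.inr ⟨_, B.step f g w hf hne hg⟩

lemma Rf_inv {f : ZV} (hf : f ∈ EE) : (Rf f)⁻¹ = Rf f := by
  rw [inv_eq_iff_mul_eq_one]
  exact Rf_sq hf.1

lemma W_good : ∀ w ∈ W, Good w := by
  intro w hw
  refine Subgroup.closure_induction_left (p := fun x _ => Good x) ?_ ?_ ?_ hw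
  · exact Or.inl ⟨0, by simp⟩
  · rintro x (rfl | ⟨f, hf, rfl⟩) y _ hy
    · have := Good_g1 1 hy
      rwa [_root_.zpow_one] at this
    · exact Good_Rf hf hy
  · rintro x (rfl | ⟨f, hf, rfl⟩) y _ hy
    · have := Good_g1 (-1) hy
      rwa [_root_.zpow_neg_one] at this
    · rw [Rf_inv hf]
      exact Good_Rf hf hy

lemma g1z_e1 (n : ℤ) : (g1 ^ n).2 e1 = e1 := by
  induction n using Int.induction_on with
  | zero => rfl
  | succ k ih =>
    rw [_root_.zpow_add, _root_.zpow_one, mul2, g1_e1, ih]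
  | pred k ih =>
    rw [sub_eq_add_neg, _root_.zpow_add, _root_.zpow_neg_one, mul2]
    have : g1⁻¹.2 e1 = e1 := by
      have := inv2 g1 e1
      rw [g1_e1] at this
      exact this
    rw [this, ih]

lemma Lo_g1z (n : ℤ) (z : P1) : (g1 ^ n).1 z ∈ Lo ↔ z ∈ Lo := by
  rw [mem_Lo_iff, mem_Lo_iff]
  have := (N_sgn (g1z_mem n) e1 z).1
  rwa [g1z_e1] at this

lemma Cs_Lo {z : P1} (hz : z ∈ Cs) : z ∉ Lo := by
  obtain ⟨w, rfl, hw⟩ := hz
  rw [mem_Lo_coe]
  nlinarith [sq_nonneg (w.re - √2), sq_nonneg w.im]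

/-- no image of the circle meets the lower half plane -/
lemma W_Cs {w : PG} (hw : w ∈ W) {z : P1} (hz : z ∈ Cs) : w.1 z ∉ Lo := by
  rcases W_good w hw with ⟨n, rfl⟩ | ⟨f, hf⟩
  · rw [Lo_g1z]
    exact Cs_Lo hz
  · intro h
    have h1 := B_K hf z (Cs_sub_K hz)
    have h2 := KD_Lo (B_EE hf).1 (B_EE hf).2.1 _ h
    linarith

end Q4.Apo
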