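import Pool.Agent.Q4.Apo.Refl

/-! The packing property: positivity of the coordinates of the circles of the packing. -/

namespace Q4.Apo

open OnePoint Complex Matrix

/-- coordinates with respect to the base quadruple -/
def xc (v : ZV) : Fin 4 → ℤ :=
  ![v.2.2.2, v.1 - v.2.2.2, v.2.1 - v.2.2.2, v.1 + v.2.1 - 2 * v.2.2.1 - v.2.2.2]

lemma xc_inj {v w : ZV} (h : xc v = xc w) : v = w := by
  have h0 := congrFun h 0
  have h1 := congrFun h 1
  have h2 := congrFun h 2
  have h3 := congrFun h 3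
  simp [xc] at h0 h1 h2 h3
  obtain ⟨b, c, x, y⟩ := v
  obtain ⟨b', c', x', y'⟩ := w
  simp only at h0 h1 h2 h3
  simp only [Prod.mk.injEq]
  refine ⟨by omega, by omega, by omega, by omega⟩

def flip (j : Fin 4) (x : Fin 4 → ℤ) : Fin 4 → ℤ :=
  fun k => if k = j then 2 * (∑ i, x i) - 3 * x j else x k

def E (i : Fin 4) : Fin 4 → ℤ := fun k => if k = i then -1 else 1

lemma flip_flip (j : Fin 4) (x : Fin 4 → ℤ) : flip j (flip j x) = x := by
  funext k
  fin_cases j <;> fin_cases k <;> simp [flip, Fin.sum_univ_four] <;> ring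

lemma flip_E (j i : Fin 4) (h : i ≠ j) : flip j (E i) = E i := by
  funext k
  fin_cases j <;> fin_cases k <;> fin_cases i <;> simp_all [flip, E, Fin.sum_univ_four]

inductive Rch : Fin 4 → (Fin 4 → ℤ) → Prop
  | base (j : Fin 4) : Rch j (flip j (E j))
  | step (i j : Fin 4) (x : Fin 4 → ℤ) (h : i ≠ j) (hx : Rch i x) : Rch j (flip j x)

def SS (x : Fin 4 → ℤ) : Prop := (∃ i, x = E i) ∨ ∃ j, Rch j x

lemma Rch_pred {j : Fin 4} {x : Fin 4 → ℤ} (h : Rch j x) : SS (flip j x) := by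
  cases h with
  | base => rw [flip_flip]; exact Or.inl ⟨j, rfl⟩
  | step i _ y hij hy => rw [flip_flip]; exact Or.inr ⟨i, hy⟩

lemma SS_flip {x : Fin 4 → ℤ} (h : SS x) (j : Fin 4) : SS (flip j x) := by
  rcases h with ⟨i, rfl⟩ | ⟨i, hi⟩
  · by_cases hij : i = j
    · subst hij; exact Or.inr ⟨i, Rch.base i⟩
    · rw [flip_E j i hij]; exact Or.inl ⟨i, rfl⟩
  · by_cases hij : i = j
    · subst hij; exact Rch_pred hi
    · exact Or.inr ⟨j, Rch.step i j x hij hi⟩

lemma SS_flip_iff (x : Fin 4 → ℤ) (j : Fin 4) : SS (flip j x) ↔ SS x := by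
  constructor
  · intro h
    have := SS_flip h j
    rwa [flip_flip] at this
  · intro h; exact SS_flip h j

lemma flip_perm (π : Equiv.Perm (Fin 4)) (j : Fin 4) (x : Fin 4 → ℤ) :
    (flip j x) ∘ π = flip (π.symm j) (x ∘ π) := by
  funext k
  simp only [flip, Function.comp]
  have e : (∑ i, x (π i)) = ∑ i, x i := Equiv.sum_comp π x
  by_cases h : π k = j
  · rw [if_pos h, if_pos (by rw [← h]; simp), e]
    simp
  · rw [if_neg h, if_neg (by intro h'; apply h; rw [h']; simp)]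

lemma E_perm (π : Equiv.Perm (Fin 4)) (i : Fin 4) : (E i) ∘ π = E (π.symm i) := by
  funext k
  simp only [E, Function.comp]
  by_cases h : π k = i
  · rw [if_pos h, if_pos (by rw [← h]; simp)]
  · rw [if_neg h, if_neg (by intro h'; apply h; rw [h']; simp)]

lemma Rch_perm (π : Equiv.Perm (Fin 4)) {j : Fin 4} {x : Fin 4 → ℤ} (h : Rch j x) :
    Rch (π.symm j) (x ∘ π) := by
  induction h with
  | base j => rw [flip_perm, E_perm]; exact Rch.base _
  | step i j x hij hx ih =>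
    rw [flip_perm]
    exact Rch.step _ _ _ (by intro h; exact hij (π.symm.injective h)) ih

lemma SS_perm (π : Equiv.Perm (Fin 4)) {x : Fin 4 → ℤ} (h : SS x) : SS (x ∘ π) := by
  rcases h with ⟨i, rfl⟩ | ⟨j, hj⟩
  · rw [E_perm]; exact Or.inl ⟨_, rfl⟩
  · exact Or.inr ⟨_, Rch_perm π hj⟩

lemma SS_perm_iff (π : Equiv.Perm (Fin 4)) (x : Fin 4 → ℤ) : SS (x ∘ π) ↔ SS x := by
  constructor
  · intro h
    have := SS_perm π.symm h
    have e : (x ∘ π) ∘ π.symm = x := by funext k; simp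
    rwa [e] at this
  · exact SS_perm π

lemma Rch_pos {j : Fin 4} {x : Fin 4 → ℤ} (h : Rch j x) :
    (∀ k, 1 ≤ x k) ∧ (∀ k, k ≠ j → x k < x j) := by
  induction h with
  | base j =>
    fin_cases j <;> (constructor <;> intro k <;> fin_cases k <;> simp [flip, E, Fin.sum_univ_four])
  | step i j x hij hx ih =>
    obtain ⟨h1, h2⟩ := ih
    have p0 := h1 0
    have p1 := h1 1
    have p2 := h1 2
    have p3 := h1 3
    have hj := h2 j (Ne.symm hij)
    have aux : ∀ i j : Fin 4, i ≠ j → x j < x i →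
        x i < 2 * (x 0 + x 1 + x 2 + x 3) - 3 * x j := by
      clear hij hj h1 h2 hx
      intro i j hij h
      fin_cases i <;> fin_cases j <;> simp at hij h ⊢ <;> omega
    have key : x i < 2 * (∑ i, x i) - 3 * x j := by
      rw [Fin.sum_univ_four]
      exact aux i j hij hj
    have hmax : ∀ k, x k ≤ x i := by
      intro k
      by_cases hk : k = i
      · rw [hk]
      · exact (h2 k hk).le
    constructor
    · intro k
      simp only [flip]
      split_ifs with hk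
      · have := h1 i; omega
      · exact h1 k
    · intro k hk
      simp only [flip]
      rw [if_neg hk]
      simp only [if_true]
      have := hmax k
      omega

lemma SS_pos {x : Fin 4 → ℤ} (h : SS x) (k : Fin 4) : 1 ≤ x k ∨ x = E k := by
  rcases h with ⟨i, rfl⟩ | ⟨j, hj⟩
  · by_cases hik : k = i
    · subst hik; exact Or.inr rfl
    · left; simp [E, hik]
  · exact Or.inl ((Rch_pos hj).1 k)

lemma xc_T (v : ZV) : xc (AT v) = (flip 3 (xc v)) ∘ (Equiv.swap 2 3) := by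
  obtain ⟨b, c, x, y⟩ := v
  funext k
  fin_cases k <;>
    simp [xc, AT, flip, Fin.sum_univ_four, Equiv.swap_apply_def] <;> ring

lemma xc_S (v : ZV) : xc (AS v) = (flip 3 (xc v)) ∘ (Equiv.swap 1 2) := by
  obtain ⟨b, c, x, y⟩ := v
  funext k
  fin_cases k <;>
    simp [xc, AS, flip, Fin.sum_univ_four, Equiv.swap_apply_def] <;> ring

lemma xc_R (v : ZV) : xc (AR v) = (flip 3 (xc v)) ∘ (Equiv.swap 0 1) := by
  obtain ⟨b, c, x, y⟩ := v
  funext k
  fin_cases k <;>
    simp [xc, AR, flip, Fin.sum_univ_four, Equiv.swap_apply_def] <;> ring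

lemma xc_sig (v : ZV) : xc (Asig v) = flip 3 (xc v) := by
  obtain ⟨b, c, x, y⟩ := v
  funext k
  fin_cases k <;>
    simp [xc, Asig, flip, Fin.sum_univ_four] <;> ring

lemma SS_G : ∀ p ∈ G, ∀ v : ZV, SS (xc (p.2 v)) ↔ SS (xc v) := by
  apply G_ind
  · intro v; rfl
  · intro v
    change SS (xc (AT v)) ↔ _
    rw [xc_T, SS_perm_iff, SS_flip_iff]
  · intro v
    change SS (xc (AS v)) ↔ _
    rw [xc_S, SS_perm_iff, SS_flip_iff]
  · intro v
    change SS (xc (AR v)) ↔ _
    rw [xc_R, SS_perm_iff, SS_flip_iff]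
  · intro v
    change SS (xc (Asig v)) ↔ _
    rw [xc_sig, SS_flip_iff]
  · intro p q hp hq v
    exact (hp (q.2 v)).trans (hq v)
  · intro p hp v
    have := hp (p.2⁻¹ v)
    have e1 : ∀ f, p.2 (p.2⁻¹ f) = f := fun f => p.2.apply_symm_apply f
    rw [e1] at this
    exact this.symm

def e1 : ZV := (0, 0, 0, -1)
def e2 : ZV := (0, 2, 0, 1)
def e3 : ZV := (2, 0, 0, 1)
def e4 : ZV := (2, 2, 2, 1)

lemma xc_e1 : xc e1 = E 0 := by
  funext k; fin_cases k <;> simp [xc, e1, E]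
lemma xc_e2 : xc e2 = E 1 := by
  funext k; fin_cases k <;> simp [xc, e2, E]

lemma D_e1 : D e1 e1 = 2 := by simp [D, e1]

/-- the positivity of the vectors of circles in the packing -/
lemma pk_y {p : PG} (hp : p ∈ G) : 1 ≤ (p.2 e1).2.2.2 ∨ p.2 e1 = e1 := by
  have h : SS (xc (p.2 e1)) := (SS_G p hp e1).mpr (Or.inl ⟨0, xc_e1⟩)
  rcases SS_pos h 0 with h | h
  · left; simpa [xc] using h
  · right; rw [← xc_e1] at h; exact xc_inj h

lemma pk_b {p : PG} (hp : p ∈ G) : 1 ≤ (p.2 e1).1 - (p.2 e1).2.2.2 ∨ p.2 e1 = e2 := by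
  have h : SS (xc (p.2 e1)) := (SS_G p hp e1).mpr (Or.inl ⟨0, xc_e1⟩)
  rcases SS_pos h 1 with h | h
  · left; simpa [xc] using h
  · right; rw [← xc_e2] at h; exact xc_inj h

/-- the circles of the packing do not meet the lower half plane. -/
lemma pk_Lo {p : PG} (hp : p ∈ G) {z : P1} (hz : N (p.2 e1) z = 0) : z ∉ Lo := by
  rintro ⟨w, rfl, hw⟩
  rcases pk_y hp with h1 | h1
  · rcases pk_b hp with h2 | h2
    · have hn := norm_real (f := p.2 e1) (by rw [D_inv p hp, D_e1])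
      simp only [N, Nr_coe] at hz
      have hb : (2 : ℤ) ≤ (p.2 e1).1 := by omega
      have hb' : (2 : ℝ) ≤ ((p.2 e1).1 : ℝ) := by exact_mod_cast hb
      have hy' : (1 : ℝ) ≤ ((p.2 e1).2.2.2 : ℝ) := by exact_mod_cast h1
      set b : ℝ := (((p.2 e1).1 : ℤ) : ℝ)
      set c : ℝ := (((p.2 e1).2.1 : ℤ) : ℝ)
      set x : ℝ := (((p.2 e1).2.2.1 : ℤ) : ℝ)
      set y : ℝ := (((p.2 e1).2.2.2 : ℤ) : ℝ)
      have e : (b * w.re - x) ^ 2 + (b * w.im - y) ^ 2 =
        b * (b * (w.re ^ 2 + w.im ^ 2) - 2 * (x * w.re + y * w.im) + c)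
          + (x ^ 2 + y ^ 2 - b * c) := by ring
      rw [hz, hn] at e
      have h3 : b * w.im - y < -1 := by nlinarith
      nlinarith [sq_nonneg (b * w.re - x)]
    · rw [h2] at hz
      simp [N, e2] at hz
      linarith
  · rw [h1] at hz
    simp [N, e1] at hz
    linarith

end Q4.Apo
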