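import Pool.Agent.Q4.Apo.Cusp

/-! The packing as a set of circles: invariance under `G`, and all circles are `G`-images of the
real line. -/

namespace Q4.Apo

open OnePoint Complex Matrix Filter Topology

abbrev Rhat : Set P1 :=
  insert (OnePoint.infty : OnePoint ℂ) (Set.range (fun x : ℝ => OnePoint.some (x : ℂ)))

abbrev IsCirc (V : Set P1) : Prop :=
  ∃ g : Matrix.GeneralLinearGroup (Fin 2) ℂ, V = (fun w : OnePoint ℂ => g • w) ''
    (insert (OnePoint.infty : OnePoint ℂ) (Set.range (fun x : ℝ => OnePoint.some (x : ℂ))))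

def circ (v : ZV) : Set P1 := {z | N v z = 0}

lemma mem_Rhat_iff (z : P1) : z ∈ Rhat ↔ N e1 z = 0 := by
  induction z using OnePoint.rec with
  | infty => rw [N_e1_infty]; simp [Rhat]
  | coe w =>
    rw [N_e1_coe]
    constructor
    · rintro (h | ⟨x, h⟩)
      · exact absurd h (OnePoint.coe_ne_infty w)
      · have := OnePoint.coe_injective h
        rw [← this]; simp
    · intro h
      right
      refine ⟨w.re, ?_⟩
      have : w.im = 0 := by linarith
      have e : ((w.re : ℝ) : ℂ) = w := by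
        apply Complex.ext <;> simp [this]
      change ((w.re : ℂ) : P1) = _
      rw [e]

lemma circ_e1 : circ e1 = Rhat := by
  ext z; exact (mem_Rhat_iff z).symm

lemma img_circ {p : PG} (hp : p ∈ G) (v : ZV) : p.1 '' (circ v) = circ (p.2 v) := by
  ext z
  constructor
  · rintro ⟨w, hw, rfl⟩
    exact (N_sgn hp v w).2.2.2.2.mpr hw
  · intro hz
    refine ⟨p⁻¹.1 z, ?_, inv1' p z⟩
    have := (N_sgn hp v (p⁻¹.1 z)).2.2.2.2
    rw [inv1'] at this
    exact this.mp hz

lemma conjP_Rhat : conjP '' Rhat = Rhat := by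
  have h : ∀ z, conjP z ∈ Rhat ↔ z ∈ Rhat := by
    intro z
    rw [mem_Rhat_iff, mem_Rhat_iff]
    induction z using OnePoint.rec with
    | infty => rw [conjP_infty]
    | coe w => rw [conjP_coe, N_e1_coe, N_e1_coe]; simp
  have h2 : ∀ z, conjP (conjP z) = z := fun z => congrFun (congrArg DFunLike.coe conjP_sq) z
  ext z
  constructor
  · rintro ⟨w, hw, rfl⟩
    exact (h w).mpr hw
  · intro hz
    exact ⟨conjP z, (h z).mpr hz, h2 z⟩

lemma IsCirc_img {p : PG} (hp : p ∈ G) {V : Set P1} (hV : IsCirc V) : IsCirc (p.1 '' V) := by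
  obtain ⟨g, rfl⟩ := hV
  obtain ⟨h, hh | hh⟩ := Ext_G p hp
  · refine ⟨toC h * g, ?_⟩
    rw [hh, Set.image_image]
    apply Set.image_congr
    intro z _
    rw [perm_apply, mul_smul]
  · refine ⟨toC h * Matrix.GeneralLinearGroup.map (starRingEnd ℂ) g, ?_⟩
    rw [hh, Set.image_image]
    have h1 : (fun z => (perm (toC h) * conjP) (g • z)) '' Rhat =
        (fun z => (toC h * Matrix.GeneralLinearGroup.map (starRingEnd ℂ) g) • z) ''
          (conjP '' Rhat) := by
      rw [Set.image_image]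
      apply Set.image_congr
      intro z _
      change toC h • (conjP (g • z)) = _
      rw [conjP_smul, mul_smul]
    rw [h1, conjP_Rhat]

/-- unique intersection -/
def Tg (A B : Set P1) : Prop := ∃! z, z ∈ A ∩ B

lemma Tg_comm {A B : Set P1} : Tg A B ↔ Tg B A := by
  unfold Tg; rw [Set.inter_comm]

lemma Tg_img (φ : Equiv.Perm P1) (A B : Set P1) : Tg (φ '' A) (φ '' B) ↔ Tg A B := by
  unfold Tg
  rw [← Set.image_inter φ.injective]
  constructor
  · rintro ⟨z, ⟨w, hw, rfl⟩, h⟩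
    refine ⟨w, hw, fun w' hw' => ?_⟩
    exact φ.injective (h _ ⟨w', hw', rfl⟩)
  · rintro ⟨w, hw, h⟩
    refine ⟨φ w, ⟨w, hw, rfl⟩, ?_⟩
    rintro z ⟨w', hw', rfl⟩
    rw [h w' hw']

lemma Tg_circ {p : PG} (hp : p ∈ G) (v w : ZV) :
    Tg (circ (p.2 v)) (circ (p.2 w)) ↔ Tg (circ v) (circ w) := by
  rw [← img_circ hp, ← img_circ hp, Tg_img]

/-- the closure condition in the definition of the packing -/
abbrev Closed3 (F : Set (Set P1)) : Prop :=
  ∀ S ∈ F, ∀ T ∈ F, ∀ U ∈ F, ∀ V : Set (OnePoint ℂ),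
        (∃ g : Matrix.GeneralLinearGroup (Fin 2) ℂ, V = (fun w : OnePoint ℂ => g • w) '' (insert (OnePoint.infty : OnePoint ℂ) (Set.range (fun x : ℝ => OnePoint.some (x : ℂ))))) →
        (∃! p, p ∈ S ∩ T) → (∃! p, p ∈ T ∩ U) → (∃! p, p ∈ S ∩ U) → S ∩ T ∩ U = ∅ →
        (∃! p, p ∈ V ∩ S) → (∃! p, p ∈ V ∩ T) → (∃! p, p ∈ V ∩ U) → V ∈ F

/-- The packing. -/
def PP : Set (Set P1) :=
  ⋂₀ {F : Set (Set (OnePoint ℂ)) | circ e1 ∈ F ∧ circ e2 ∈ F ∧ circ e3 ∈ F ∧ circ e4 ∈ F ∧
    Closed3 F}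

lemma PP_e1 : circ e1 ∈ PP := fun _ hF => hF.1
lemma PP_e2 : circ e2 ∈ PP := fun _ hF => hF.2.1
lemma PP_e3 : circ e3 ∈ PP := fun _ hF => hF.2.2.1
lemma PP_e4 : circ e4 ∈ PP := fun _ hF => hF.2.2.2.1

lemma PP_closed : Closed3 PP := by
  intro S hS T hT U hU V hV h1 h2 h3 h4 h5 h6 h7 F hF
  exact hF.2.2.2.2 S (hS F hF) T (hT F hF) U (hU F hF) V hV h1 h2 h3 h4 h5 h6 h7

/-- tangency with the real line -/
lemma Tg_e1 {v : ZV} (h2 : D v v = 2) (hy : v.2.2.2 = 1) (hne : v ≠ (0, 0, 0, 1)) :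
    Tg (circ v) (circ e1) := by
  have hn := norm_real h2
  obtain ⟨b, c, x, y⟩ := v
  simp only at hn hy
  subst hy
  push_cast at hn
  by_cases hb : b = 0
  · subst hb
    have hx : (x : ℝ) = 0 := by push_cast at hn; nlinarith
    have hx' : x = 0 := by exact_mod_cast hx
    subst hx'
    have hc : c ≠ 0 := by
      rintro rfl; exact hne rfl
    have hc' : (c : ℝ) ≠ 0 := by exact_mod_cast hc
    refine ⟨∞, ⟨by simp [circ, N], by simp [circ, N, e1]⟩, ?_⟩
    rintro z ⟨hz1, hz2⟩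
    induction z using OnePoint.rec with
    | infty => rfl
    | coe w =>
      exfalso
      have h3 : N e1 (w : P1) = 0 := hz2
      have h4 : N (0, c, 0, 1) (w : P1) = 0 := hz1
      rw [N_e1_coe] at h3
      simp only [N, Nr_coe] at h4
      push_cast at h4
      apply hc'
      linarith
  · have hb' : (b : ℝ) ≠ 0 := by exact_mod_cast hb
    refine ⟨(((x / b : ℝ) : ℂ) : P1), ⟨?_, ?_⟩, ?_⟩
    · change N (b, c, x, 1) _ = 0
      simp only [N, Nr_coe]
      simp only [Complex.ofReal_re, Complex.ofReal_im]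
      push_cast
      field_simp
      linear_combination -hn
    · change N e1 _ = 0
      rw [N_e1_coe]; simp
    · rintro z ⟨hz1, hz2⟩
      induction z using OnePoint.rec with
      | infty =>
        exfalso
        have h4 : N (b, c, x, 1) (∞ : P1) = 0 := hz1
        rw [N_inf] at h4
        exact hb' h4
      | coe w =>
        have h3 : N e1 (w : P1) = 0 := hz2
        have h4 : N (b, c, x, 1) (w : P1) = 0 := hz1
        rw [N_e1_coe] at h3
        simp only [N, Nr_coe] at h4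
        push_cast at h4
        have h5 : w.im = 0 := by linarith
        rw [h5] at h4
        have h6 : (b * w.re - x) ^ 2 = 0 := by
          have e : ((b : ℝ) * w.re - x) ^ 2 = b * (b * (w.re ^ 2 + 0 ^ 2) - 2 * (x * w.re + 1 * 0) + c)
            + (x ^ 2 + 1 ^ 2 - b * c - 1) := by ring
          rw [e, h4, hn]; ring
        have h7 : (b : ℝ) * w.re - x = 0 := by
          exact pow_eq_zero_iff (two_ne_zero) |>.mp h6
        have h8 : w.re = x / b := by
          rw [eq_div_iff hb']; linarith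
        rw [OnePoint.coe_eq_coe]
        apply Complex.ext
        · rw [h8]; simp
        · rw [h5]; simp

/-- converse, for real vectors -/
lemma Tg_e1_conv {b c x y : ℝ} (hn : x ^ 2 + y ^ 2 - b * c = 1)
    (h : Tg {z | Nr b c x y z = 0} (circ e1)) : y ^ 2 = 1 := by
  obtain ⟨z0, ⟨h1, h2⟩, huniq⟩ := h
  have hreal : ∀ u : ℝ, b * u ^ 2 - 2 * x * u + c = 0 →
      (((u : ℂ)) : P1) = z0 := by
    intro u hu
    apply huniq
    refine ⟨?_, ?_⟩
    · change Nr b c x y _ = 0
      rw [Nr_coe]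
      simp only [Complex.ofReal_re, Complex.ofReal_im]
      linarith
    · change N e1 _ = 0
      rw [N_e1_coe]; simp
  have hinj : ∀ u v : ℝ, (((u : ℂ)) : P1) = z0 → (((v : ℂ)) : P1) = z0 → u = v := by
    intro u v hu hv
    rw [← hv] at hu
    exact_mod_cast OnePoint.coe_injective hu
  by_cases hb : b = 0
  · subst hb
    have hinf : (∞ : P1) = z0 := huniq ∞ ⟨by simp, by simp [circ, N, e1]⟩
    by_cases hx : x = 0
    · subst hx; nlinarith
    · exfalso
      have h3 := hreal (c / (2 * x)) (by field_simp; ring)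
      rw [← hinf] at h3
      exact OnePoint.coe_ne_infty _ h3
  · have hdisc : x ^ 2 - b * c = 0 := by
      rcases lt_trichotomy (x ^ 2 - b * c) 0 with hd | hd | hd
      · exfalso
        induction z0 using OnePoint.rec with
        | infty =>
          have : Nr b c x y ∞ = 0 := h1
          rw [Nr_infty] at this
          exact hb this
        | coe w =>
          have h3 : Nr b c x y (w : P1) = 0 := h1
          have h4 : N e1 (w : P1) = 0 := h2
          rw [N_e1_coe] at h4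
          rw [Nr_coe] at h3
          have h5 : w.im = 0 := by linarith
          rw [h5] at h3
          have : (b * w.re - x) ^ 2 = x ^ 2 - b * c := by
            linear_combination b * h3
          nlinarith [sq_nonneg (b * w.re - x)]
      · exact hd
      · exfalso
        set d := Real.sqrt (x ^ 2 - b * c) with hdd
        have hd2 : d ^ 2 = x ^ 2 - b * c := Real.sq_sqrt hd.le
        have hd0 : 0 < d := Real.sqrt_pos.mpr hd
        have h3 := hreal ((x + d) / b) (by field_simp; linear_combination hd2)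
        have h4 := hreal ((x - d) / b) (by field_simp; linear_combination hd2)
        have h5 := hinj _ _ h3 h4
        rw [div_left_inj' hb] at h5
        linarith
    linarith

lemma not_Tg_self_e1 : ¬ Tg (circ e1) (circ e1) := by
  intro h
  have := Tg_e1_conv (b := 0) (c := 0) (x := 0) (y := -1) (by norm_num)
  obtain ⟨z, -, hz⟩ := h
  have h0 := hz (((0 : ℂ)) : P1) ⟨by change N e1 _ = 0; rw [N_e1_coe]; simp,
    by change N e1 _ = 0; rw [N_e1_coe]; simp⟩
  have h1 := hz (((1 : ℂ)) : P1) ⟨by change N e1 _ = 0; rw [N_e1_coe]; simp,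
    by change N e1 _ = 0; rw [N_e1_coe]; simp⟩
  rw [← h1] at h0
  have := OnePoint.coe_injective h0
  norm_num at this

lemma r_e2 : r.2 e2 = e1 := by simp [r, AR, e1, e2]
lemma r_e1 : r.2 e1 = e2 := by simp [r, AR, e1, e2]
lemma s_e2 : s.2 e2 = e3 := by simp [s, AS, e3, e2]
lemma s_e3 : s.2 e3 = e2 := by simp [s, AS, e3, e2]
lemma t_e3 : t.2 e3 = e4 := by simp [t, AT, e3, e4]
lemma tk_e2 (k : ℤ) : (t ^ k).2 e2 = e2 := by
  rw [(tk k).2.2]; simp [e2]

def e0 : ZV := (2, 2, -2, 1)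
def e5 : ZV := (2, 8, 4, 1)

lemma not_Tg_self {p : PG} (hp : p ∈ G) : ¬ Tg (circ (p.2 e1)) (circ (p.2 e1)) := by
  rw [Tg_circ hp]; exact not_Tg_self_e1

lemma circ_Nr (v : ZV) : circ v = {z | Nr v.1 v.2.1 v.2.2.1 v.2.2.2 z = 0} := rfl

/-- circles of the packing tangent to the real line -/
lemma L1 {p : PG} (hp : p ∈ G) (h : Tg (circ (p.2 e1)) (circ e1)) :
    ∃ q ∈ G, q.2 e1 = e1 ∧ p.2 e1 = q.2 e2 := by
  have hD : D (p.2 e1) (p.2 e1) = 2 := by rw [D_inv p hp, D_e1]
  have hn := norm_real hD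
  have hy2 := Tg_e1_conv hn h
  have hy2' : (p.2 e1).2.2.2 ^ 2 = 1 := by exact_mod_cast hy2
  have hy : (p.2 e1).2.2.2 = 1 := by
    rcases pk_y hp with h1 | h1
    · nlinarith
    · rw [h1] at h; exact absurd h not_Tg_self_e1
  by_cases hb : (p.2 e1).1 = 0
  · refine ⟨1, G.one_mem, rfl, ?_⟩
    rcases pk_b hp with h1 | h1
    · omega
    · exact h1
  · have hb1 : 2 ≤ (p.2 e1).1 := by
      rcases pk_b hp with h1 | h1
      · omega
      · rw [h1] at hb; simp [e2] at hb
    obtain ⟨q, hq, h1, h2⟩ := rat_cusp (p.2 e1).1.toNat (by omega) (p.2 e1).2.2.1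
    refine ⟨q, hq, h2, ?_⟩
    have hcast : (((p.2 e1).1.toNat : ℕ) : ℂ) = (((p.2 e1).1 : ℤ) : ℂ) := by
      have : (((p.2 e1).1.toNat : ℕ) : ℤ) = (p.2 e1).1 := by omega
      exact_mod_cast congrArg (fun k : ℤ => (k : ℂ)) this
    rw [hcast] at h1
    have hN : N (p.2 e1) (q.1 ∞) = 0 := by
      rw [h1]
      have e : ((((p.2 e1).2.2.1 : ℤ) : ℂ) / (((p.2 e1).1 : ℤ) : ℂ)) =
          (((((p.2 e1).2.2.1 : ℤ) : ℝ) / (((p.2 e1).1 : ℤ) : ℝ) : ℝ) : ℂ) := by push_cast; rfl
      rw [e]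
      simp only [N, Nr_coe, Complex.ofReal_re, Complex.ofReal_im]
      have hb' : (((p.2 e1).1 : ℤ) : ℝ) ≠ 0 := by exact_mod_cast hb
      rw [hy] at hn ⊢
      push_cast at hn ⊢
      field_simp
      linear_combination -hn
    have hq' : q⁻¹ * p ∈ G := G.mul_mem (G.inv_mem hq) hp
    have hN2 : N ((q⁻¹ * p).2 e1) ∞ = 0 := by
      rw [mul2]
      have := (N_sgn (G.inv_mem hq) (p.2 e1) (q.1 ∞)).2.2.2.2.mpr hN
      rwa [inv1] at this
    rw [N_inf] at hN2
    have hb0 : ((q⁻¹ * p).2 e1).1 = 0 := by exact_mod_cast hN2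
    have hy' : ((q⁻¹ * p).2 e1).2.2.2 = 1 := by
      have h3 : D (p.2 e1) e1 = D ((q⁻¹ * p).2 e1) e1 := by
        have h4 : q⁻¹.2 e1 = e1 := by
          have := inv2 q e1
          rwa [h2] at this
        have h5 := D_inv q⁻¹ (G.inv_mem hq) (p.2 e1) e1
        rw [h4] at h5
        rw [mul2]; exact h5.symm
      simp [D, e1] at h3
      simp [e1] at hy ⊢
      omega
    have h6 : (q⁻¹ * p).2 e1 = e2 := by
      rcases pk_b hq' with h3 | h3
      · omega
      · exact h3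
    rw [← h6, mul2, inv2']

lemma Tg_e2_conv {b c x y : ℝ} (hn : x ^ 2 + y ^ 2 - b * c = 1)
    (h : Tg {z | Nr b c x y z = 0} (circ e2)) : (b - y) ^ 2 = 1 := by
  have himg : r.1 '' {z | Nr b c x y z = 0} = {z | Nr b (c + b - 2 * y) (-x) (b - y) z = 0} := by
    ext z
    constructor
    · rintro ⟨w, hw, rfl⟩
      change Nr _ _ _ _ (toC hR • w) = 0
      rw [Nr_R]; exact hw
    · intro hz
      refine ⟨r⁻¹.1 z, ?_, inv1' r z⟩
      change Nr b c x y _ = 0
      rw [← Nr_R]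
      change Nr _ _ _ _ (r.1 (r⁻¹.1 z)) = 0
      rw [inv1']; exact hz
  have h1 := (Tg_img r.1 _ _).mpr h
  rw [himg, img_circ r_mem, r_e2] at h1
  exact Tg_e1_conv (by linear_combination hn) h1

lemma Tg_e3_conv {b c x y : ℝ} (hn : x ^ 2 + y ^ 2 - b * c = 1)
    (h : Tg {z | Nr b c x y z = 0} (circ e3)) : (c - y) ^ 2 = 1 := by
  have himg : s.1 '' {z | Nr b c x y z = 0} = {z | Nr c b (-x) y z = 0} := by
    ext z
    constructor
    · rintro ⟨w, hw, rfl⟩
      obtain ⟨ρ, h0, hρ⟩ := Nr_S w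
      change Nr _ _ _ _ (toC hS • w) = 0
      have hw' : Nr b c x y w = 0 := hw
      rw [hρ, hw', mul_zero]
    · intro hz
      refine ⟨s⁻¹.1 z, ?_, inv1' s z⟩
      obtain ⟨ρ, h0, hρ⟩ := Nr_S (s⁻¹.1 z)
      have h1 := hρ b c x y
      have h2 : toC hS • (s⁻¹.1 z) = z := inv1' s z
      rw [h2] at h1
      have h3 : Nr c b (-x) y z = 0 := hz
      rw [h3] at h1
      rcases mul_eq_zero.mp h1.symm with h4 | h4
      · exact absurd h4 h0.ne'
      · exact h4
  have h1 := (Tg_img s.1 _ _).mpr h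
  rw [himg, img_circ s_mem, s_e3] at h1
  exact Tg_e2_conv (by linear_combination hn) h1

lemma L2 {p : PG} (hp : p ∈ G) (h : Tg (circ (p.2 e1)) (circ e1))
    (h' : Tg (circ (p.2 e1)) (circ e2)) : ∃ k : ℤ, p.2 e1 = (t ^ k).2 e3 := by
  have hD : D (p.2 e1) (p.2 e1) = 2 := by rw [D_inv p hp, D_e1]
  have hn := norm_real hD
  have hy2 := Tg_e1_conv hn h
  have hy2' : (p.2 e1).2.2.2 ^ 2 = 1 := by exact_mod_cast hy2
  have hy : (p.2 e1).2.2.2 = 1 := by
    rcases pk_y hp with h1 | h1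
    · nlinarith
    · rw [h1] at h; exact absurd h not_Tg_self_e1
  have hb2 := Tg_e2_conv hn h'
  have hb2' : ((p.2 e1).1 - (p.2 e1).2.2.2) ^ 2 = 1 := by exact_mod_cast hb2
  have hb : (p.2 e1).1 = 2 := by
    rcases pk_b hp with h1 | h1
    · rw [hy] at hb2' h1; nlinarith
    · exfalso
      rw [h1, ← r_e1] at h'
      exact not_Tg_self r_mem h'
  have hn' : (p.2 e1).2.2.1 ^ 2 = 2 * (p.2 e1).2.1 := by
    simp only [D, hy, hb] at hD
    nlinarith
  have heven : ∃ k, (p.2 e1).2.2.1 = 2 * k := by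
    have h2 : Even ((p.2 e1).2.2.1 ^ 2) := by rw [hn']; exact even_two_mul _
    have h3 : Even (p.2 e1).2.2.1 := by
      rwa [Int.even_pow' (two_ne_zero)] at h2
    obtain ⟨k, hk⟩ := h3
    exact ⟨k, by omega⟩
  obtain ⟨k, hk⟩ := heven
  refine ⟨k, ?_⟩
  rw [(tk k).2.2]
  have hc : (p.2 e1).2.1 = 2 * k ^ 2 := by
    rw [hk] at hn'; nlinarith
  simp only [e3]
  refine Prod.ext hb (Prod.ext ?_ (Prod.ext ?_ hy))
  · change (p.2 e1).2.1 = 0 + 2 * k * 0 + k ^ 2 * 2
    rw [hc]; ring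
  · change (p.2 e1).2.2.1 = 0 + k * 2
    rw [hk]; ring

end Q4.Apo
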