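import Pool.Agent.Q4.Apo.Geo

/-! Canonicity of the pairs and the reflections in the walls. -/

namespace Q4.Apo

open OnePoint Complex Matrix

lemma N_e1 (z : ℂ) : N (1, 0, 0, 0) (z : P1) = z.re ^ 2 + z.im ^ 2 := by
  simp [N]
lemma N_e2 (z : ℂ) : N (0, 1, 0, 0) (z : P1) = 1 := by
  simp [N]
lemma N_e3 (z : ℂ) : N (0, 0, 1, 0) (z : P1) = -2 * z.re := by
  simp [N]
lemma N_e4 (z : ℂ) : N (0, 0, 0, 1) (z : P1) = -2 * z.im := by
  simp [N]
lemma N_inf (f : ZV) : N f (∞ : P1) = f.1 := by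
  simp [N]

lemma pt_ext {z z' : P1} {ρ : ℝ} (hρ : 0 < ρ) (h : ∀ f : ZV, N f z' = ρ * N f z) : z' = z := by
  induction z using OnePoint.rec with
  | infty =>
    induction z' using OnePoint.rec with
    | infty => rfl
    | coe z' =>
      have := h (0, 1, 0, 0)
      rw [N_e2, N_inf] at this
      simp at this
  | coe z =>
    induction z' using OnePoint.rec with
    | infty =>
      have := h (0, 1, 0, 0)
      rw [N_e2, N_inf] at this
      simp at this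
      exact absurd this.symm hρ.ne'
    | coe z' =>
      have h2 := h (0, 1, 0, 0)
      have h3 := h (0, 0, 1, 0)
      have h4 := h (0, 0, 0, 1)
      rw [N_e2, N_e2] at h2
      rw [N_e3, N_e3] at h3
      rw [N_e4, N_e4] at h4
      have e : ρ = 1 := by linarith
      rw [e] at h3 h4
      rw [OnePoint.coe_eq_coe]
      apply Complex.ext <;> linarith

lemma canon {p : PG} (hp : p ∈ G) (h : p.2 = 1) : p = 1 := by
  have h1 : p.1 = 1 := by
    ext z
    obtain ⟨ρ, h0, hρ⟩ := N_compat p hp z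
    rw [h] at hρ
    exact pt_ext h0 hρ
  exact Prod.ext h1 h

lemma canon2 {p q : PG} (hp : p ∈ G) (hq : q ∈ G) (h : p.2 = q.2) : p = q := by
  have : p * q⁻¹ = 1 := by
    apply canon (G.mul_mem hp (G.inv_mem hq))
    change p.2 * q.2⁻¹ = 1
    rw [h, mul_inv_cancel]
  exact mul_inv_eq_one.mp this

open Classical in
/-- The reflection in a wall. -/
noncomputable def Rf (f : ZV) : PG :=
  if h : f ∈ HH then h.choose * σ * h.choose⁻¹ else 1

lemma Rf_mem (f : ZV) : Rf f ∈ G := by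
  unfold Rf
  split_ifs with h
  · exact G.mul_mem (G.mul_mem h.choose_spec.1 σ_mem) (G.inv_mem h.choose_spec.1)
  · exact G.one_mem

lemma sig_formula (v : ZV) : σ.2 v = v - D v f4 • f4 := by
  obtain ⟨b, c, x, y⟩ := v
  simp only [σ, Asig, D, f4, LinearEquiv.coe_mk, LinearMap.coe_mk, AddHom.coe_mk]
  ext <;> simp <;> ring

lemma Rf_eq {f : ZV} (hf : f ∈ HH) (v : ZV) : (Rf f).2 v = v - D v f • f := by
  unfold Rf
  rw [dif_pos hf]
  obtain ⟨hp, hpf⟩ := hf.choose_spec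
  set p := hf.choose
  change p.2 (σ.2 (p.2⁻¹ v)) = _
  rw [sig_formula, map_sub, _root_.map_smul, hpf]
  have e1 : p.2 (p.2⁻¹ v) = v := p.2.apply_symm_apply v
  rw [← D_inv p hp, e1, hpf]

lemma Rf_conj {f : ZV} (hf : f ∈ HH) {g : PG} (hg : g ∈ G) : g * Rf f * g⁻¹ = Rf (g.2 f) := by
  apply canon2 (G.mul_mem (G.mul_mem hg (Rf_mem f)) (G.inv_mem hg)) (Rf_mem _)
  apply LinearEquiv.ext
  intro v
  change g.2 ((Rf f).2 (g.2⁻¹ v)) = _
  rw [Rf_eq hf, Rf_eq (HH_act hg hf), map_sub, _root_.map_smul]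
  have e1 : g.2 (g.2⁻¹ v) = v := g.2.apply_symm_apply v
  rw [← D_inv g hg (g.2⁻¹ v) f, e1]

lemma D_smul_sub (v f : ZV) (k : ℤ) : D (v - k • f) f = D v f - k * D f f := by
  simp [D]; ring

lemma Rf_sq {f : ZV} (hf : f ∈ HH) : Rf f * Rf f = 1 := by
  apply canon (G.mul_mem (Rf_mem f) (Rf_mem f))
  apply LinearEquiv.ext
  intro v
  change (Rf f).2 ((Rf f).2 v) = v
  rw [Rf_eq hf, Rf_eq hf, D_smul_sub, (HH_wall hf).2.2.2.2]
  rw [sub_sub, ← add_smul]
  have : D v f + (D v f - D v f * 2) = 0 := by ring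
  rw [this, zero_smul, sub_zero]

lemma N_neg (f : ZV) (z : P1) : N (-f) z = - N f z := by
  induction z using OnePoint.rec with
  | infty => simp [N]
  | coe z => simp [N]; ring

lemma Rf_N {f : ZV} (hf : f ∈ HH) (z : P1) : ∃ ρ : ℝ, 0 < ρ ∧ N f ((Rf f).1 z) = - (ρ * N f z) := by
  obtain ⟨ρ, h0, h⟩ := N_compat _ (Rf_mem f) z
  refine ⟨ρ, h0, ?_⟩
  have := h f
  rw [Rf_eq hf, (HH_wall hf).2.2.2.2] at this
  have e : f - (2 : ℤ) • f = -f := by
    rw [two_smul]; abel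
  rw [e, N_neg] at this
  linarith

/-- a formula for `N` after a reflection. -/
lemma Rf_disk {f : ZV} (hf : f ∈ HH) {z : P1} (hz : 0 ≤ N f z) : N f ((Rf f).1 z) ≤ 0 := by
  obtain ⟨ρ, h0, h⟩ := Rf_N hf z
  rw [h]
  have := mul_nonneg h0.le hz
  linarith

/-- sign compatibility -/
lemma N_sgn {p : PG} (hp : p ∈ G) (f : ZV) (z : P1) :
    (N (p.2 f) (p.1 z) < 0 ↔ N f z < 0) ∧ (N (p.2 f) (p.1 z) ≤ 0 ↔ N f z ≤ 0) ∧
    (0 < N (p.2 f) (p.1 z) ↔ 0 < N f z) ∧ (0 ≤ N (p.2 f) (p.1 z) ↔ 0 ≤ N f z) ∧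
    (N (p.2 f) (p.1 z) = 0 ↔ N f z = 0) := by
  obtain ⟨ρ, h0, h⟩ := N_compat p hp z
  rw [h f]
  refine ⟨?_, ?_, ?_, ?_, ?_⟩
  · constructor
    · intro hh; by_contra hc; push Not at hc; have := mul_nonneg h0.le hc; linarith
    · intro hh; exact mul_neg_of_pos_of_neg h0 hh
  · constructor
    · intro hh; by_contra hc; push Not at hc; have := mul_pos h0 hc; linarith
    · intro hh; exact mul_nonpos_of_nonneg_of_nonpos h0.le hh
  · exact mul_pos_iff_of_pos_left h0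
  · exact mul_nonneg_iff_of_pos_left h0
  · rw [mul_eq_zero]; simp [h0.ne']

end Q4.Apo
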